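import Pool.Agent.R896.PA.Trans

/-!
The orthant case: exact indicator on generic points, corners.
-/

open MeasureTheory Filter Topology

namespace Pool.Agent.R896.PA

variable {d : ℕ}

/-- The closed positive orthant. -/
def Orth (d : ℕ) : Set (V d) := {x | ∀ i, 0 ≤ x i}

lemma ind_orth (x : V d) : ind (Orth d) x = ∏ i, (if 0 ≤ x i then (1 : ℝ) else 0) := by
  by_cases h : x ∈ Orth d
  · rw [ind_mem h]
    have h' : ∀ i, 0 ≤ x i := h
    simp [h']
  · rw [ind_not h]
    have : ∃ i, ¬ 0 ≤ x i := by
      by_contra hcon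
      push Not at hcon
      exact h hcon
    obtain ⟨i, hi⟩ := this
    symm
    exact Finset.prod_eq_zero (Finset.mem_univ i) (by rw [if_neg hi])

/-- Points avoiding the coordinate hyperplanes through the support. -/
def Gen (c : V d →₀ ℝ) (x : V d) : Prop := ∀ y ∈ c.support, ∀ i, x i ≠ y i

lemma gen_open {c : V d →₀ ℝ} {x : V d} (hx : Gen c x) :
    ∃ r > 0, ∀ x', ‖x' - x‖ < r → ∀ y ∈ c.support, ∀ i,
      (0 ≤ x' i - y i ↔ 0 ≤ x i - y i) := by
  have h : ∀ᶠ x' in 𝓝 x, ∀ y ∈ c.support, ∀ i, (0 ≤ x' i - y i ↔ 0 ≤ x i - y i) := by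
    refine (Finset.eventually_all _).2 fun y hy => ?_
    refine eventually_all.2 fun i => ?_
    have hne := hx y hy i
    have hc : Tendsto (fun x' : V d => x' i) (𝓝 x) (𝓝 (x i)) := (continuous_apply i).tendsto x
    rcases lt_or_gt_of_ne hne with hlt | hgt
    · filter_upwards [hc.eventually (gt_mem_nhds hlt)] with x' hx'
      constructor
      · intro h; linarith
      · intro h; linarith
    · filter_upwards [hc.eventually (lt_mem_nhds hgt)] with x' hx'
      constructor
      · intro _; linarith
      · intro _; linarith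
  obtain ⟨r, hr, hb⟩ := Metric.eventually_nhds_iff.1 h
  exact ⟨r, hr, fun x' hx' => hb (by rwa [dist_eq_norm])⟩

lemma op_orth_congr {c : V d →₀ ℝ} {x x' : V d}
    (h : ∀ y ∈ c.support, ∀ i, (0 ≤ x' i - y i ↔ 0 ≤ x i - y i)) :
    op c (ind (Orth d)) x' = op c (ind (Orth d)) x := by
  unfold op Finsupp.sum
  refine Finset.sum_congr rfl fun y hy => ?_
  show c y * ind (Orth d) (x' - y) = c y * ind (Orth d) (x - y)
  congr 1
  rw [ind_orth, ind_orth]
  refine Finset.prod_congr rfl fun i _ => ?_
  have := h y hy i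
  simp only [Pi.sub_apply]
  by_cases h1 : 0 ≤ x i - y i
  · rw [if_pos h1, if_pos (this.2 h1)]
  · rw [if_neg h1, if_neg (fun h2 => h1 (this.1 h2))]

/-- At generic points the identity is exact. -/
lemma gen_exact {G : Set (V d)} (hG : Reg G) {c : V d →₀ ℝ}
    (hc : ∀ᵐ x ∂(volume : Measure (V d)), ind G x = op c (ind (Orth d)) x) {x : V d}
    (hx : Gen c x) : ind G x = op c (ind (Orth d)) x := by
  obtain ⟨r, hr, hb⟩ := gen_open hx
  by_cases hxG : x ∈ G
  · have h1 : x ∈ closure (interior G) := by rw [hG.reg]; exact hxG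
    obtain ⟨y, hy, hyd⟩ := Metric.mem_closure_iff.1 h1 r hr
    have hpos : 0 < volume (interior G ∩ Metric.ball x r) := by
      refine (isOpen_interior.inter Metric.isOpen_ball).measure_pos _ ⟨y, hy, ?_⟩
      rw [Metric.mem_ball, dist_comm]
      exact hyd
    by_contra hne
    have hzero : volume (interior G ∩ Metric.ball x r) = 0 := by
      refine measure_mono_null ?_ (ae_iff.1 hc)
      rintro z ⟨hz1, hz2⟩ hcon
      rw [Metric.mem_ball, dist_eq_norm] at hz2
      apply hne
      rw [ind_mem (interior_subset hz1), op_orth_congr (hb z hz2)] at hcon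
      rw [ind_mem hxG]
      exact hcon
    rw [hzero] at hpos
    exact lt_irrefl _ hpos
  · have hpos : 0 < volume (Gᶜ ∩ Metric.ball x r) :=
      (hG.cpt.isClosed.isOpen_compl.inter Metric.isOpen_ball).measure_pos _
        ⟨x, hxG, Metric.mem_ball_self hr⟩
    by_contra hne
    have hzero : volume (Gᶜ ∩ Metric.ball x r) = 0 := by
      refine measure_mono_null ?_ (ae_iff.1 hc)
      rintro z ⟨hz1, hz2⟩ hcon
      rw [Metric.mem_ball, dist_eq_norm] at hz2
      apply hne
      rw [ind_not hz1, op_orth_congr (hb z hz2)] at hcon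
      rw [ind_not hxG]
      exact hcon
    rw [hzero] at hpos
    exact lt_irrefl _ hpos

/-- Mixed difference. -/
lemma mixed_diff (c : V d →₀ ℝ) (v : V d) (ε : ℝ) (hε : 0 < ε)
    (h : ∀ y ∈ c.support, ∀ i, y i ≠ v i → ε < |y i - v i|) :
    ∑ τ ∈ Fintype.piFinset (fun _ : Fin d => ({1, -1} : Finset ℝ)),
      (∏ i, τ i) * op c (ind (Orth d)) (v + ε • τ) = c v := by
  classical
  have h1 : ∀ y ∈ c.support,
      ∑ τ ∈ Fintype.piFinset (fun _ : Fin d => ({1, -1} : Finset ℝ)),
        (∏ i, τ i) * ind (Orth d) (v + ε • τ - y) = if y = v then 1 else 0 := by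
    intro y hy
    have h2 : ∀ τ : V d, (∏ i, τ i) * ind (Orth d) (v + ε • τ - y)
        = ∏ i, (τ i * (if 0 ≤ v i + ε * τ i - y i then (1 : ℝ) else 0)) := by
      intro τ
      rw [ind_orth, ← Finset.prod_mul_distrib]
      simp
    simp only [h2]
    rw [← Finset.prod_univ_sum (fun _ : Fin d => ({1, -1} : Finset ℝ))
      (fun i t => t * (if 0 ≤ v i + ε * t - y i then (1 : ℝ) else 0))]
    have h3 : ∀ i, ∑ t ∈ ({1, -1} : Finset ℝ),
        t * (if 0 ≤ v i + ε * t - y i then (1 : ℝ) else 0) = if y i = v i then 1 else 0 := by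
      intro i
      rw [Finset.sum_pair (by norm_num)]
      by_cases hi : y i = v i
      · rw [if_pos hi, hi, if_pos (by linarith), if_neg (by linarith)]
        ring
      · rw [if_neg hi]
        have h4 := h y hy i hi
        rcases lt_or_gt_of_ne hi with hlt | hgt
        · rw [abs_of_neg (by linarith)] at h4
          rw [if_pos (by linarith), if_pos (by linarith)]
          ring
        · rw [abs_of_pos (by linarith)] at h4
          rw [if_neg (by linarith), if_neg (by linarith)]
          ring
    rw [Finset.prod_congr rfl fun i _ => h3 i]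
    by_cases hyv : y = v
    · subst hyv
      simp
    · rw [if_neg hyv]
      obtain ⟨i, hi⟩ : ∃ i, y i ≠ v i := by
        by_contra hcon
        push Not at hcon
        exact hyv (funext hcon)
      exact Finset.prod_eq_zero (Finset.mem_univ i) (by rw [if_neg hi])
  unfold op Finsupp.sum
  simp only [Finset.mul_sum]
  rw [Finset.sum_comm]
  have h2 : ∀ y ∈ c.support,
      ∑ τ ∈ Fintype.piFinset (fun _ : Fin d => ({1, -1} : Finset ℝ)),
        (∏ i, τ i) * (c y * ind (Orth d) (v + ε • τ - y)) = if y = v then c v else 0 := by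
    intro y hy
    have : ∑ τ ∈ Fintype.piFinset (fun _ : Fin d => ({1, -1} : Finset ℝ)),
        (∏ i, τ i) * (c y * ind (Orth d) (v + ε • τ - y)) = c y * (if y = v then 1 else 0) := by
      rw [← h1 y hy, Finset.mul_sum]
      refine Finset.sum_congr rfl fun τ _ => ?_
      ring
    rw [this]
    by_cases hyv : y = v
    · simp [hyv]
    · simp [hyv]
  rw [Finset.sum_congr rfl h2]
  rw [Finset.sum_ite_eq']
  by_cases hv : v ∈ c.support
  · rw [if_pos hv]
  · rw [if_neg hv, Finsupp.notMem_support_iff.1 hv]

/-- A small scale relative to the support. -/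
lemma small_scale (c : V d →₀ ℝ) (v : V d) (ρ : ℝ) (hρ : 0 < ρ) :
    ∃ ε : ℝ, 0 < ε ∧ ε < ρ ∧ ∀ y ∈ c.support, ∀ i, y i ≠ v i → ε < |y i - v i| := by
  classical
  have h : ∀ᶠ ε in 𝓝[>] (0 : ℝ), ∀ y ∈ c.support, ∀ i, y i ≠ v i → ε < |y i - v i| := by
    refine (Finset.eventually_all _).2 fun y _ => ?_
    refine eventually_all.2 fun i => ?_
    by_cases hi : y i = v i
    · exact Eventually.of_forall fun ε h => absurd hi h
    · have h1 : 0 < |y i - v i| := abs_pos.2 (sub_ne_zero.2 hi)
      filter_upwards [Ioo_mem_nhdsGT h1] with ε hε _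
      exact hε.2
  obtain ⟨ε, h1, h2⟩ := (h.and (Ioo_mem_nhdsGT hρ)).exists
  exact ⟨ε, h2.1, h2.2, h1⟩

lemma diag_pow_symm {L : V d ≃ₗ[ℝ] V d} {lam : Fin d → ℝ} (hlam : ∀ i, 0 < lam i)
    (hL : ∀ x i, L x i = lam i * x i) (k : ℕ) (x : V d) (i : Fin d) :
    (L ^ k).symm x i = (lam i ^ k)⁻¹ * x i := by
  have h1 : ∀ (k : ℕ) (x : V d), (L ^ k) x i = lam i ^ k * x i := by
    intro k
    induction k with
    | zero => intro x; simp
    | succ k ih =>
      intro x
      rw [pow_succ']
      show L ((L ^ k) x) i = _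
      rw [hL, ih]
      ring
  have h2 := h1 k ((L ^ k).symm x)
  rw [LinearEquiv.apply_symm_apply] at h2
  have h3 : lam i ^ k ≠ 0 := (pow_pos (hlam i) k).ne'
  rw [h2]
  field_simp

/-- The corner in direction `σ`. -/
lemma corner {G : Set (V d)} (hG : Reg G) {c : V d →₀ ℝ}
    (hc : ∀ᵐ x ∂(volume : Measure (V d)), ind G x = op c (ind (Orth d)) x)
    {L : V d ≃ₗ[ℝ] V d} {S : Finset (V d)} (hT : Tile G L S) (hcon : Contr L)
    {lam : Fin d → ℝ} (hlam : ∀ i, 0 < lam i) (hL : ∀ x i, L x i = lam i * x i)
    (σ : Fin d → ℝ) (hσ : ∀ i, σ i = 1 ∨ σ i = -1) :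
    ∃ v ∈ G, c v ≠ 0 ∧ ∀ x ∈ G, ∀ i, σ i * x i ≤ σ i * v i := by
  classical
  obtain ⟨η, v0, hη, hv0⟩ := exists_vtx hG.cpt hG.ne σ hσ
  obtain ⟨k, p, v, s, T, hp, hT', hs, hLv, hv⟩ := periodic hG.cpt hG.lc hT hv0
  set f : V d →ₗ[ℝ] ℝ := dotL η ∘ₗ ((L ^ k).symm : V d →ₗ[ℝ] V d) with hf
  have hfs : ∀ (i : Fin d) (t : ℝ), f (Pi.single i t) = η i * (lam i ^ k)⁻¹ * t := by
    intro i t
    rw [hf, LinearMap.comp_apply, dotL_apply]
    unfold dotProduct
    rw [Finset.sum_eq_single i]
    · show η i * (L ^ k).symm (Pi.single i t) i = _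
      rw [diag_pow_symm hlam hL]
      simp
      ring
    · intro j _ hj
      show η j * (L ^ k).symm (Pi.single i t) j = 0
      rw [diag_pow_symm hlam hL]
      simp [hj]
    · intro h
      exact absurd (Finset.mem_univ i) h
  have hG1 := hG.shift v
  obtain ⟨T1, hT1, hT10⟩ := hT'.shift hs hLv
  have hv1 := hv.shift
  obtain ⟨C, ρ, hρ, hC, hloc⟩ := cone_exists hG1 hv1
  obtain ⟨-, hsub⟩ := cone_inv hG1 hv1 hT1 hT10 (hcon.pow hp) hρ hC hloc
  -- local pattern
  obtain ⟨ε, hε, hερ, hεy⟩ := small_scale c v ρ hρ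
  have hpat : ∀ z z' : V d, (∀ i, z i ≠ 0) → ‖z‖ < ε → ‖z'‖ < ε → (∀ i, 0 < z i * z' i) →
      z ∈ C → z' ∈ C := by
    intro z z' hz0 hz hz' hzz hzC
    have hz'0 : ∀ i, z' i ≠ 0 := by
      intro i h
      have := hzz i
      rw [h, mul_zero] at this
      exact lt_irrefl _ this
    have hgen : ∀ w : V d, (∀ i, w i ≠ 0) → ‖w‖ < ε → Gen c (v + w) := by
      intro w hw0 hw y hy i hcon
      have hcon' : v i + w i = y i := hcon
      have h1 : y i ≠ v i := by
        intro h2
        apply hw0 i
        linarith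
      have h2 := hεy y hy i h1
      have h3 : |w i| ≤ ‖w‖ := norm_le_pi_norm w i
      have h4 : y i - v i = w i := by linarith
      rw [h4] at h2
      linarith
    have hpat' : op c (ind (Orth d)) (v + z') = op c (ind (Orth d)) (v + z) := by
      apply op_orth_congr
      intro y hy i
      have h3 : |z i| < ε := lt_of_le_of_lt (norm_le_pi_norm z i) hz
      have h3' : |z' i| < ε := lt_of_le_of_lt (norm_le_pi_norm z' i) hz'
      obtain ⟨a1, a2⟩ := abs_lt.1 h3
      obtain ⟨b1, b2⟩ := abs_lt.1 h3'
      simp only [Pi.add_apply]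
      by_cases hyv : y i = v i
      · rw [hyv]
        have hp := hzz i
        constructor
        · intro h
          by_contra h5
          push Not at h5
          nlinarith
        · intro h
          by_contra h5
          push Not at h5
          nlinarith
      · have h2 := hεy y hy i hyv
        rcases lt_or_gt_of_ne hyv with hlt | hgt
        · rw [abs_of_neg (by linarith)] at h2
          constructor
          · intro _; linarith
          · intro _; linarith
        · rw [abs_of_pos (by linarith)] at h2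
          constructor
          · intro _; linarith
          · intro _; linarith
    have e1 := gen_exact hG hc (hgen z hz0 hz)
    have e2 := gen_exact hG hc (hgen z' hz'0 hz')
    have hzG : v + z ∈ G := (hloc z (by linarith)).2 hzC
    rw [ind_mem hzG] at e1
    rw [hpat', ← e1] at e2
    have hz'G : v + z' ∈ G := by
      by_contra h
      rw [ind_not h] at e2
      exact zero_ne_one e2
    exact (hloc z' (by linarith)).1 hz'G
  -- sign patterns of cone points
  have hsign : ∀ x ∈ C, (∀ i, x i ≠ 0) → ∀ i, σ i * x i < 0 := by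
    intro x hx hx0 i
    obtain ⟨a, ha, -, hax⟩ := exists_scale x hε
    have hax0 : ∀ j, (a • x) j ≠ 0 := fun j => mul_ne_zero ha.ne' (hx0 j)
    -- the axis vector is a limit
    set sg : V d := fun j => if 0 < x j then 1 else -1 with hsg
    have hsgx : ∀ j, 0 < x j * sg j := by
      intro j
      rw [hsg]
      simp only
      split_ifs with h
      · simpa using h
      · have : x j < 0 := lt_of_le_of_ne (not_lt.1 h) (hx0 j)
        linarith
    have hmem : ∀ t : ℝ, 0 < t → t ≤ 1 →
        (fun j => if j = i then sg j else t * sg j : V d) ∈ C := by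
      intro t ht ht1
      set u : V d := (fun j => if j = i then sg j else t * sg j) with hu
      obtain ⟨b, hb, -, hbu⟩ := exists_scale u hε
      rw [← hC.smul_iff hb]
      refine hpat (a • x) (b • u) hax0 hax hbu ?_ ((hC.smul_iff ha x).2 hx)
      intro j
      have hj := hsgx j
      show 0 < (a * x j) * (b * u j)
      have : 0 < x j * u j := by
        rw [hu]
        simp only
        split_ifs
        · exact hj
        · have : x j * (t * sg j) = t * (x j * sg j) := by ring
          rw [this]
          positivity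
      have e : (a * x j) * (b * u j) = a * b * (x j * u j) := by ring
      rw [e]
      positivity
    have hlim : (Pi.single i (sg i) : V d) ∈ C := by
      have ht : Tendsto (fun t : ℝ => (fun j => if j = i then sg j else t * sg j : V d))
          (𝓝[>] 0) (𝓝 (Pi.single i (sg i))) := by
        rw [tendsto_pi_nhds]
        intro j
        by_cases hj : j = i
        · subst hj
          simp
        · simp only [hj, if_false, Pi.single_apply]
          have h1 : Tendsto (fun t : ℝ => t * sg j) (𝓝 0) (𝓝 (0 * sg j)) :=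
            (continuous_id.mul continuous_const).tendsto 0
          rw [zero_mul] at h1
          exact h1.mono_left nhdsWithin_le_nhds
      refine hC.closed.mem_of_tendsto ht ?_
      filter_upwards [Ioo_mem_nhdsGT (zero_lt_one : (0 : ℝ) < 1)] with t ht'
      exact hmem t ht'.1 ht'.2.le
    have hne : (Pi.single i (sg i) : V d) ≠ 0 := by
      intro h0
      have h1 := congrFun h0 i
      rw [Pi.single_eq_same, Pi.zero_apply] at h1
      have := hsgx i
      rw [h1, mul_zero] at this
      exact lt_irrefl _ this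
    have hneg := hC.neg _ hlim hne
    rw [hfs] at hneg
    have hpk : 0 < (lam i ^ k)⁻¹ := inv_pos.2 (pow_pos (hlam i) k)
    have h1 : η i * sg i < 0 := by
      by_contra hcon
      push Not at hcon
      have : 0 ≤ η i * (lam i ^ k)⁻¹ * sg i := by
        have e : η i * (lam i ^ k)⁻¹ * sg i = (lam i ^ k)⁻¹ * (η i * sg i) := by ring
        rw [e]
        positivity
      linarith
    have h2 := hη i
    have h3 := hsgx i
    rcases hσ i with h | h
    · rw [h] at h2 ⊢
      nlinarith
    · rw [h] at h2 ⊢
      nlinarith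
  have hint : ∀ x ∈ interior C, ∃ x' ∈ C, (∀ i, x' i ≠ 0) ∧ ‖x' - x‖ < ε := by
    intro x hx
    obtain ⟨r, hr, hb⟩ := Metric.isOpen_iff.1 isOpen_interior x hx
    have : ∀ i, ∃ t ∈ Set.Ioo (x i) (x i + min r ε), t ≠ 0 := by
      intro i
      obtain ⟨t, ht, ht'⟩ := (Set.Ioo_infinite (show x i < x i + min r ε from by
        have : 0 < min r ε := lt_min hr hε
        linarith)).exists_notMem_finset {0}
      exact ⟨t, ht, by simpa using ht'⟩
    choose t ht ht0 using this
    have hd : ∀ i, |t i - x i| < min r ε := by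
      intro i
      rw [abs_of_pos (by linarith [(ht i).1])]
      linarith [(ht i).2]
    refine ⟨t, interior_subset (hb ?_), ht0, ?_⟩
    · rw [Metric.mem_ball, dist_pi_lt_iff hr]
      intro i
      rw [Real.dist_eq]
      exact lt_of_lt_of_le (hd i) (min_le_left _ _)
    · rw [pi_norm_lt_iff hε]
      intro i
      exact lt_of_lt_of_le (hd i) (min_le_right _ _)
  have hsign' : ∀ x ∈ C, ∀ i, σ i * x i ≤ 0 := by
    intro x hx i
    by_contra hcon
    push Not at hcon
    have hxc : x ∈ closure (interior C) := by rw [hC.reg]; exact hx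
    obtain ⟨y, hy, hyd⟩ := Metric.mem_closure_iff.1 hxc (|x i| ) (by
      rw [gt_iff_lt, abs_pos]
      intro h0
      rw [h0, mul_zero] at hcon
      exact lt_irrefl _ hcon)
    -- perturb y
    obtain ⟨r, hr, hb⟩ := Metric.isOpen_iff.1 isOpen_interior y hy
    have hyi : |x i - y i| < |x i| := by
      rw [dist_eq_norm] at hyd
      exact lt_of_le_of_lt (norm_le_pi_norm (x - y) i) hyd
    have hyi0 : 0 < σ i * y i := by
      rcases hσ i with h | h
      · rw [h, one_mul] at hcon ⊢
        rw [abs_of_pos hcon] at hyi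
        linarith [(abs_lt.1 hyi).2]
      · rw [h] at hcon ⊢
        have : x i < 0 := by linarith
        rw [abs_of_neg this] at hyi
        linarith [(abs_lt.1 hyi).1]
    have : ∀ j, ∃ t ∈ Set.Ioo (y j) (y j + min r (|y i|)), t ≠ 0 := by
      intro j
      obtain ⟨t, ht, ht'⟩ := (Set.Ioo_infinite (show y j < y j + min r (|y i|) from by
        have : 0 < min r (|y i|) := lt_min hr (by
          rw [abs_pos]
          intro h0
          rw [h0, mul_zero] at hyi0
          exact lt_irrefl _ hyi0)
        linarith)).exists_notMem_finset {0}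
      exact ⟨t, ht, by simpa using ht'⟩
    choose t ht ht0 using this
    have hd : ∀ j, |t j - y j| < min r (|y i|) := by
      intro j
      rw [abs_of_pos (by linarith [(ht j).1])]
      linarith [(ht j).2]
    have htC : t ∈ C := by
      apply interior_subset
      apply hb
      rw [Metric.mem_ball, dist_pi_lt_iff hr]
      intro j
      rw [Real.dist_eq]
      exact lt_of_lt_of_le (hd j) (min_le_left _ _)
    have h1 := hsign t htC ht0 i
    have h2 : |t i - y i| < |y i| := lt_of_lt_of_le (hd i) (min_le_right _ _)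
    rcases hσ i with h | h
    · rw [h, one_mul] at h1 hyi0
      rw [abs_of_pos hyi0] at h2
      linarith [(abs_lt.1 h2).1]
    · rw [h] at h1 hyi0
      have : y i < 0 := by linarith
      rw [abs_of_neg this] at h2
      linarith [(abs_lt.1 h2).2]
  have hfinal : ∀ x ∈ G, ∀ i, σ i * x i ≤ σ i * v i := by
    intro x hx i
    have h1 : x - v ∈ shiftSet v G := by
      show v + (x - v) ∈ G
      simpa using hx
    have h2 := hsign' _ (hsub h1) i
    simp only [Pi.sub_apply] at h2
    linarith
  refine ⟨v, hv.mem, ?_, hfinal⟩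
  -- the coefficient is nonzero
  intro hcv
  have hmd := mixed_diff c v (ε / 2) (by linarith) (fun y hy i hi => by
    have := hεy y hy i hi
    linarith)
  rw [hcv] at hmd
  have hgen : ∀ τ : V d, (∀ i, τ i = 1 ∨ τ i = -1) → Gen c (v + (ε / 2) • τ) := by
    intro τ hτ y hy i hcon
    have hcon' : v i + (ε / 2) * τ i = y i := hcon
    have hτ1 : |τ i| = 1 := by
      rcases hτ i with h | h <;> rw [h] <;> simp
    have h1 : y i ≠ v i := by
      intro h2
      have : (ε / 2) * τ i = 0 := by linarith
      rcases mul_eq_zero.1 this with h3 | h3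
      · linarith
      · rw [h3] at hτ1
        simp at hτ1
    have h2 := hεy y hy i h1
    have h4 : y i - v i = (ε / 2) * τ i := by linarith
    rw [h4, abs_mul, hτ1, abs_of_pos (by linarith)] at h2
    linarith
  have hσC : (v + (ε / 2) • (-σ : V d)) ∈ G := by
    have h0 : (0 : V d) ∈ closure (interior C) := by rw [hC.reg]; exact hC.zero
    obtain ⟨y, hy, -⟩ := Metric.mem_closure_iff.1 h0 1 one_pos
    obtain ⟨x, hxC, hx0, -⟩ := hint y hy
    obtain ⟨a, ha, -, hax⟩ := exists_scale x hε
    have hn : ‖(ε / 2) • (-σ : V d)‖ < ε := by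
      rw [norm_smul, Real.norm_of_nonneg (by linarith), norm_neg]
      have : ‖(σ : V d)‖ ≤ 1 := by
        rw [pi_norm_le_iff_of_nonneg zero_le_one]
        intro i
        rcases hσ i with h | h <;> rw [h] <;> simp
      nlinarith
    have hm : (ε / 2) • (-σ : V d) ∈ C := by
      refine hpat (a • x) _ (fun j => mul_ne_zero ha.ne' (hx0 j)) hax hn ?_
        ((hC.smul_iff ha x).2 hxC)
      intro j
      have := hsign x hxC hx0 j
      show 0 < (a * x j) * ((ε / 2) * (-σ j))
      have e : (a * x j) * ((ε / 2) * (-σ j)) = a * (ε / 2) * (-(σ j * x j)) := by ring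
      rw [e]
      have : 0 < -(σ j * x j) := by linarith
      positivity
    exact (hloc _ (by linarith)).2 hm
  rw [Finset.sum_eq_single (-σ : V d)] at hmd
  · rw [← gen_exact hG hc (hgen _ (fun i => by
      rcases hσ i with h | h
      · right; simp [h]
      · left; simp [h])), ind_mem hσC, mul_one] at hmd
    rw [Finset.prod_eq_zero_iff] at hmd
    obtain ⟨i, -, hi⟩ := hmd
    rcases hσ i with h | h <;> simp [h] at hi
  · intro τ hτ hτσ
    rw [Fintype.mem_piFinset] at hτ
    have hτ' : ∀ i, τ i = 1 ∨ τ i = -1 := fun i => by simpa using hτ i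
    rw [← gen_exact hG hc (hgen τ hτ')]
    have : v + (ε / 2) • τ ∉ G := by
      intro hmem
      apply hτσ
      funext i
      have h1 := hfinal _ hmem i
      have h1' : σ i * (v i + (ε / 2) * τ i) ≤ σ i * v i := h1
      rcases hσ i with h | h
      · rcases hτ' i with h2 | h2
        · rw [h, h2] at h1'
          linarith
        · simp [h, h2]
      · rcases hτ' i with h2 | h2
        · simp [h, h2]
        · rw [h, h2] at h1'
          linarith
    rw [ind_not this, mul_zero]
  · intro hnot
    exfalso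
    apply hnot
    rw [Fintype.mem_piFinset]
    intro i
    rcases hσ i with h | h
    · simp [h]
    · simp [h]

end Pool.Agent.R896.PA
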