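import Pool.Agent.R896.PA.Box1

/-!
The functional equation and integrality of the diagonal entries.
-/

open MeasureTheory Filter Topology

namespace Pool.Agent.R896.PA

variable {d : ℕ}

lemma op_mapDomain (c : V d →₀ ℝ) (φ : V d → V d) (g : V d → ℝ) (x : V d) :
    op (c.mapDomain φ) g x = c.sum fun y a => a * g (x - φ y) := by
  unfold op
  rw [Finsupp.sum_mapDomain_index (by intros; simp) (by intros; ring)]

lemma op_finset_sum {ι : Type} (T : Finset ι) (c : ι → V d →₀ ℝ) (g : V d → ℝ) (x : V d) :
    op (∑ s ∈ T, c s) g x = ∑ s ∈ T, op (c s) g x := by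
  unfold op
  rw [← Finsupp.sum_finsetSum_index (by intros; simp) (by intros; ring)]

lemma tile_ind {G : Set (V d)} {L : V d ≃ₗ[ℝ] V d} {T : Finset (V d)} (hT : Tile G L T) :
    ∀ᵐ x ∂(volume : Measure (V d)), ind G (L.symm x) = ∑ s ∈ T, ind G (x - s) := by
  have hd : ∀ᵐ x ∂(volume : Measure (V d)), ∀ s ∈ T, ∀ t ∈ T, s ≠ t →
      ¬ (x - s ∈ G ∧ x - t ∈ G) := by
    refine (Finset.eventually_all _).2 ?_
    intro s hs
    refine (Finset.eventually_all _).2 ?_
    intro t ht
    by_cases hst : s = t
    · exact Filter.Eventually.of_forall fun x h => absurd hst h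
    · have := hT.disj s hs t ht hst
      rw [ae_iff]
      refine measure_mono_null ?_ this
      intro x hx
      simp only [Set.mem_ofPred_eq] at hx ⊢
      push Not at hx
      exact hx.2
  filter_upwards [hd] with x hx
  by_cases h1 : L.symm x ∈ G
  · obtain ⟨s, hs, hxs⟩ := (hT.union x).1 h1
    rw [ind_mem h1, Finset.sum_eq_single s, ind_mem hxs]
    · intro t ht hts
      exact ind_not fun h2 => hx s hs t ht (Ne.symm hts) ⟨hxs, h2⟩
    · intro h2
      exact absurd hs h2
  · rw [ind_not h1, Finset.sum_eq_zero]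
    intro s hs
    refine ind_not fun h2 => h1 ?_
    rw [hT.union]
    exact ⟨s, hs, h2⟩

lemma fe_finsupp {G : Set (V d)} {f : V d →ₗ[ℝ] ℝ} (hC : IsC (Orth d) f) {c : V d →₀ ℝ}
    (hc : ∀ᵐ x ∂(volume : Measure (V d)), ind G x = op c (ind (Orth d)) x)
    {L : V d ≃ₗ[ℝ] V d} {T : Finset (V d)} (hT : Tile G L T)
    {lam : Fin d → ℝ} (hlam : ∀ i, 0 < lam i) (hL : ∀ x i, L x i = lam i * x i) :
    c.mapDomain (fun y => L y) = ∑ s ∈ T, c.mapDomain (fun y => s + y) := by
  have hLO : ∀ x : V d, ind (Orth d) (L x) = ind (Orth d) x := by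
    intro x
    rw [ind_orth, ind_orth]
    refine Finset.prod_congr rfl fun i _ => ?_
    rw [hL]
    by_cases h : 0 ≤ x i
    · rw [if_pos h, if_pos (mul_nonneg (hlam i).le h)]
    · rw [if_neg h, if_neg]
      intro h2
      exact h (by
        by_contra h3
        push Not at h3
        nlinarith [hlam i])
  have hae1 : ∀ᵐ x ∂(volume : Measure (V d)),
      ind G (L.symm x) = op c (ind (Orth d)) (L.symm x) := by
    rw [ae_iff] at hc ⊢
    exact null_preimage L.symm hc
  have hae2 := tile_ind hT
  have hae3 : ∀ᵐ x ∂(volume : Measure (V d)), ∀ s ∈ T,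
      ind G (x - s) = op c (ind (Orth d)) (x - s) := by
    refine (Finset.eventually_all _).2 ?_
    intro s _
    exact ae_translate hc s
  obtain ⟨Z, hZ⟩ : ∃ Z : V d →₀ ℝ, Z = c.mapDomain (fun y => L y)
    - ∑ s ∈ T, c.mapDomain (fun y => s + y) := ⟨_, rfl⟩
  have hZ0 : Z = 0 := by
    ext y
    rw [Finsupp.coe_zero, Pi.zero_apply]
    refine loc hC Z y (near_of_ae (P := fun x => op Z (ind (Orth d)) x = 0) y isOpen_univ
      (Set.mem_univ y) ?_)
    filter_upwards [hae1, hae2, hae3] with x h1 h2 h3 _
    rw [hZ, op_sub, op_mapDomain, op_finset_sum]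
    have e1 : (c.sum fun y a => a * ind (Orth d) (x - L y))
        = op c (ind (Orth d)) (L.symm x) := by
      unfold op
      refine Finsupp.sum_congr fun y _ => ?_
      rw [← hLO (L.symm x - y), map_sub, LinearEquiv.apply_symm_apply]
    have e2 : ∑ s ∈ T, op (c.mapDomain (fun y => s + y)) (ind (Orth d)) x
        = ∑ s ∈ T, op c (ind (Orth d)) (x - s) := by
      refine Finset.sum_congr rfl fun s _ => ?_
      rw [op_mapDomain]
      unfold op
      refine Finsupp.sum_congr fun y _ => ?_
      rw [sub_sub]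
    rw [e1, e2, ← h1, h2, Finset.sum_congr rfl fun s hs => (h3 s hs), sub_self]
  rw [hZ, sub_eq_zero] at hZ0
  exact hZ0

lemma fe_char {c : V d →₀ ℝ} {L : V d ≃ₗ[ℝ] V d} {T : Finset (V d)}
    (h : c.mapDomain (fun y => L y) = ∑ s ∈ T, c.mapDomain (fun y => s + y))
    {K : Type} [CommRing K] [Algebra ℝ K] (χ : V d → K) (hχ : ∀ x y, χ (x + y) = χ x * χ y) :
    (c.sum fun y a => a • χ (L y)) = (∑ s ∈ T, χ s) * (c.sum fun y a => a • χ y) := by
  have h1 : (c.mapDomain (fun y => L y)).sum (fun y a => a • χ y)
      = c.sum fun y a => a • χ (L y) := by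
    rw [Finsupp.sum_mapDomain_index (by intros; simp) (by intros; rw [add_smul])]
  rw [← h1, h, ← Finsupp.sum_finsetSum_index (by intros; simp) (by intros; rw [add_smul]),
    Finset.sum_mul]
  refine Finset.sum_congr rfl fun s _ => ?_
  rw [Finsupp.sum_mapDomain_index (by intros; simp) (by intros; rw [add_smul])]
  unfold Finsupp.sum
  rw [Finset.mul_sum]
  refine Finset.sum_congr rfl fun y _ => ?_
  show c y • χ (s + y) = χ s * c y • χ y
  rw [hχ, mul_smul_comm]

lemma int_step {a T0 : ℝ} (h0 : 0 ≤ a) (h1 : a ≤ T0) :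
    ∫ t in Set.Ioc 0 T0, (if a ≤ t then (1 : ℝ) else 0) = T0 - a := by
  have e : (fun t : ℝ => if a ≤ t then (1 : ℝ) else 0) = (Set.Ici a).indicator (fun _ => 1) := by
    funext t
    by_cases h : a ≤ t
    · simp [h]
    · simp [h]
  rw [e, setIntegral_indicator measurableSet_Ici]
  simp only [integral_const, smul_eq_mul, mul_one]
  rw [measureReal_restrict_apply_univ]
  have h2 : volume (Set.Ioc 0 T0 ∩ Set.Ici a) = ENNReal.ofReal (T0 - a) := by
    apply le_antisymm
    · rw [← Real.volume_Icc]
      apply measure_mono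
      rintro t ⟨ht1, ht2⟩
      exact ⟨ht2, ht1.2⟩
    · rw [← Real.volume_Ioc]
      apply measure_mono
      rintro t ⟨ht1, ht2⟩
      exact ⟨⟨by linarith, ht2⟩, ht1.le⟩
  rw [Measure.real, h2, ENNReal.toReal_ofReal (by linarith)]

lemma axis_int {G : Set (V d)} (hG : Reg G) {f : V d →ₗ[ℝ] ℝ} (hC : IsC (Orth d) f)
    {ρ : ℝ} (hρ : 0 < ρ) (hloc : ∀ x : V d, ‖x‖ < ρ → (x ∈ G ↔ x ∈ Orth d))
    (hsub : G ⊆ Orth d) {c : V d →₀ ℝ} (hcG : ∀ y ∈ c.support, y ∈ G)
    (hc : ∀ᵐ x ∂(volume : Measure (V d)), ind G x = op c (ind (Orth d)) x)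
    {L : V d ≃ₗ[ℝ] V d} {T : Finset (V d)} (hT : Tile G L T) (hTO : ∀ s ∈ T, s ∈ Orth d)
    {lam : Fin d → ℝ} (hlam : ∀ i, 0 < lam i) (hL : ∀ x i, L x i = lam i * x i) (i : Fin d) :
    ∃ n : ℕ, lam i = n := by
  classical
  have hfe := fe_finsupp hC hc hT hlam hL
  have hpos : ∀ y ∈ c.support, ∀ j, 0 ≤ y j := fun y hy => hsub (hcG y hy)
  -- the transverse sum
  set r : V d → ℝ := fun x => ∑ j ∈ Finset.univ.erase i, x j with hr
  have hr0 : ∀ x ∈ Orth d, 0 ≤ r x := fun x hx => Finset.sum_nonneg fun j _ => hx j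
  have hradd : ∀ x y, r (x + y) = r x + r y := by
    intro x y
    rw [hr]
    simp [Finset.sum_add_distrib]
  have hrz : ∀ x ∈ Orth d, (r x = 0 ↔ ∀ j, j ≠ i → x j = 0) := by
    intro x hx
    rw [hr]
    simp only
    rw [Finset.sum_eq_zero_iff_of_nonneg (fun j _ => hx j)]
    simp
  set A : Finset (V d) := c.support.filter (fun y => r y = 0) with hA
  set B : Finset (V d) := T.filter (fun s => r s = 0) with hB
  have hexp : ∀ (x : V d), x ∈ Orth d → ∀ b : ℝ, Tendsto (fun t : ℝ =>
      b * Real.exp (-(t * r x))) atTop (𝓝 (if r x = 0 then b else 0)) := by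
    intro x hx b
    by_cases h : r x = 0
    · simp [h]
    · have h1 : 0 < r x := lt_of_le_of_ne (hr0 x hx) (Ne.symm h)
      rw [if_neg h]
      have h2 : Tendsto (fun t : ℝ => Real.exp (-(t * r x))) atTop (𝓝 0) := by
        have h3 : Tendsto (fun t : ℝ => t * r x) atTop atTop := tendsto_id.atTop_mul_const h1
        exact Real.tendsto_exp_neg_atTop_nhds_zero.comp h3
      have := h2.const_mul b
      simpa using this
  have hφ : ∀ ξ : ℝ, ∑ y ∈ A, c y * Real.exp (ξ * (lam i * y i))
      = (∑ s ∈ B, Real.exp (ξ * s i)) * ∑ y ∈ A, c y * Real.exp (ξ * y i) := by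
    intro ξ
    have hid : ∀ t : ℝ, (∑ y ∈ c.support, c y * Real.exp (ξ * (lam i * y i))
        * Real.exp (-(t * r (L y))))
        = (∑ s ∈ T, Real.exp (ξ * s i) * Real.exp (-(t * r s)))
          * (∑ y ∈ c.support, c y * Real.exp (ξ * y i) * Real.exp (-(t * r y))) := by
      intro t
      have := fe_char hfe (K := ℝ) (fun x => Real.exp (ξ * x i) * Real.exp (-(t * r x)))
        (by
          intro x y
          rw [hradd, Pi.add_apply, ← Real.exp_add, ← Real.exp_add, ← Real.exp_add,
            ← Real.exp_add]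
          congr 1
          ring)
      unfold Finsupp.sum at this
      simp only [smul_eq_mul] at this
      rw [Finset.sum_congr rfl (fun y _ => by rw [hL y i, ← mul_assoc])] at this
      rw [this]
      congr 1
      refine Finset.sum_congr rfl fun y _ => ?_
      ring
    have hLO : ∀ y ∈ c.support, L y ∈ Orth d := fun y hy j => by
      rw [hL]; exact mul_nonneg (hlam j).le (hpos y hy j)
    have hl1 : Tendsto (fun t : ℝ => ∑ y ∈ c.support, c y * Real.exp (ξ * (lam i * y i))
        * Real.exp (-(t * r (L y)))) atTop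
        (𝓝 (∑ y ∈ c.support, if r (L y) = 0 then c y * Real.exp (ξ * (lam i * y i)) else 0)) :=
      tendsto_finsetSum _ fun y hy => hexp (L y) (hLO y hy) _
    have hl2 : Tendsto (fun t : ℝ => ∑ s ∈ T, Real.exp (ξ * s i) * Real.exp (-(t * r s))) atTop
        (𝓝 (∑ s ∈ T, if r s = 0 then Real.exp (ξ * s i) else 0)) :=
      tendsto_finsetSum _ fun s hs => hexp s (hTO s hs) _
    have hl3 : Tendsto (fun t : ℝ => ∑ y ∈ c.support, c y * Real.exp (ξ * y i)
        * Real.exp (-(t * r y))) atTop
        (𝓝 (∑ y ∈ c.support, if r y = 0 then c y * Real.exp (ξ * y i) else 0)) :=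
      tendsto_finsetSum _ fun y hy => hexp y (fun j => hpos y hy j) _
    have hl4 := hl2.mul hl3
    simp only [← hid] at hl4
    have huniq := tendsto_nhds_unique hl1 hl4
    rw [hA, hB, Finset.sum_filter, Finset.sum_filter, Finset.sum_filter, ← huniq]
    refine Finset.sum_congr rfl fun y hy => ?_
    have hiff : r (L y) = 0 ↔ r y = 0 := by
      rw [hrz _ (hLO y hy), hrz _ (fun j => hpos y hy j)]
      constructor
      · intro h j hj
        have := h j hj
        rw [hL] at this
        exact (mul_eq_zero.1 this).resolve_left (hlam j).ne'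
      · intro h j hj
        rw [hL, h j hj, mul_zero]
    simp only [hiff]
  -- the step function along the axis
  obtain ⟨ε, hε, hερ, hεy⟩ := small_scale c 0 ρ hρ
  have hgval : ∀ t : ℝ, 0 < t → (∀ y ∈ c.support, t ≠ y i) →
      ind G (fun j => if j = i then t else ε) = ∑ y ∈ A, if y i ≤ t then c y else 0 := by
    intro t ht htg
    have hgen : Gen c (fun j => if j = i then t else ε) := by
      intro y hy j
      by_cases hj : j = i
      · subst hj
        simp only [if_true]
        exact htg y hy
      · simp only [if_neg hj]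
        intro h
        have h1 : y j ≠ (0 : V d) j := by
          rw [← h]
          simpa using hε.ne'
        have h2 := hεy y hy j h1
        rw [Pi.zero_apply, sub_zero, ← h, abs_of_pos hε] at h2
        exact lt_irrefl _ h2
    rw [gen_exact hG hc hgen]
    unfold op Finsupp.sum
    rw [hA, Finset.sum_filter]
    refine Finset.sum_congr rfl fun y hy => ?_
    show c y * ind (Orth d) _ = _
    have hiff : ((fun j => if j = i then t else ε : V d) - y) ∈ Orth d ↔ (r y = 0 ∧ y i ≤ t) := by
      rw [hrz y (fun j => hpos y hy j)]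
      constructor
      · intro h
        refine ⟨?_, ?_⟩
        · intro j hj
          have h1 := h j
          simp only [Pi.sub_apply, if_neg hj] at h1
          by_contra h2
          have h3 := hεy y hy j (by simpa using h2)
          rw [Pi.zero_apply, sub_zero, abs_of_nonneg (hpos y hy j)] at h3
          linarith
        · have h1 := h i
          simp only [Pi.sub_apply, if_true] at h1
          linarith
      · rintro ⟨h1, h2⟩ j
        by_cases hj : j = i
        · subst hj
          simp only [Pi.sub_apply, if_true]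
          linarith
        · simp only [Pi.sub_apply, if_neg hj, h1 j hj]
          linarith
    by_cases h1 : r y = 0
    · rw [if_pos h1]
      by_cases h2 : y i ≤ t
      · rw [if_pos h2, ind_mem (hiff.2 ⟨h1, h2⟩), mul_one]
      · rw [if_neg h2, ind_not (fun h => h2 (hiff.1 h).2), mul_zero]
    · rw [if_neg h1, ind_not (fun h => h1 (hiff.1 h).1), mul_zero]
  obtain ⟨R, hR⟩ : ∃ R : ℝ, ∀ x ∈ G, ‖x‖ ≤ R := hG.cpt.isBounded.exists_norm_le
  have hyR : ∀ y ∈ c.support, y i ≤ R := fun y hy =>
    (le_abs_self _).trans ((norm_le_pi_norm y i).trans (hR y (hcG y hy)))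
  have hR0 : 0 ≤ R := by
    obtain ⟨x, hx⟩ := hG.ne
    exact (norm_nonneg x).trans (hR x hx)
  have hsum0 : ∑ y ∈ A, c y = 0 := by
    have h1 := hgval (R + 1) (by linarith) (fun y hy => by linarith [hyR y hy] )
    have h2 : (fun j => if j = i then R + 1 else ε : V d) ∉ G := by
      intro h
      have h3 := (norm_le_pi_norm _ i).trans (hR _ h)
      simp only [if_true, Real.norm_eq_abs] at h3
      rw [abs_of_pos (by linarith)] at h3
      linarith
    rw [ind_not h2] at h1
    rw [h1]
    refine Finset.sum_congr rfl fun y hy => ?_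
    rw [if_pos]
    linarith [hyR y (Finset.mem_filter.1 hy).1]
  set D : ℝ := ∑ y ∈ A, c y * y i with hD
  have hDneg : D < 0 := by
    set T0 : ℝ := R + 1 with hT0
    have hint : ∫ t in Set.Ioc 0 T0, (∑ y ∈ A, if y i ≤ t then c y else 0)
        = ∑ y ∈ A, c y * (T0 - y i) := by
      have hI : ∀ y : V d, Integrable (fun t : ℝ => if y i ≤ t then c y else 0)
          (volume.restrict (Set.Ioc 0 T0)) := by
        intro y
        have e : (fun t : ℝ => if y i ≤ t then c y else 0)
            = (Set.Ici (y i)).indicator (fun _ => c y) := by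
          funext t
          by_cases h : y i ≤ t
          · simp [h]
          · simp [h]
        rw [e]
        exact (integrable_const (c y)).indicator measurableSet_Ici
      rw [integral_finsetSum _ fun y _ => hI y]
      refine Finset.sum_congr rfl fun y hy => ?_
      have hys := (Finset.mem_filter.1 hy).1
      have e : (fun t : ℝ => if y i ≤ t then c y else 0)
          = fun t => c y * (if y i ≤ t then (1 : ℝ) else 0) := by
        funext t
        by_cases h : y i ≤ t
        · simp [h]
        · simp [h]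
      rw [e, integral_const_mul, int_step (hpos y hys i) (by linarith [hyR y hys])]
    have hval : ∑ y ∈ A, c y * (T0 - y i) = -D := by
      have : ∀ y ∈ A, c y * (T0 - y i) = T0 * c y - c y * y i := fun y _ => by ring
      rw [Finset.sum_congr rfl this, Finset.sum_sub_distrib, ← Finset.mul_sum, hsum0, hD]
      ring
    have hgen_ae : ∀ᵐ t ∂(volume : Measure ℝ), ∀ y ∈ c.support, t ≠ y i := by
      refine (Finset.eventually_all _).2 fun y _ => ?_
      rw [ae_iff]
      simp
    have hlow : ∫ t in Set.Ioc 0 T0, (if t < min ρ T0 then (1 : ℝ) else 0)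
        ≤ ∫ t in Set.Ioc 0 T0, (∑ y ∈ A, if y i ≤ t then c y else 0) := by
      apply integral_mono_ae
      · have e : (fun t : ℝ => if t < min ρ T0 then (1 : ℝ) else 0)
            = (Set.Iio (min ρ T0)).indicator (fun _ => 1) := by
          funext t
          by_cases h : t < min ρ T0
          · simp only [if_pos h]; rw [Set.indicator_of_mem (show t ∈ Set.Iio (min ρ T0) from h)]
          · simp only [if_neg h]; rw [Set.indicator_of_notMem (show t ∉ Set.Iio (min ρ T0) from h)]
        rw [e]
        exact (integrable_const (1 : ℝ)).indicator measurableSet_Iio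
      · refine integrable_finsetSum _ fun y _ => ?_
        have e : (fun t : ℝ => if y i ≤ t then c y else 0)
            = (Set.Ici (y i)).indicator (fun _ => c y) := by
          funext t
          by_cases h : y i ≤ t
          · simp [h]
          · simp [h]
        rw [e]
        exact (integrable_const (c y)).indicator measurableSet_Ici
      · have := ae_restrict_of_ae (s := Set.Ioc 0 T0) hgen_ae
        filter_upwards [this, ae_restrict_mem measurableSet_Ioc] with t ht1 ht2
        rw [← hgval t ht2.1 ht1]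
        by_cases h : t < min ρ T0
        · rw [if_pos h]
          have : (fun j => if j = i then t else ε : V d) ∈ G := by
            rw [hloc]
            · intro j
              by_cases hj : j = i
              · simp only [hj, if_true]; exact ht2.1.le
              · simp only [if_neg hj]; exact hε.le
            · rw [pi_norm_lt_iff hρ]
              intro j
              by_cases hj : j = i
              · simp only [hj, if_true]
                rw [Real.norm_eq_abs, abs_of_pos ht2.1]
                exact lt_of_lt_of_le h (min_le_left _ _)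
              · simp only [if_neg hj]
                rw [Real.norm_eq_abs, abs_of_pos hε]
                exact hερ
          rw [ind_mem this]
        · rw [if_neg h]
          by_cases h2 : (fun j => if j = i then t else ε : V d) ∈ G
          · rw [ind_mem h2]; exact zero_le_one
          · rw [ind_not h2]
    have hpos' : 0 < ∫ t in Set.Ioc 0 T0, (if t < min ρ T0 then (1 : ℝ) else 0) := by
      have e : (fun t : ℝ => if t < min ρ T0 then (1 : ℝ) else 0)
          = (Set.Iio (min ρ T0)).indicator (fun _ => 1) := by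
        funext t
        by_cases h : t < min ρ T0
        · simp only [if_pos h]; rw [Set.indicator_of_mem (show t ∈ Set.Iio (min ρ T0) from h)]
        · simp only [if_neg h]; rw [Set.indicator_of_notMem (show t ∉ Set.Iio (min ρ T0) from h)]
      rw [e, setIntegral_indicator measurableSet_Iio]
      simp only [integral_const, smul_eq_mul, mul_one]
      rw [measureReal_restrict_apply_univ]
      have hm : 0 < min ρ T0 := lt_min hρ (by linarith)
      have h2 : 0 < volume (Set.Ioc 0 T0 ∩ Set.Iio (min ρ T0)) := by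
        have h3 : Set.Ioo 0 (min ρ T0) ⊆ Set.Ioc 0 T0 ∩ Set.Iio (min ρ T0) := by
          rintro t ⟨h4, h5⟩
          exact ⟨⟨h4, (lt_of_lt_of_le h5 (min_le_right _ _)).le⟩, h5⟩
        refine lt_of_lt_of_le ?_ (measure_mono h3)
        rw [Real.volume_Ioo]
        simpa using hm
      refine ENNReal.toReal_pos h2.ne' ?_
      refine ne_top_of_le_ne_top ?_ (measure_mono Set.inter_subset_left)
      rw [Real.volume_Ioc]
      exact ENNReal.ofReal_ne_top
    linarith
  -- differentiate at zero
  have hd1 : HasDerivAt (fun ξ : ℝ => ∑ y ∈ A, c y * Real.exp (ξ * (lam i * y i)))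
      (lam i * D) 0 := by
    have : HasDerivAt (fun ξ : ℝ => ∑ y ∈ A, c y * Real.exp (ξ * (lam i * y i)))
        (∑ y ∈ A, c y * (Real.exp (0 * (lam i * y i)) * (1 * (lam i * y i)))) 0 := by
      refine HasDerivAt.fun_sum fun y _ => ?_
      exact (((hasDerivAt_id (0 : ℝ)).mul_const (lam i * y i)).exp).const_mul (c y)
    convert this using 1
    rw [hD, Finset.mul_sum]
    refine Finset.sum_congr rfl fun y _ => ?_
    simp
    ring
  have hd2 : HasDerivAt (fun ξ : ℝ => ∑ y ∈ A, c y * Real.exp (ξ * y i)) D 0 := by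
    have : HasDerivAt (fun ξ : ℝ => ∑ y ∈ A, c y * Real.exp (ξ * y i))
        (∑ y ∈ A, c y * (Real.exp (0 * y i) * (1 * y i))) 0 := by
      refine HasDerivAt.fun_sum fun y _ => ?_
      exact (((hasDerivAt_id (0 : ℝ)).mul_const (y i)).exp).const_mul (c y)
    convert this using 1
    rw [hD]
    refine Finset.sum_congr rfl fun y _ => ?_
    simp
  have hd3 : HasDerivAt (fun ξ : ℝ => ∑ s ∈ B, Real.exp (ξ * s i)) (∑ s ∈ B, s i) 0 := by
    have : HasDerivAt (fun ξ : ℝ => ∑ s ∈ B, Real.exp (ξ * s i))
        (∑ s ∈ B, (Real.exp (0 * s i) * (1 * s i))) 0 := by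
      refine HasDerivAt.fun_sum fun s _ => ?_
      exact (((hasDerivAt_id (0 : ℝ)).mul_const (s i)).exp)
    convert this using 1
    refine Finset.sum_congr rfl fun y _ => ?_
    simp
  have hd4 := hd3.mul hd2
  have hfun : (fun ξ : ℝ => ∑ y ∈ A, c y * Real.exp (ξ * (lam i * y i)))
      = (fun ξ : ℝ => ∑ s ∈ B, Real.exp (ξ * s i)) * fun ξ : ℝ => ∑ y ∈ A, c y * Real.exp (ξ * y i) :=
    funext fun ξ => hφ ξ
  rw [hfun] at hd1
  have huniq := hd1.unique hd4
  simp only [zero_mul, Real.exp_zero, mul_one, Finset.sum_const, nsmul_eq_mul] at huniq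
  rw [hsum0, mul_zero, zero_add] at huniq
  refine ⟨B.card, ?_⟩
  exact mul_right_cancel₀ hDneg.ne huniq

end Pool.Agent.R896.PA
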