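import Pool.Agent.R896.PA.Box2

/-!
The product formula for the coefficients and the final box.
-/

open MeasureTheory Filter Topology

namespace Pool.Agent.R896.PA

variable {d : ℕ}

lemma product_formula (hPhi : StmtPHI) (hProd : StmtPROD) {c : V d →₀ ℝ}
    {L : V d ≃ₗ[ℝ] V d} {T : Finset (V d)}
    (hfe : c.mapDomain (fun y => L y) = ∑ s ∈ T, c.mapDomain (fun y => s + y))
    {lam : Fin d → ℕ} (hlam : ∀ i, 2 ≤ lam i) (hL : ∀ x i, L x i = (lam i : ℝ) * x i)
    (hpos : ∀ y ∈ c.support, ∀ i, 0 ≤ y i) (hTpos : ∀ s ∈ T, ∀ i, 0 ≤ s i)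
    {a : V d} (ha : ∀ y ∈ c.support, ∀ i, y i ≤ a i)
    (hcor : ∀ w : V d, (∀ i, w i = 0 ∨ w i = a i) → c w ≠ 0) (hc0 : c 0 = 1) :
    ∀ x : V d, c x = ∏ i, c (Pi.single i (x i)) := by
  classical
  have haS : a ∈ c.support := Finsupp.mem_support_iff.2 (hcor a fun i => Or.inr rfl)
  set F : Finset ℝ := {0} ∪ (c.support.biUnion fun y => Finset.univ.image fun i => y i)
    ∪ (T.biUnion fun y => Finset.univ.image fun i => y i)
    ∪ (c.support.biUnion fun y => Finset.univ.image fun i => (lam i : ℝ) * y i) with hF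
  have hF0 : (0 : ℝ) ∈ F := by simp [hF]
  have hFc : ∀ y ∈ c.support, ∀ i, y i ∈ F := by
    intro y hy i
    simp only [hF, Finset.mem_union]
    left; left; right
    exact Finset.mem_biUnion.2 ⟨y, hy, Finset.mem_image_of_mem _ (Finset.mem_univ i)⟩
  have hFT : ∀ y ∈ T, ∀ i, y i ∈ F := by
    intro y hy i
    simp only [hF, Finset.mem_union]
    left; right
    exact Finset.mem_biUnion.2 ⟨y, hy, Finset.mem_image_of_mem _ (Finset.mem_univ i)⟩
  have hFL : ∀ y ∈ c.support, ∀ i, (lam i : ℝ) * y i ∈ F := by
    intro y hy i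
    simp only [hF, Finset.mem_union]
    right
    exact Finset.mem_biUnion.2 ⟨y, hy,
      Finset.mem_image_of_mem (fun i => (lam i : ℝ) * y i) (Finset.mem_univ i)⟩
  have hFpos : ∀ t ∈ F, 0 ≤ t := by
    intro t ht
    simp only [hF, Finset.mem_union, Finset.mem_singleton, Finset.mem_biUnion,
      Finset.mem_image, Finset.mem_univ, true_and] at ht
    rcases ht with ((rfl | ⟨y, hy, i, rfl⟩) | ⟨y, hy, i, rfl⟩) | ⟨y, hy, i, rfl⟩
    · exact le_refl _
    · exact hpos y hy i
    · exact hTpos y hy i
    · exact mul_nonneg (Nat.cast_nonneg _) (hpos y hy i)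
  obtain ⟨φ, hφ1, hφ2⟩ := hPhi F
  set n : ℝ → ℕ := fun t => (φ t).num.toNat with hn
  have hnφ : ∀ t ∈ F, ((n t : ℕ) : ℚ) = φ t := by
    intro t ht
    obtain ⟨m, hm⟩ := hφ1 t ht
    have h0 : 0 ≤ φ t := by
      rcases eq_or_lt_of_le (hFpos t ht) with h | h
      · rw [← h, map_zero]
      · have := hφ2 0 hF0 t ht h
        rw [map_zero] at this
        exact this.le
    have hm0 : 0 ≤ m := by
      rw [hm] at h0
      exact_mod_cast h0
    show (((φ t).num.toNat : ℕ) : ℚ) = φ t
    rw [hm]
    have h1 : ((m : ℚ)).num = m := Rat.num_intCast m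
    rw [h1]
    have h2 : ((m.toNat : ℤ)) = m := Int.toNat_of_nonneg hm0
    exact_mod_cast h2
  have hn0 : n 0 = 0 := by
    show (φ 0).num.toNat = 0
    rw [map_zero]
    rfl
  have hnlt : ∀ s ∈ F, ∀ t ∈ F, s < t → n s < n t := by
    intro s hs t ht hst
    have := hφ2 s hs t ht hst
    rw [← hnφ s hs, ← hnφ t ht] at this
    exact_mod_cast this
  have hninj : ∀ s ∈ F, ∀ t ∈ F, n s = n t → s = t := by
    intro s hs t ht hst
    rcases lt_trichotomy s t with h | h | h
    · exact absurd hst (hnlt s hs t ht h).ne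
    · exact h
    · exact absurd hst (hnlt t ht s hs h).ne'
  have hnle : ∀ s ∈ F, ∀ t ∈ F, s ≤ t → n s ≤ n t := by
    intro s hs t ht hst
    rcases eq_or_lt_of_le hst with h | h
    · rw [h]
    · exact (hnlt s hs t ht h).le
  set ν : V d → (Fin d → ℕ) := fun y i => n (y i) with hν
  set c' : (Fin d → ℕ) →₀ ℂ :=
    (c.mapRange (fun r : ℝ => (r : ℂ)) Complex.ofReal_zero).mapDomain ν with hc'
  have hsum : ∀ (h : (Fin d → ℕ) → ℂ), (c'.sum fun w b => b * h w)
      = ∑ y ∈ c.support, (c y : ℂ) * h (ν y) := by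
    intro h
    rw [hc', Finsupp.sum_mapDomain_index (by intros; simp) (by intros; ring),
      Finsupp.sum_mapRange_index (by intros; simp)]
    rfl
  have hval : ∀ x : V d, (∀ i, x i ∈ F) → c' (ν x) = (c x : ℂ) := by
    intro x hx
    have h1 := hsum (fun w => if w = ν x then 1 else 0)
    have h2 : (c'.sum fun w b => b * (if w = ν x then (1 : ℂ) else 0)) = c' (ν x) := by
      unfold Finsupp.sum
      simp only [mul_ite, mul_one, mul_zero]
      rw [Finset.sum_ite_eq']
      by_cases h : ν x ∈ c'.support
      · rw [if_pos h]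
      · rw [if_neg h, Finsupp.notMem_support_iff.1 h]
    rw [h2] at h1
    rw [h1]
    have h3 : ∀ y ∈ c.support, (c y : ℂ) * (if ν y = ν x then (1 : ℂ) else 0)
        = if y = x then (c x : ℂ) else 0 := by
      intro y hy
      by_cases hyx : y = x
      · subst hyx
        simp
      · rw [if_neg hyx, if_neg, mul_zero]
        intro hcon
        apply hyx
        funext i
        exact hninj _ (hFc y hy i) _ (hx i) (congrFun hcon i)
    rw [Finset.sum_congr rfl h3, Finset.sum_ite_eq']
    by_cases h : x ∈ c.support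
    · rw [if_pos h]
    · rw [if_neg h, Finsupp.notMem_support_iff.1 h]
      simp
  have hsupp : ∀ w ∈ c'.support, ∃ y ∈ c.support, w = ν y := by
    intro w hw
    have h1 := Finsupp.mapDomain_support hw
    obtain ⟨y, hy, rfl⟩ := Finset.mem_image.1 h1
    refine ⟨y, ?_, rfl⟩
    rw [Finsupp.mem_support_iff] at hy ⊢
    intro h
    apply hy
    rw [Finsupp.mapRange_apply, h]
    simp
  have heval : ∀ z : Fin d → ℂ, evalQ c' z = ∑ y ∈ c.support, (c y : ℂ) * ∏ i, z i ^ n (y i) := by
    intro z
    unfold evalQ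
    exact hsum (fun w => ∏ i, z i ^ w i)
  set P : (Fin d → ℂ) → ℂ := fun z => ∑ s ∈ T, ∏ i, z i ^ n (s i) with hP
  have hFE0 : ∀ z : Fin d → ℂ, (∀ i, z i ≠ 0) →
      evalQ c' (fun i => z i ^ lam i) = P z * evalQ c' z := by
    intro z hz
    set χ : V d → ℂ := fun x => Complex.exp (∑ i, Complex.log (z i) * ((φ (x i) : ℚ) : ℂ)) with hχ
    have hχadd : ∀ x y, χ (x + y) = χ x * χ y := by
      intro x y
      simp only [hχ]
      rw [← Complex.exp_add, ← Finset.sum_add_distrib]
      congr 1
      refine Finset.sum_congr rfl fun i _ => ?_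
      rw [Pi.add_apply, map_add]
      push_cast
      ring
    have hχF : ∀ x : V d, (∀ i, x i ∈ F) → χ x = ∏ i, z i ^ n (x i) := by
      intro x hx
      simp only [hχ]
      rw [Complex.exp_sum]
      refine Finset.prod_congr rfl fun i _ => ?_
      rw [← hnφ _ (hx i)]
      have : Complex.log (z i) * (((n (x i) : ℕ) : ℚ) : ℂ) = (n (x i) : ℕ) * Complex.log (z i) := by
        push_cast
        ring
      rw [this, Complex.exp_nat_mul, Complex.exp_log (hz i)]
    have h := fe_char hfe (K := ℂ) χ hχadd
    have hLF : ∀ y ∈ c.support, ∀ i, L y i ∈ F := by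
      intro y hy i
      rw [hL]
      exact hFL y hy i
    have hnL : ∀ y ∈ c.support, ∀ i, n (L y i) = lam i * n (y i) := by
      intro y hy i
      have h1 := hnφ _ (hLF y hy i)
      have h2 : φ (L y i) = lam i * φ (y i) := by
        rw [hL]
        have : ((lam i : ℝ) * y i) = (lam i : ℚ) • y i := by
          rw [Rat.smul_def]
          push_cast
          rfl
        rw [this, map_smul, smul_eq_mul]
      rw [h2, ← hnφ _ (hFc y hy i)] at h1
      exact_mod_cast h1
    have e1 : (c.sum fun y a => a • χ (L y)) = evalQ c' (fun i => z i ^ lam i) := by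
      rw [heval]
      unfold Finsupp.sum
      refine Finset.sum_congr rfl fun y hy => ?_
      show c y • χ (L y) = _
      rw [Complex.real_smul, hχF _ (hLF y hy)]
      congr 1
      refine Finset.prod_congr rfl fun i _ => ?_
      rw [hnL y hy, pow_mul]
    have e2 : (c.sum fun y a => a • χ y) = evalQ c' z := by
      rw [heval]
      unfold Finsupp.sum
      refine Finset.sum_congr rfl fun y hy => ?_
      show c y • χ y = _
      rw [Complex.real_smul, hχF _ (hFc y hy)]
    have e3 : ∑ s ∈ T, χ s = P z := by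
      rw [hP]
      exact Finset.sum_congr rfl fun s hs => hχF s (hFT s hs)
    rw [e1, e2, e3] at h
    exact h
  have hFE : ∀ z : Fin d → ℂ, evalQ c' (fun i => z i ^ lam i) = P z * evalQ c' z := by
    have hdense : Dense (Set.pi Set.univ (fun _ : Fin d => ({0}ᶜ : Set ℂ))) :=
      dense_pi Set.univ (fun i _ => dense_compl_singleton (0 : ℂ))
    have hce : Continuous (fun z : Fin d → ℂ => evalQ c' z) := by
      have : (fun z : Fin d → ℂ => evalQ c' z)
          = fun z => ∑ y ∈ c.support, (c y : ℂ) * ∏ i, z i ^ n (y i) := funext heval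
      rw [this]
      fun_prop
    have hcl : Continuous (fun z : Fin d → ℂ => evalQ c' (fun i => z i ^ lam i)) := by
      refine hce.comp ?_
      fun_prop
    have hcP : Continuous P := by
      rw [hP]
      fun_prop
    have := Continuous.ext_on hdense hcl (hcP.mul hce) (by
      intro z hz
      exact hFE0 z fun i => hz i (Set.mem_univ i))
    intro z
    exact congrFun this z
  have haF : ∀ i, a i ∈ F := hFc a haS
  have hprod := hProd d c' (fun i => n (a i)) lam P hlam
    (by
      intro w hw i
      obtain ⟨y, hy, rfl⟩ := hsupp w hw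
      exact hnle _ (hFc y hy i) _ (haF i) (ha y hy i))
    (by
      intro w hw
      set x : V d := fun i => if w i = 0 then 0 else a i with hx
      have hxF : ∀ i, x i ∈ F := by
        intro i
        rw [hx]
        simp only
        split_ifs
        · exact hF0
        · exact haF i
      have hνx : ν x = w := by
        funext i
        show n (x i) = w i
        rw [hx]
        simp only
        split_ifs with h
        · rw [hn0, h]
        · rcases hw i with h1 | h1
          · exact absurd h1 h
          · exact h1.symm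
      rw [← hνx, hval x hxF]
      have : c x ≠ 0 := hcor x fun i => by
        rw [hx]
        simp only
        split_ifs
        · left; rfl
        · right; rfl
      exact_mod_cast this)
    hFE
    (by
      have h1 : ν 0 = 0 := by
        funext i
        exact hn0
      rw [← h1, hval 0 (fun i => hF0), hc0]
      simp)
  intro x
  by_cases hx : ∀ i, x i ∈ F
  · have h1 := hprod (ν x)
    rw [hval x hx] at h1
    have h2 : ∀ i, c' (Pi.single i (ν x i)) = (c (Pi.single i (x i)) : ℂ) := by
      intro i
      have h3 : (Pi.single i (ν x i) : Fin d → ℕ) = ν (Pi.single i (x i)) := by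
        funext j
        show _ = n ((Pi.single i (x i) : V d) j)
        by_cases hj : j = i
        · subst hj
          simp [hν]
        · simp [hj, hn0]
      rw [h3]
      apply hval
      intro j
      by_cases hj : j = i
      · subst hj
        simpa using hx j
      · simpa [hj] using hF0
    rw [Finset.prod_congr rfl fun i _ => h2 i] at h1
    exact_mod_cast h1
  · push Not at hx
    obtain ⟨i, hi⟩ := hx
    have h1 : c x = 0 := by
      by_contra h
      exact hi (hFc x (Finsupp.mem_support_iff.2 h) i)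
    have h2 : c (Pi.single i (x i)) = 0 := by
      by_contra h
      have := hFc _ (Finsupp.mem_support_iff.2 h) i
      rw [Pi.single_eq_same] at this
      exact hi this
    rw [h1]
    exact (Finset.prod_eq_zero (Finset.mem_univ i) h2).symm

lemma box_final {G : Set (V d)} (hG : Reg G) (hconn : IsPreconnected (interior G))
    {ρ : ℝ} (hρ : 0 < ρ) (hloc : ∀ x : V d, ‖x‖ < ρ → (x ∈ G ↔ x ∈ Orth d))
    (hsub : G ⊆ Orth d) {c : V d →₀ ℝ}
    (hc : ∀ᵐ x ∂(volume : Measure (V d)), ind G x = op c (ind (Orth d)) x)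
    {a : V d} (haG : a ∈ G) (ha : ∀ x ∈ G, ∀ i, x i ≤ a i)
    (hprod : ∀ x : V d, c x = ∏ i, c (Pi.single i (x i))) :
    (∀ i, 0 < a i) ∧ ∀ x, x ∈ G ↔ ∀ i, 0 ≤ x i ∧ x i ≤ a i := by
  classical
  have ha0 : ∀ i, 0 < a i := by
    intro i
    have h1 : (fun _ => ρ / 2 : V d) ∈ G := by
      rw [hloc]
      · intro j
        show 0 ≤ ρ / 2
        linarith
      · rw [pi_norm_lt_iff hρ]
        intro j
        rw [Real.norm_eq_abs, abs_of_pos (by linarith)]
        linarith
    have := ha _ h1 i
    linarith
  have h0G : (0 : V d) ∈ G := by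
    rw [hloc 0 (by simpa using hρ)]
    intro j
    exact le_refl _
  set F : Finset ℝ := c.support.biUnion fun y => Finset.univ.image fun i => y i with hF
  have hFc : ∀ y ∈ c.support, ∀ i, y i ∈ F := by
    intro y hy i
    exact Finset.mem_biUnion.2 ⟨y, hy, Finset.mem_image_of_mem _ (Finset.mem_univ i)⟩
  set g : Fin d → ℝ → ℝ := fun i t => ∑ u ∈ F, if u ≤ t then c (Pi.single i u) else 0 with hg
  have hgen : ∀ x : V d, (∀ i, x i ∉ F) → ind G x = ∏ i, g i (x i) := by
    intro x hx
    have hx' : Gen c x := by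
      intro y hy i h
      apply hx i
      rw [h]
      exact hFc y hy i
    rw [gen_exact hG hc hx']
    rw [hg]
    rw [Finset.prod_univ_sum]
    unfold op Finsupp.sum
    have hss : c.support ⊆ Fintype.piFinset (fun _ : Fin d => F) := by
      intro y hy
      rw [Fintype.mem_piFinset]
      exact fun i => hFc y hy i
    have hterm : ∀ y : V d, c y * ind (Orth d) (x - y)
        = ∏ i, (if y i ≤ x i then c (Pi.single i (y i)) else 0) := by
      intro y
      rw [hprod y, ind_orth, ← Finset.prod_mul_distrib]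
      refine Finset.prod_congr rfl fun i _ => ?_
      by_cases h : y i ≤ x i
      · rw [if_pos h, if_pos (by simpa using h), mul_one]
      · rw [if_neg h, if_neg (by simpa using h), mul_zero]
    rw [Finset.sum_congr rfl fun y _ => (hterm y)]
    refine Finset.sum_subset hss ?_
    intro y _ hy
    rw [← hterm y, Finsupp.notMem_support_iff.1 hy, zero_mul]
  -- the factors do not vanish inside
  have hgne : ∀ i t, 0 < t → t < a i → t ∉ F → g i t ≠ 0 := by
    intro i t ht0 hta htF hgt
    have hev : ∀ᶠ t' in 𝓝 t, g i t' = 0 ∧ t' ∉ F := by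
      have h1 : ∀ᶠ t' in 𝓝 t, ∀ u ∈ F, (u ≤ t' ↔ u ≤ t) ∧ t' ≠ u := by
        refine (Finset.eventually_all _).2 fun u hu => ?_
        have hne : t ≠ u := fun h => htF (h ▸ hu)
        rcases lt_or_gt_of_ne hne with h | h
        · filter_upwards [gt_mem_nhds h] with t' ht'
          have ht'' : t' < u := ht'
          refine ⟨⟨fun h2 => by linarith, fun h2 => by linarith⟩, ht''.ne⟩
        · filter_upwards [lt_mem_nhds h] with t' ht'
          have ht'' : u < t' := ht'
          refine ⟨⟨fun _ => h.le, fun _ => ht''.le⟩, ht''.ne'⟩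
      filter_upwards [h1] with t' ht'
      refine ⟨?_, fun hmem => (ht' t' hmem).2 rfl⟩
      rw [← hgt]
      show (∑ u ∈ F, if u ≤ t' then c (Pi.single i u) else 0)
        = ∑ u ∈ F, if u ≤ t then c (Pi.single i u) else 0
      refine Finset.sum_congr rfl fun u hu => ?_
      have h2 := (ht' u hu).1
      by_cases h3 : u ≤ t
      · rw [if_pos h3, if_pos (h2.2 h3)]
      · rw [if_neg h3, if_neg (fun h4 => h3 (h2.1 h4))]
    obtain ⟨δ, hδ, hb⟩ := Metric.eventually_nhds_iff.1 hev
    have hmiss : ∀ x ∈ interior G, x i ≠ t := by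
      intro x hx hxt
      obtain ⟨r, hr, hbr⟩ := Metric.isOpen_iff.1 isOpen_interior x hx
      have : ∀ j, ∃ s ∈ Set.Ioo (x j) (x j + min r δ), s ∉ F := by
        intro j
        obtain ⟨s, hs, hs'⟩ := (Set.Ioo_infinite (show x j < x j + min r δ from by
          have : 0 < min r δ := lt_min hr hδ
          linarith)).exists_notMem_finset F
        exact ⟨s, hs, hs'⟩
      choose s hs hsF using this
      have hd : ∀ j, |s j - x j| < min r δ := by
        intro j
        rw [abs_of_pos (by linarith [(hs j).1])]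
        linarith [(hs j).2]
      have hsG : s ∈ G := by
        apply interior_subset
        apply hbr
        rw [Metric.mem_ball, dist_pi_lt_iff hr]
        intro j
        rw [Real.dist_eq]
        exact lt_of_lt_of_le (hd j) (min_le_left _ _)
      have h1 := hgen s hsF
      rw [ind_mem hsG] at h1
      have h2 : g i (s i) = 0 := by
        refine (hb (y := s i) ?_).1
        rw [Real.dist_eq, ← hxt]
        exact lt_of_lt_of_le (hd i) (min_le_right _ _)
      rw [Finset.prod_eq_zero (Finset.mem_univ i) h2] at h1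
      exact one_ne_zero h1
    have ho1 : IsOpen {x : V d | x i < t} := isOpen_lt (continuous_apply i) continuous_const
    have ho2 : IsOpen {x : V d | t < x i} := isOpen_lt continuous_const (continuous_apply i)
    have hcl : ∀ x ∈ G, ∀ U : Set (V d), IsOpen U → x ∈ U → (interior G ∩ U).Nonempty := by
      intro x hx U hU hxU
      have h1 : x ∈ closure (interior G) := by rw [hG.reg]; exact hx
      rw [mem_closure_iff] at h1
      obtain ⟨y, hy1, hy2⟩ := h1 U hU hxU
      exact ⟨y, hy2, hy1⟩
    obtain ⟨x, hx1, hx2, hx3⟩ := hconn _ _ ho1 ho2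
      (by
        intro x hx
        rcases lt_or_gt_of_ne (hmiss x hx) with h | h
        · exact Or.inl h
        · exact Or.inr h)
      (hcl 0 h0G _ ho1 ht0) (hcl a haG _ ho2 hta)
    have h2 : x i < t := hx2
    have h3 : t < x i := hx3
    linarith
  refine ⟨ha0, fun x => ⟨fun hx i => ⟨hsub hx i, ha x hx i⟩, fun hx => ?_⟩⟩
  have hcl : x ∈ closure G := by
    rw [Metric.mem_closure_iff]
    intro ε hε
    have : ∀ j, ∃ s ∈ Set.Ioo (max 0 (x j - ε)) (min (a j) (x j + ε)), s ∉ F := by
      intro j
      obtain ⟨h1, h2⟩ := hx j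
      have h3 := ha0 j
      obtain ⟨s, hs, hs'⟩ := (Set.Ioo_infinite (show max 0 (x j - ε) < min (a j) (x j + ε) from by
        rw [max_lt_iff, lt_min_iff, lt_min_iff]
        refine ⟨⟨h3, by linarith⟩, ⟨by linarith, by linarith⟩⟩)).exists_notMem_finset F
      exact ⟨s, hs, hs'⟩
    choose s hs hsF using this
    refine ⟨s, ?_, ?_⟩
    · by_contra hsG
      have h1 := hgen s hsF
      rw [ind_not hsG] at h1
      have h2 := Finset.prod_eq_zero_iff.1 h1.symm
      obtain ⟨i, -, hi⟩ := h2
      refine hgne i (s i) ?_ ?_ (hsF i) hi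
      · exact lt_of_le_of_lt (le_max_left _ _) (hs i).1
      · exact lt_of_lt_of_le (hs i).2 (min_le_left _ _)
    · rw [dist_comm, dist_pi_lt_iff hε]
      intro j
      rw [Real.dist_eq, abs_lt]
      obtain ⟨h1, h2⟩ := hs j
      have h3 := lt_of_le_of_lt (le_max_right _ _) h1
      have h4 := lt_of_lt_of_le h2 (min_le_right _ _)
      constructor <;> linarith
  rwa [hG.cpt.isClosed.closure_eq] at hcl

end Pool.Agent.R896.PA
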