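import Pool.Agent.R896.PA.Defs

open MeasureTheory Filter Topology

namespace Pool.Agent.R896.PA

theorem stmtDIAG : StmtDIAG := by
  classical
  intro d L hL
  have hL' : ∀ x : V d, (∀ i, 0 ≤ x i) → ∀ i, 0 ≤ L.symm x i := by
    intro x hx
    have := hL (L.symm x)
    rw [LinearEquiv.apply_symm_apply] at this
    exact this.1 hx
  have hexp : ∀ x : V d, x = ∑ j, x j • (Pi.single j (1 : ℝ) : V d) := by
    intro x
    have := pi_eq_sum_univ' x
    simpa [Pi.single_apply] using this
  have hnn : ∀ i : Fin d, ∀ j, 0 ≤ (Pi.single i (1 : ℝ) : V d) j := by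
    intro i j
    by_cases h : j = i
    · subst h; simp
    · simp [h]
  -- each column has exactly one nonzero entry
  have hcol : ∀ i : Fin d, ∃ j : Fin d, ∃ m : ℝ, 0 < m ∧
      L (Pi.single i 1) = m • (Pi.single j (1 : ℝ) : V d) := by
    intro i
    have hLi : ∀ j, 0 ≤ L (Pi.single i 1) j := (hL _).2 (hnn i)
    have hne : L (Pi.single i 1) ≠ 0 := by
      intro h
      have h1 := (LinearEquiv.map_eq_zero_iff L).1 h
      have := congrFun h1 i
      simp at this
    obtain ⟨j, hj⟩ : ∃ j, L (Pi.single i 1) j ≠ 0 := by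
      by_contra hcon
      push Not at hcon
      exact hne (funext hcon)
    have hjpos : 0 < L (Pi.single i 1) j := lt_of_le_of_ne (hLi j) (Ne.symm hj)
    -- the preimage of e_j is a multiple of e_i
    have hsum : (Pi.single i (1 : ℝ) : V d)
        = ∑ k, L (Pi.single i 1) k • L.symm (Pi.single k (1 : ℝ)) := by
      have h1 := congrArg L.symm (hexp (L (Pi.single i 1)))
      rw [LinearEquiv.symm_apply_apply, map_sum] at h1
      simp only [map_smul] at h1
      exact h1
    have hzero : ∀ l, l ≠ i → L.symm (Pi.single j (1 : ℝ)) l = 0 := by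
      intro l hl
      have h1 := congrFun hsum l
      rw [Finset.sum_apply] at h1
      simp only [Pi.smul_apply, smul_eq_mul] at h1
      rw [Pi.single_eq_of_ne hl] at h1
      have h2 : ∀ k ∈ (Finset.univ : Finset (Fin d)),
          0 ≤ L (Pi.single i 1) k * L.symm (Pi.single k (1 : ℝ)) l :=
        fun k _ => mul_nonneg (hLi k) (hL' _ (hnn k) l)
      have h3 := (Finset.sum_eq_zero_iff_of_nonneg h2).1 h1.symm j (Finset.mem_univ j)
      exact (mul_eq_zero.1 h3).resolve_left hj
    set m' : ℝ := L.symm (Pi.single j (1 : ℝ)) i with hm'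
    have hm'0 : 0 ≤ m' := hL' _ (hnn j) i
    have hpre : L.symm (Pi.single j (1 : ℝ)) = m' • (Pi.single i (1 : ℝ) : V d) := by
      funext l
      by_cases hl : l = i
      · subst hl
        simp [hm']
      · rw [hzero l hl]
        simp [hl]
    have hm'ne : m' ≠ 0 := by
      intro h
      rw [h, zero_smul] at hpre
      have h1 := (LinearEquiv.map_eq_zero_iff L.symm).1 hpre
      have := congrFun h1 j
      simp at this
    have hm'pos : 0 < m' := lt_of_le_of_ne hm'0 (Ne.symm hm'ne)
    refine ⟨j, m'⁻¹, inv_pos.2 hm'pos, ?_⟩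
    have h1 := congrArg L hpre
    rw [LinearEquiv.apply_symm_apply, map_smul] at h1
    rw [h1, smul_smul, inv_mul_cancel₀ hm'ne, one_smul]
  choose π m hm hLπ using hcol
  have hinj : Function.Injective π := by
    intro i i' h
    have h1 : L (m i' • Pi.single i (1 : ℝ)) = L (m i • Pi.single i' (1 : ℝ)) := by
      rw [map_smul, map_smul, hLπ, hLπ, h, smul_smul, smul_smul, mul_comm]
    have h2 := L.injective h1
    by_contra hne
    have h3 := congrFun h2 i
    simp [hne] at h3
    exact (hm i').ne' h3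
  set σ : Equiv.Perm (Fin d) := Equiv.ofBijective π (Finite.injective_iff_bijective.1 hinj) with hσ
  have hσπ : ∀ i, σ i = π i := fun i => rfl
  have hpow : ∀ (k : ℕ) (i : Fin d), ∃ M : ℝ, 0 < M ∧
      (L ^ k) (Pi.single i (1 : ℝ)) = M • (Pi.single ((σ ^ k) i) (1 : ℝ) : V d) := by
    intro k
    induction k with
    | zero => intro i; exact ⟨1, one_pos, by simp⟩
    | succ k ih =>
      intro i
      obtain ⟨M, hM, h⟩ := ih i
      refine ⟨M * m ((σ ^ k) i), mul_pos hM (hm _), ?_⟩
      have e : (L ^ (k + 1)) (Pi.single i (1 : ℝ)) = L ((L ^ k) (Pi.single i (1 : ℝ))) := by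
        rw [pow_succ']
        rfl
      rw [e, h, map_smul, hLπ, smul_smul, ← hσπ, pow_succ']
      rfl
  choose M hM hpow' using hpow (orderOf σ)
  refine ⟨orderOf σ, M, orderOf_pos σ, hM, fun x i => ?_⟩
  have h1 : (L ^ orderOf σ) x = ∑ j, x j • (M j • (Pi.single j (1 : ℝ) : V d)) := by
    conv_lhs => rw [hexp x]
    rw [map_sum]
    refine Finset.sum_congr rfl fun j _ => ?_
    rw [map_smul, hpow' j, pow_orderOf_eq_one]
    rfl
  rw [h1, Finset.sum_apply, Finset.sum_eq_single i]
  · simp
    ring
  · intro j _ hj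
    simp [Ne.symm hj]
  · intro h
    exact absurd (Finset.mem_univ i) h

end Pool.Agent.R896.PA
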