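import Mathlib

/-!
Definitions and the statements of the independent pieces for MP_4cf399_an
(self-affine attractors that are polyhedra are parallelepipeds).
-/

open MeasureTheory Filter Topology

namespace Pool.Agent.R896.PA

/-- The real coordinate space. -/
abbrev V (d : ℕ) : Type := Fin d → ℝ

/-- Every complex eigenvalue has absolute value greater than one. -/
def Expanding {d : ℕ} (M : Matrix (Fin d) (Fin d) ℝ) : Prop :=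
  ∀ μ ∈ spectrum ℂ (M.map (fun r : ℝ => (r : ℂ))), 1 < ‖μ‖

/-- Piece EXP. -/
def StmtEXP : Prop := ∀ (d : ℕ) (M : Matrix (Fin d) (Fin d) ℝ), Expanding M →
  IsUnit M.det ∧ ∀ x : V d, Tendsto (fun k : ℕ => (M⁻¹ ^ k).mulVec x) atTop (𝓝 0)

/-- Value of a polynomial in `d` complex variables given by its coefficients. -/
noncomputable def evalQ {d : ℕ} (c : (Fin d → ℕ) →₀ ℂ) (z : Fin d → ℂ) : ℂ :=
  c.sum fun y a => a * ∏ i, z i ^ y i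

/-- Piece PROD. -/
def StmtPROD : Prop := ∀ (d : ℕ) (c : (Fin d → ℕ) →₀ ℂ) (a lam : Fin d → ℕ)
  (P : (Fin d → ℂ) → ℂ),
  (∀ i, 2 ≤ lam i) →
  (∀ y ∈ c.support, ∀ i, y i ≤ a i) →
  (∀ w : Fin d → ℕ, (∀ i, w i = 0 ∨ w i = a i) → c w ≠ 0) →
  (∀ z, evalQ c (fun i => z i ^ lam i) = P z * evalQ c z) →
  c 0 = 1 →
  ∀ y, c y = ∏ i, c (Pi.single i (y i))

/-- Piece PHI. -/
def StmtPHI : Prop := ∀ F : Finset ℝ, ∃ φ : ℝ →ₗ[ℚ] ℚ,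
  (∀ x ∈ F, ∃ n : ℤ, φ x = n) ∧ (∀ x ∈ F, ∀ y ∈ F, x < y → φ x < φ y)

/-- The linear form with coefficient vector `y`, as a polynomial. -/
noncomputable def lin {d : ℕ} (y : V d) : MvPolynomial (Fin d) ℝ :=
  ∑ i, MvPolynomial.C (y i) * MvPolynomial.X i

/-- Power sums of linear forms. -/
noncomputable def psum {d : ℕ} (c : V d →₀ ℝ) (j : ℕ) : MvPolynomial (Fin d) ℝ :=
  c.sum fun y a => MvPolynomial.C a * lin y ^ j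

/-- Piece FACTOR. -/
def StmtFACTOR : Prop := ∀ (d : ℕ) (c : V d →₀ ℝ), c 0 ≠ 0 → psum c d ≠ 0 →
  (∀ j, psum c d ∣ psum c j) →
  ∃ (κ : ℝ) (y : Fin d → V d), κ ≠ 0 ∧ psum c d = MvPolynomial.C κ * ∏ i, lin (y i)

/-- Piece MOM: moments of a bounded set are polynomials. -/
def StmtMOM : Prop := ∀ (d : ℕ) (G : Set (V d)), IsCompact G → ∀ n : ℕ,
  ∃ m : MvPolynomial (Fin d) ℝ, ∀ ξ : V d, MvPolynomial.eval ξ m = ∫ x in G, (ξ ⬝ᵥ x) ^ n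

/-- Piece POWER. -/
def StmtPOWER : Prop := ∀ (d : ℕ) (C G : Set (V d)) (c : V d →₀ ℝ) (ξ : V d),
  IsClosed C → (interior C).Nonempty → (∀ x ∈ C, ∀ a : ℝ, 0 < a → a • x ∈ C) →
  (∀ x ∈ C, x ≠ 0 → ξ ⬝ᵥ x < 0) → IsCompact G →
  (∀ᵐ x ∂(volume : Measure (V d)), G.indicator (fun _ => (1 : ℝ)) x
      = c.sum fun y a => a * C.indicator (fun _ => (1 : ℝ)) (x - y)) →
  IntegrableOn (fun x => Real.exp (ξ ⬝ᵥ x)) C ∧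
  0 < ∫ x in C, Real.exp (ξ ⬝ᵥ x) ∧
  (∀ j < d, (c.sum fun y a => a * (ξ ⬝ᵥ y) ^ j) = 0) ∧
  (∀ n : ℕ, (c.sum fun y a => a * (ξ ⬝ᵥ y) ^ (n + d)) / ((n + d).factorial : ℝ)
      * (∫ x in C, Real.exp (ξ ⬝ᵥ x)) = (∫ x in G, (ξ ⬝ᵥ x) ^ n) / (n.factorial : ℝ))

/-- Piece IDENT. -/
def StmtIDENT : Prop := ∀ (d : ℕ) (C Ω : Set (V d)) (κ : ℝ) (y : Fin d → V d),
  IsOpen Ω → Ω.Nonempty → closure (interior C) = C → (interior C).Nonempty → κ ≠ 0 →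
  (∀ ξ ∈ Ω, IntegrableOn (fun x => Real.exp (ξ ⬝ᵥ x)) C) →
  (∀ ξ ∈ Ω, (∫ x in C, Real.exp (ξ ⬝ᵥ x)) * ∏ i, (ξ ⬝ᵥ y i) = κ) →
  ∃ A : V d ≃ₗ[ℝ] V d, ∀ x, x ∈ C ↔ ∀ i, 0 ≤ A.symm x i

/-- Piece DIAG. -/
def StmtDIAG : Prop := ∀ (d : ℕ) (L : V d ≃ₗ[ℝ] V d),
  (∀ x, (∀ i, 0 ≤ L x i) ↔ (∀ i, 0 ≤ x i)) →
  ∃ (p : ℕ) (lam : Fin d → ℝ), 0 < p ∧ (∀ i, 0 < lam i) ∧ ∀ x i, (L ^ p) x i = lam i * x i

end Pool.Agent.R896.PA
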