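import Pool.Agent.R896.PA.Defs

open MeasureTheory Filter Topology
open scoped ENNReal NNReal

namespace Pool.Agent.R896.PA

attribute [local instance] Matrix.linftyOpNormedRing Matrix.linftyOpNormedAlgebra

lemma pow_tendsto {d : ℕ} (hd : d ≠ 0) (N : Matrix (Fin d) (Fin d) ℂ)
    (hN : ∀ μ ∈ spectrum ℂ N, ‖μ‖ < 1) (i j : Fin d) :
    Tendsto (fun k : ℕ => (N ^ k) i j) atTop (𝓝 0) := by
  have : Nonempty (Fin d) := ⟨⟨0, Nat.pos_of_ne_zero hd⟩⟩
  have : CompleteSpace (Matrix (Fin d) (Fin d) ℂ) := FiniteDimensional.complete ℂ _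
  have h1 : spectralRadius ℂ N < ((1 : ℝ≥0) : ℝ≥0∞) := by
    refine spectrum.spectralRadius_lt_of_forall_lt N fun k hk => ?_
    have := hN k hk
    exact_mod_cast this
  obtain ⟨r, hr1, hr2⟩ := ENNReal.lt_iff_exists_nnreal_btwn.1 h1
  have h2 := spectrum.pow_nnnorm_pow_one_div_tendsto_nhds_spectralRadius N
  have h3 : ∀ᶠ n : ℕ in atTop, ((‖N ^ n‖₊ : ℝ≥0∞) ^ (1 / n : ℝ)) < r :=
    h2.eventually (gt_mem_nhds hr1)
  have hr : r < 1 := by exact_mod_cast hr2
  have hent : ∀ A : Matrix (Fin d) (Fin d) ℂ, ‖A i j‖ ≤ ‖A‖ := by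
    intro A
    have h5 : ‖A i j‖₊ ≤ ‖A‖₊ := by
      rw [Matrix.linfty_opNNNorm_def]
      refine le_trans ?_ (Finset.le_sup (f := fun i => ∑ j, ‖A i j‖₊) (Finset.mem_univ i))
      exact Finset.single_le_sum (f := fun j => ‖A i j‖₊) (fun _ _ => bot_le)
        (Finset.mem_univ j)
    exact_mod_cast h5
  rw [tendsto_zero_iff_norm_tendsto_zero]
  have h4 : ∀ᶠ n : ℕ in atTop, ‖N ^ n‖ ≤ (r : ℝ) ^ n := by
    filter_upwards [h3, eventually_gt_atTop 0] with n hn hn0
    have h5 : (‖N ^ n‖₊ : ℝ≥0∞) < (r : ℝ≥0∞) ^ n := by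
      have h6 := ENNReal.rpow_lt_rpow hn (show (0 : ℝ) < n by exact_mod_cast hn0)
      rw [← ENNReal.rpow_mul, one_div, inv_mul_cancel₀ (by exact_mod_cast hn0.ne'),
        ENNReal.rpow_one, ENNReal.rpow_natCast] at h6
      exact h6
    have h7 : ‖N ^ n‖₊ < r ^ n := by exact_mod_cast h5
    exact_mod_cast h7.le
  have h4' : ∀ᶠ n : ℕ in atTop, ‖(N ^ n) i j‖ ≤ (r : ℝ) ^ n := by
    filter_upwards [h4] with n hn
    exact (hent _).trans hn
  refine squeeze_zero' (Eventually.of_forall fun n => norm_nonneg _) h4' ?_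
  exact tendsto_pow_atTop_nhds_zero_of_lt_one r.coe_nonneg (by exact_mod_cast hr)

theorem stmtEXP : StmtEXP := by
  intro d M hM
  rcases eq_or_ne d 0 with rfl | hd
  · refine ⟨by simp, fun x => ?_⟩
    have : (fun k : ℕ => (M⁻¹ ^ k).mulVec x) = fun _ => 0 := by
      funext k
      exact Subsingleton.elim _ _
    rw [this]
    exact tendsto_const_nhds
  · set φ : Matrix (Fin d) (Fin d) ℝ →+* Matrix (Fin d) (Fin d) ℂ :=
      (Complex.ofRealHom).mapMatrix with hφ
    have hφM : M.map (fun r : ℝ => (r : ℂ)) = φ M := rfl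
    have h0 : (0 : ℂ) ∉ spectrum ℂ (φ M) := by
      intro h
      have := hM 0 h
      simp at this
      linarith
    have hu : IsUnit (φ M) := spectrum.zero_notMem_iff ℂ |>.1 h0
    have hdetC : IsUnit (φ M).det := (Matrix.isUnit_iff_isUnit_det _).1 hu
    have hdet : IsUnit M.det := by
      have h1 : (φ M).det = ((M.det : ℝ) : ℂ) := (RingHom.map_det Complex.ofRealHom M).symm
      rw [h1] at hdetC
      rw [isUnit_iff_ne_zero] at hdetC ⊢
      exact_mod_cast hdetC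
    refine ⟨hdet, fun x => ?_⟩
    have hinv : φ M⁻¹ = (φ M)⁻¹ := by
      have h1 : φ M⁻¹ * φ M = 1 := by
        rw [← map_mul, Matrix.nonsing_inv_mul M hdet, map_one]
      exact (Matrix.inv_eq_left_inv h1).symm
    have hspec : ∀ μ ∈ spectrum ℂ (φ M⁻¹), ‖μ‖ < 1 := by
      intro μ hμ
      obtain ⟨u, hu'⟩ := hu
      have h1 : φ M⁻¹ = ((u⁻¹ : (Matrix (Fin d) (Fin d) ℂ)ˣ) : Matrix (Fin d) (Fin d) ℂ) := by
        rw [hinv, ← hu', Matrix.coe_units_inv]
      rw [h1, ← spectrum.map_inv, Set.mem_inv] at hμ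
      rw [hu'] at hμ
      have h2 := hM _ hμ
      rw [norm_inv] at h2
      by_contra hcon
      push Not at hcon
      have := inv_le_one_of_one_le₀ hcon
      linarith
    have hentry : ∀ i j, Tendsto (fun k : ℕ => (M⁻¹ ^ k) i j) atTop (𝓝 0) := by
      intro i j
      have h1 : Tendsto (fun k : ℕ => ((φ M⁻¹) ^ k) i j) atTop (𝓝 0) :=
        pow_tendsto hd (φ M⁻¹) hspec i j
      have h3 : ∀ k : ℕ, ((φ M⁻¹) ^ k) i j = (((M⁻¹ ^ k) i j : ℝ) : ℂ) := by
        intro k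
        rw [← map_pow]
        rfl
      simp only [h3] at h1
      have h4 := (Complex.continuous_re.tendsto 0).comp h1
      simpa [Function.comp_def] using h4
    rw [tendsto_pi_nhds]
    intro i
    have h5 : Tendsto (fun k : ℕ => ∑ j, (M⁻¹ ^ k) i j * x j) atTop (𝓝 (∑ j, 0 * x j)) :=
      tendsto_finsetSum _ fun j _ => (hentry i j).mul_const (x j)
    simp only [zero_mul, Finset.sum_const_zero] at h5
    exact h5

end Pool.Agent.R896.PA
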