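import Pool.Agent.R896.PA.Defs

/-!
Piece FACTOR for MP_4cf399_an (statement and proof sketch by helper896, Lean by helper68).
-/

namespace Pool.Agent.R896.PA

open MvPolynomial

lemma lin_zero {d : ℕ} : lin (0 : V d) = 0 := by
  simp [lin]

lemma lin_ne_zero {d : ℕ} {y : V d} (hy : y ≠ 0) : lin y ≠ 0 := by
  intro h
  apply hy
  funext i
  have h1 := congrArg (MvPolynomial.eval (Pi.single i (1 : ℝ))) h
  simp only [lin, map_sum, map_mul, eval_C, eval_X, map_zero] at h1
  rw [Finset.sum_eq_single i] at h1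
  · simpa using h1
  · intro j _ hj
    simp [Pi.single_apply, hj]
  · simp

lemma lin_isHomogeneous {d : ℕ} (y : V d) : (lin y).IsHomogeneous 1 := by
  unfold lin
  apply IsHomogeneous.sum
  intro i _
  have := (isHomogeneous_C (σ := Fin d) (R := ℝ) (y i)).mul (isHomogeneous_X ℝ i)
  simpa using this

lemma psum_isHomogeneous {d : ℕ} (c : V d →₀ ℝ) (j : ℕ) : (psum c j).IsHomogeneous j := by
  unfold psum
  rw [Finsupp.sum]
  apply IsHomogeneous.sum
  intro y _
  have := (isHomogeneous_C (σ := Fin d) (R := ℝ) (c y)).mul ((lin_isHomogeneous y).pow j)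
  simpa using this

lemma C_of_unit {d : ℕ} {p : MvPolynomial (Fin d) ℝ} (h : IsUnit p) :
    ∃ κ : ℝ, κ ≠ 0 ∧ p = C κ := by
  rw [isUnit_iff_eq_C_of_isReduced] at h
  obtain ⟨r, hr, h⟩ := h
  exact ⟨r, hr.ne_zero, h⟩

/-- The key step: a prime divisor of all power sums divides a nonzero linear form. -/
lemma prime_dvd_lin {d : ℕ} (c : V d →₀ ℝ) (hc : c 0 ≠ 0) (π : MvPolynomial (Fin d) ℝ)
    (hπ : Prime π) (hdvd : ∀ j, π ∣ psum c j) : ∃ y : V d, y ≠ 0 ∧ π ∣ lin y := by
  classical
  by_contra hcon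
  push Not at hcon
  have hprime : (Ideal.span {π}).IsPrime := (Ideal.span_singleton_prime hπ.ne_zero).2 hπ
  let R := MvPolynomial (Fin d) ℝ ⧸ Ideal.span {π}
  let q : MvPolynomial (Fin d) ℝ →+* R := Ideal.Quotient.mk (Ideal.span {π})
  have hq : ∀ p, q p = 0 ↔ π ∣ p := by
    intro p
    rw [Ideal.Quotient.eq_zero_iff_mem, Ideal.mem_span_singleton]
  have hdom : IsDomain R := Ideal.Quotient.isDomain _
  -- power sums vanish in the quotient
  have hpow : ∀ j, ∑ y ∈ c.support, q (C (c y)) * q (lin y) ^ j = 0 := by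
    intro j
    have h1 := (hq (psum c j)).2 (hdvd j)
    rw [psum, Finsupp.sum, map_sum] at h1
    rw [← h1]
    refine Finset.sum_congr rfl fun y _ => ?_
    rw [map_mul, map_pow]
  -- hence all polynomials
  have hpoly : ∀ P : Polynomial R, ∑ y ∈ c.support, q (C (c y)) * P.eval (q (lin y)) = 0 := by
    intro P
    have h1 : ∀ y, P.eval (q (lin y)) = ∑ j ∈ Finset.range (P.natDegree + 1),
        P.coeff j * q (lin y) ^ j := fun y => Polynomial.eval_eq_sum_range _
    simp_rw [h1, Finset.mul_sum]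
    rw [Finset.sum_comm]
    refine Finset.sum_eq_zero fun j _ => ?_
    have h2 := hpow j
    calc _ = P.coeff j * ∑ y ∈ c.support, q (C (c y)) * q (lin y) ^ j := by
          rw [Finset.mul_sum]
          refine Finset.sum_congr rfl fun y _ => ?_
          ring
      _ = 0 := by rw [h2, mul_zero]
  have h0mem : (0 : V d) ∈ c.support := Finsupp.mem_support_iff.2 hc
  have hP := hpoly (∏ y ∈ c.support.erase 0, (Polynomial.X - Polynomial.C (q (lin y))))
  rw [← Finset.add_sum_erase _ _ h0mem] at hP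
  have hrest : ∑ y ∈ c.support.erase 0, q (C (c y)) *
      (∏ y ∈ c.support.erase 0, (Polynomial.X - Polynomial.C (q (lin y)))).eval (q (lin y)) = 0 := by
    refine Finset.sum_eq_zero fun y hy => ?_
    rw [Polynomial.eval_prod, Finset.prod_eq_zero hy, mul_zero]
    simp
  rw [hrest, add_zero] at hP
  rcases mul_eq_zero.1 hP with h | h
  · rw [hq] at h
    have hu : IsUnit (C (c 0) : MvPolynomial (Fin d) ℝ) :=
      (isUnit_iff_ne_zero.2 hc).map C
    exact hπ.not_isUnit (isUnit_of_dvd_unit h hu)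
  · rw [Polynomial.eval_prod, Finset.prod_eq_zero_iff] at h
    obtain ⟨y, hy, h⟩ := h
    rw [lin_zero, map_zero, Polynomial.eval_sub, Polynomial.eval_X, Polynomial.eval_C,
      zero_sub, neg_eq_zero, hq] at h
    exact hcon y (Finset.ne_of_mem_erase hy) h

lemma associated_lin {d : ℕ} {π : MvPolynomial (Fin d) ℝ} (hπ : Prime π) {y : V d}
    (hy : y ≠ 0) (h : π ∣ lin y) : ∃ κ : ℝ, κ ≠ 0 ∧ π = C κ * lin y := by
  obtain ⟨r, hr⟩ := h
  have hlin := lin_ne_zero hy
  have hr0 : r ≠ 0 := by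
    rintro rfl
    rw [mul_zero] at hr
    exact hlin hr
  have hdeg : (lin y).totalDegree = 1 := (lin_isHomogeneous y).totalDegree hlin
  rw [hr, totalDegree_mul_of_isDomain hπ.ne_zero hr0] at hdeg
  have hπ1 : π.totalDegree ≠ 0 := by
    intro h0
    rw [totalDegree_eq_zero_iff_eq_C] at h0
    apply hπ.not_isUnit
    rw [h0]
    have : coeff 0 π ≠ 0 := by
      intro h1
      rw [h1, map_zero] at h0
      exact hπ.ne_zero h0
    exact (isUnit_iff_ne_zero.2 this).map C
  have hr1 : r.totalDegree = 0 := by omega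
  rw [totalDegree_eq_zero_iff_eq_C] at hr1
  have hc : coeff 0 r ≠ 0 := by
    intro h1
    rw [h1, map_zero] at hr1
    exact hr0 hr1
  refine ⟨(coeff 0 r)⁻¹, inv_ne_zero hc, ?_⟩
  rw [hr, hr1, coeff_zero_C]
  rw [mul_comm π, ← mul_assoc, ← C_mul, inv_mul_cancel₀ hc, C_1, one_mul]

lemma factor_aux {d : ℕ} (p : MvPolynomial (Fin d) ℝ) : p ≠ 0 →
    (∀ π, Prime π → π ∣ p → ∃ y : V d, y ≠ 0 ∧ π ∣ lin y) →
    ∃ (κ : ℝ) (L : List (V d)), κ ≠ 0 ∧ (∀ y ∈ L, y ≠ 0) ∧ p = C κ * (L.map lin).prod := by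
  refine UniqueFactorizationMonoid.induction_on_prime p ?_ ?_ ?_
  · intro h; exact absurd rfl h
  · intro x hx _ _
    obtain ⟨κ, hκ, rfl⟩ := C_of_unit hx
    exact ⟨κ, [], hκ, by simp, by simp⟩
  · intro a π ha hπ ih _ h
    obtain ⟨κ, L, hκ, hL, hL2⟩ := ih ha (fun π' h1 h2 => h π' h1 (Dvd.dvd.mul_left h2 π))
    obtain ⟨y, hy, hdy⟩ := h π hπ (Dvd.intro _ rfl)
    obtain ⟨κ', hκ', e⟩ := associated_lin hπ hy hdy
    refine ⟨κ' * κ, y :: L, mul_ne_zero hκ' hκ, ?_, ?_⟩
    · intro z hz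
      rcases List.mem_cons.1 hz with rfl | hz
      · exact hy
      · exact hL z hz
    · rw [List.map_cons, List.prod_cons, C_mul, e, hL2]
      ring

lemma prod_isHomogeneous {d : ℕ} (L : List (V d)) : ((L.map lin).prod).IsHomogeneous L.length := by
  induction L with
  | nil => simpa using isHomogeneous_one (Fin d) ℝ
  | cons a L ih =>
    rw [List.map_cons, List.prod_cons, List.length_cons, add_comm]
    exact (lin_isHomogeneous a).mul ih

theorem stmtFACTOR : StmtFACTOR := by
  intro d c hc hne hdvd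
  obtain ⟨κ, L, hκ, -, hL⟩ := factor_aux (psum c d) hne (fun π hπ h =>
    prime_dvd_lin c hc π hπ (fun j => h.trans (hdvd j)))
  have hlen : L.length = d := by
    have h1 : (psum c d).IsHomogeneous L.length := by
      rw [hL]
      have := (isHomogeneous_C (σ := Fin d) (R := ℝ) κ).mul (prod_isHomogeneous L)
      simpa using this
    exact h1.inj_right (psum_isHomogeneous c d) hne
  refine ⟨κ, fun i => L.get (Fin.cast hlen.symm i), hκ, ?_⟩
  rw [hL]
  congr 1
  have h2 : ∀ (m : ℕ) (h : L.length = m),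
      ∏ i : Fin m, lin (L.get (Fin.cast h.symm i)) = (L.map lin).prod := by
    intro m h
    subst h
    simp only [Fin.cast_eq_self]
    rw [← List.prod_ofFn]
    congr 1
    apply List.ext_get
    · simp
    · intro n h1 h2
      simp
  exact (h2 d hlen).symm

end Pool.Agent.R896.PA
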