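import Pool.Agent.R896.PA.Defs

/-!
Geometry of attractors: iterates, exposed vertices, local cones.
-/

open MeasureTheory Filter Topology

namespace Pool.Agent.R896.PA

variable {d : ℕ}

/-- Locally conical at every point. -/
def LC (G : Set (V d)) : Prop :=
  ∀ v : V d, ∃ r > 0, ∀ x : V d, ‖x‖ < r → ∀ a : ℝ, 0 < a → a ≤ 1 →
    (v + x ∈ G ↔ v + a • x ∈ G)

/-- The image of `G` under `L` is tiled by the translates `G + s`, `s ∈ S`. -/
structure Tile (G : Set (V d)) (L : V d ≃ₗ[ℝ] V d) (S : Finset (V d)) : Prop where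
  union : ∀ x, L.symm x ∈ G ↔ ∃ s ∈ S, x - s ∈ G
  disj : ∀ s ∈ S, ∀ t ∈ S, s ≠ t → volume {x | x - s ∈ G ∧ x - t ∈ G} = 0

/-- A compact locally conical set equal to the closure of its interior. -/
structure Reg (G : Set (V d)) : Prop where
  cpt : IsCompact G
  ne : G.Nonempty
  reg : closure (interior G) = G
  lc : LC G

/-- Inverse powers tend to zero. -/
def Contr (L : V d ≃ₗ[ℝ] V d) : Prop :=
  ∀ x, Tendsto (fun k : ℕ => (L ^ k).symm x) atTop (𝓝 0)

/-- The functional `f` exposes the point `v` of `G`. -/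
structure Vtx (G : Set (V d)) (f : V d →ₗ[ℝ] ℝ) (v : V d) : Prop where
  mem : v ∈ G
  lt : ∀ x ∈ G, x ≠ v → f x < f v

lemma Vtx.uniq {G : Set (V d)} {f : V d →ₗ[ℝ] ℝ} {v w : V d} (hv : Vtx G f v)
    (hw : Vtx G f w) : v = w := by
  by_contra h
  have h1 := hv.lt w hw.mem (Ne.symm h)
  have h2 := hw.lt v hv.mem h
  linarith

lemma Tile.one (G : Set (V d)) : Tile G 1 {0} := by
  constructor
  · intro x
    simp
    rfl
  · intro s hs t ht hst
    simp at hs ht
    exact absurd (hs.trans ht.symm) hst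

lemma null_preimage (L : V d ≃ₗ[ℝ] V d) {N : Set (V d)} (hN : volume N = 0) :
    volume ((fun x => L x) ⁻¹' N) = 0 := by
  have h := Measure.addHaar_preimage_linearMap (volume : Measure (V d))
    (f := (L : V d →ₗ[ℝ] V d)) (LinearEquiv.isUnit_det' L).ne_zero N
  have h' : volume ((fun x => L x) ⁻¹' N) = volume ((L : V d →ₗ[ℝ] V d) ⁻¹' N) := rfl
  rw [h', h, hN, mul_zero]

lemma null_translate (w : V d) {N : Set (V d)} (hN : volume N = 0) :
    volume ((fun x => x - w) ⁻¹' N) = 0 := by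
  have := (measurePreserving_sub_right (volume : Measure (V d)) w).quasiMeasurePreserving
  exact this.preimage_null hN

lemma Tile.mul {G : Set (V d)} {L L' : V d ≃ₗ[ℝ] V d} {S S' : Finset (V d)}
    (h : Tile G L S) (h' : Tile G L' S') :
    ∃ T : Finset (V d), Tile G (L * L') T ∧ ((0 : V d) ∈ S → (0 : V d) ∈ S' → (0 : V d) ∈ T) := by
  classical
  refine ⟨Finset.image₂ (fun s s' => L s' + s) S S', ⟨?_, ?_⟩, ?_⟩
  · intro x
    have e : (L * L').symm x = L'.symm (L.symm x) := rfl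
    rw [e, h'.union]
    constructor
    · rintro ⟨s', hs', hx⟩
      have : L.symm (x - L s') ∈ G := by
        simpa [map_sub] using hx
      obtain ⟨s, hs, hx2⟩ := (h.union _).1 this
      refine ⟨L s' + s, Finset.mem_image₂_of_mem hs hs', ?_⟩
      convert hx2 using 1
      abel
    · rintro ⟨u, hu, hx⟩
      obtain ⟨s, hs, s', hs', rfl⟩ := Finset.mem_image₂.1 hu
      refine ⟨s', hs', ?_⟩
      have : L.symm (x - L s') ∈ G := by
        rw [h.union]
        refine ⟨s, hs, ?_⟩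
        convert hx using 1
        abel
      simpa [map_sub] using this
  · intro u hu w hw huw
    obtain ⟨s1, hs1, s1', hs1', rfl⟩ := Finset.mem_image₂.1 hu
    obtain ⟨s2, hs2, s2', hs2', rfl⟩ := Finset.mem_image₂.1 hw
    by_cases hss : s1' = s2'
    · subst hss
      have hne : s1 ≠ s2 := by
        rintro rfl
        exact huw rfl
      have h0 := null_translate (L s1') (h.disj s1 hs1 s2 hs2 hne)
      refine measure_mono_null ?_ h0
      intro x hx
      refine ⟨?_, ?_⟩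
      · show x - L s1' - s1 ∈ G
        rw [sub_sub]
        exact hx.1
      · show x - L s1' - s2 ∈ G
        rw [sub_sub]
        exact hx.2
    · have h0 := null_preimage L.symm (h'.disj s1' hs1' s2' hs2' hss)
      refine measure_mono_null ?_ h0
      intro x hx
      have a1 : L.symm (x - L s1') ∈ G := by
        rw [h.union]
        refine ⟨s1, hs1, ?_⟩
        convert hx.1 using 1
        abel
      have a2 : L.symm (x - L s2') ∈ G := by
        rw [h.union]
        refine ⟨s2, hs2, ?_⟩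
        convert hx.2 using 1
        abel
      refine ⟨?_, ?_⟩
      · simpa [map_sub] using a1
      · simpa [map_sub] using a2
  · intro h0 h0'
    refine Finset.mem_image₂.2 ⟨0, h0, 0, h0', by simp⟩

lemma Tile.pow {G : Set (V d)} {L : V d ≃ₗ[ℝ] V d} {S : Finset (V d)} (h : Tile G L S)
    (k : ℕ) : ∃ T : Finset (V d), Tile G (L ^ k) T ∧ ((0 : V d) ∈ S → (0 : V d) ∈ T) := by
  induction k with
  | zero => exact ⟨{0}, by simpa using Tile.one G, fun _ => by simp⟩
  | succ k ih =>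
    obtain ⟨T, hT, hT0⟩ := ih
    obtain ⟨T', hT', hT0'⟩ := hT.mul h
    refine ⟨T', ?_, fun h0 => hT0' (hT0 h0) h0⟩
    rw [pow_succ]
    exact hT'

lemma Contr.pow {L : V d ≃ₗ[ℝ] V d} (h : Contr L) {p : ℕ} (hp : 0 < p) : Contr (L ^ p) := by
  intro x
  have h1 : Tendsto (fun k : ℕ => p * k) atTop atTop :=
    tendsto_id.const_mul_atTop' hp
  have := (h x).comp h1
  refine this.congr ?_
  intro k
  simp only [Function.comp]
  rw [pow_mul]

/-- Uniform contraction on balls. -/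
lemma Contr.unif {L : V d ≃ₗ[ℝ] V d} (h : Contr L) (R ρ : ℝ) (hρ : 0 < ρ) :
    ∃ k : ℕ, ∀ x : V d, ‖x‖ ≤ R → ‖(L ^ k).symm x‖ < ρ := by
  have h1 : Tendsto (fun k : ℕ => ∑ i : Fin d, R * ‖(L ^ k).symm (Pi.single i (1 : ℝ))‖)
      atTop (𝓝 (∑ i : Fin d, R * ‖(0 : V d)‖)) := by
    refine tendsto_finsetSum _ ?_
    intro i _
    exact ((h (Pi.single i (1 : ℝ))).norm).const_mul R
  simp only [norm_zero, mul_zero, Finset.sum_const_zero] at h1
  obtain ⟨k, hk⟩ := (h1.eventually (gt_mem_nhds hρ)).exists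
  refine ⟨k, fun x hx => lt_of_le_of_lt ?_ hk⟩
  have e : (L ^ k).symm x = ∑ i, x i • (L ^ k).symm (Pi.single i (1 : ℝ)) := by
    have hx' : x = ∑ i, x i • (Pi.single i (1 : ℝ) : V d) := by
      have := pi_eq_sum_univ' x
      simpa [Pi.single_apply] using this
    conv_lhs => rw [hx']
    rw [map_sum]
    simp only [map_smul]
  rw [e]
  refine (norm_sum_le _ _).trans (Finset.sum_le_sum fun i _ => ?_)
  rw [norm_smul]
  exact mul_le_mul_of_nonneg_right ((norm_le_pi_norm x i).trans hx) (norm_nonneg _)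

lemma Vtx.step {G : Set (V d)} {L : V d ≃ₗ[ℝ] V d} {S : Finset (V d)} (hT : Tile G L S)
    {f : V d →ₗ[ℝ] ℝ} {v : V d} (hv : Vtx G f v) {s : V d} (hs : s ∈ S)
    (h : L v - s ∈ G) : Vtx G (f ∘ₗ (L.symm : V d →ₗ[ℝ] V d)) (L v - s) := by
  refine ⟨h, ?_⟩
  intro x hx hne
  have h1 : L.symm (x + s) ∈ G := by
    rw [hT.union]
    exact ⟨s, hs, by simpa using hx⟩
  have h2 : L.symm (x + s) ≠ v := by
    intro h3
    apply hne
    rw [← h3]
    simp
  have h3 := hv.lt _ h1 h2
  simp only [LinearMap.comp_apply, LinearEquiv.coe_coe, map_sub, map_add,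
    LinearEquiv.symm_apply_apply] at h3 ⊢
  linarith

lemma Vtx.step' {G : Set (V d)} {L : V d ≃ₗ[ℝ] V d} {S : Finset (V d)} (hT : Tile G L S)
    {f : V d →ₗ[ℝ] ℝ} {v : V d} (hv : Vtx G f v) :
    ∃ s ∈ S, Vtx G (f ∘ₗ (L.symm : V d →ₗ[ℝ] V d)) (L v - s) := by
  have h1 : L.symm (L v) ∈ G := by simpa using hv.mem
  obtain ⟨s, hs, h2⟩ := (hT.union _).1 h1
  exact ⟨s, hs, hv.step hT hs h2⟩

lemma finite_vtx {G : Set (V d)} (hc : IsCompact G) (hl : LC G) :
    {v : V d | ∃ f, Vtx G f v}.Finite := by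
  classical
  have h : ∀ v : V d, ∃ r > 0, ∀ w, ‖w - v‖ < r → (∃ f, Vtx G f w) → w = v := by
    intro v
    obtain ⟨r, hr, hrl⟩ := hl v
    refine ⟨r / 2, by positivity, ?_⟩
    rintro w hw ⟨f, hf⟩
    by_contra hne
    set x : V d := w - v with hx
    have hxw : w = v + x := by rw [hx]; abel
    have hx0 : x ≠ 0 := by
      intro h0
      apply hne
      rw [hxw, h0, add_zero]
    have hwG := hf.mem
    have h1 : v + (1 / 2 : ℝ) • x ∈ G := by
      rw [← hrl x (by linarith) (1 / 2) (by norm_num) (by norm_num), ← hxw]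
      exact hwG
    have h2 : v + (3 / 2 : ℝ) • x ∈ G := by
      rw [hrl ((3 / 2 : ℝ) • x) ?_ (2 / 3) (by norm_num) (by norm_num), smul_smul]
      · norm_num
        rw [← hxw]
        exact hwG
      · rw [norm_smul]
        norm_num
        linarith
    have e1 : v + (1 / 2 : ℝ) • x ≠ w := by
      intro h3
      apply hx0
      have : (1 / 2 : ℝ) • x = x := by
        have h4 : v + (1 / 2 : ℝ) • x = v + x := by rw [h3, hxw]
        exact add_left_cancel h4
      have h5 : (1 / 2 : ℝ) • x = 0 := by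
        have : x - (1 / 2 : ℝ) • x = (1 / 2 : ℝ) • x := by
          module
        rw [← this]
        rw [‹(1 / 2 : ℝ) • x = x›]
        simp
      exact (smul_eq_zero.1 h5).resolve_left (by norm_num)
    have e2 : v + (3 / 2 : ℝ) • x ≠ w := by
      intro h3
      apply hx0
      have h4 : v + (3 / 2 : ℝ) • x = v + x := by rw [h3, hxw]
      have h5 : (3 / 2 : ℝ) • x = x := add_left_cancel h4
      have h6 : (1 / 2 : ℝ) • x = 0 := by
        have : (3 / 2 : ℝ) • x - x = (1 / 2 : ℝ) • x := by module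
        rw [← this, h5, sub_self]
      exact (smul_eq_zero.1 h6).resolve_left (by norm_num)
    have l1 := hf.lt _ h1 e1
    have l2 := hf.lt _ h2 e2
    rw [hxw] at l1 l2
    simp only [map_add, map_smul, smul_eq_mul] at l1 l2
    linarith
  choose r hr hr2 using h
  obtain ⟨t, -, ht⟩ := hc.elim_nhds_subcover (fun v => Metric.ball v (r v))
    (fun v _ => Metric.ball_mem_nhds v (hr v))
  refine Set.Finite.subset t.finite_toSet ?_
  rintro w ⟨f, hf⟩
  have := ht hf.mem
  simp only [Set.mem_iUnion, Metric.mem_ball, exists_prop] at this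
  obtain ⟨v, hv, hwv⟩ := this
  have := hr2 v w (by rwa [← dist_eq_norm]) ⟨f, hf⟩
  rw [this]
  exact hv

/-- A periodic exposed vertex. -/
lemma periodic {G : Set (V d)} {L : V d ≃ₗ[ℝ] V d} {S : Finset (V d)} (hc : IsCompact G)
    (hl : LC G) (hT : Tile G L S) {f0 : V d →ₗ[ℝ] ℝ} {v0 : V d} (h0 : Vtx G f0 v0) :
    ∃ (k p : ℕ) (v s : V d) (T : Finset (V d)), 0 < p ∧ Tile G (L ^ p) T ∧ s ∈ T ∧
      (L ^ p) v = v + s ∧ Vtx G (f0 ∘ₗ ((L ^ k).symm : V d →ₗ[ℝ] V d)) v := by
  have hex : ∀ k : ℕ, ∃ v, Vtx G (f0 ∘ₗ ((L ^ k).symm : V d →ₗ[ℝ] V d)) v := by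
    intro k
    obtain ⟨T, hT', -⟩ := hT.pow k
    obtain ⟨s, -, h⟩ := h0.step' hT'
    exact ⟨_, h⟩
  choose v hv using hex
  have hfin := finite_vtx hc hl
  have : Finite {v : V d | ∃ f, Vtx G f v} := hfin
  obtain ⟨k, l, hkl, he⟩ := Finite.exists_ne_map_eq_of_infinite
    (fun k : ℕ => (⟨v k, _, hv k⟩ : {v : V d | ∃ f, Vtx G f v}))
  have he' : v k = v l := congrArg Subtype.val he
  wlog hlt : k < l generalizing k l
  · exact this l k (Ne.symm hkl) he.symm he'.symm (lt_of_le_of_ne (not_lt.1 hlt) (Ne.symm hkl))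
  obtain ⟨T, hT', -⟩ := hT.pow (l - k)
  obtain ⟨s, hs, h⟩ := (hv k).step' hT'
  have hcomp : (f0 ∘ₗ ((L ^ k).symm : V d →ₗ[ℝ] V d)) ∘ₗ
      ((L ^ (l - k)).symm : V d →ₗ[ℝ] V d) = f0 ∘ₗ ((L ^ l).symm : V d →ₗ[ℝ] V d) := by
    have : L ^ l = L ^ (l - k) * L ^ k := by
      rw [← pow_add]
      congr 1
      omega
    rw [this]
    rfl
  rw [hcomp] at h
  have hu := h.uniq (hv l)
  refine ⟨k, l - k, v k, s, T, by omega, hT', hs, ?_, hv k⟩
  have : (L ^ (l - k)) (v k) - s = v k := by rw [hu]; exact he'.symm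
  rw [sub_eq_iff_eq_add] at this
  exact this

end Pool.Agent.R896.PA
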