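import Pool.Agent.R896.PA.Geo1

/-!
The local cone at an exposed vertex.
-/

open MeasureTheory Filter Topology

namespace Pool.Agent.R896.PA

variable {d : ℕ}

/-- Closed regular cone, negative for `f` away from zero, locally invariant. -/
structure IsC (C : Set (V d)) (f : V d →ₗ[ℝ] ℝ) : Prop where
  closed : IsClosed C
  reg : closure (interior C) = C
  zero : (0 : V d) ∈ C
  smul : ∀ x ∈ C, ∀ a : ℝ, 0 < a → a • x ∈ C
  neg : ∀ x ∈ C, x ≠ 0 → f x < 0
  inv : ∀ w : V d, ∃ r > 0, ∀ (z : V d) (e : ℝ), ‖z‖ < r → 0 ≤ e → e ≤ 1 / 2 →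
    (w + z ∈ C ↔ w + z - e • w ∈ C)

lemma IsC.smul_iff {C : Set (V d)} {f : V d →ₗ[ℝ] ℝ} (h : IsC C f) {a : ℝ} (ha : 0 < a)
    (x : V d) : a • x ∈ C ↔ x ∈ C := by
  constructor
  · intro hx
    have := h.smul _ hx a⁻¹ (by positivity)
    rwa [smul_smul, inv_mul_cancel₀ ha.ne', one_smul] at this
  · intro hx
    exact h.smul x hx a ha

lemma IsC.nonpos {C : Set (V d)} {f : V d →ₗ[ℝ] ℝ} (h : IsC C f) {x : V d} (hx : x ∈ C) :
    f x ≤ 0 := by
  by_cases h0 : x = 0
  · rw [h0, map_zero]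
  · exact (h.neg x hx h0).le

lemma exists_scale (x : V d) {ρ : ℝ} (hρ : 0 < ρ) : ∃ a : ℝ, 0 < a ∧ a ≤ 1 ∧ ‖a • x‖ < ρ := by
  refine ⟨min 1 (ρ / (2 * (‖x‖ + 1))), ?_, min_le_left _ _, ?_⟩
  · have : 0 ≤ ‖x‖ := norm_nonneg x
    positivity
  · have hx : 0 ≤ ‖x‖ := norm_nonneg x
    have ha : 0 ≤ min 1 (ρ / (2 * (‖x‖ + 1))) := by positivity
    rw [norm_smul, Real.norm_of_nonneg ha]
    have h1 : min 1 (ρ / (2 * (‖x‖ + 1))) * ‖x‖ ≤ ρ / (2 * (‖x‖ + 1)) * ‖x‖ :=
      mul_le_mul_of_nonneg_right (min_le_right _ _) hx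
    refine lt_of_le_of_lt h1 ?_
    rw [div_mul_eq_mul_div, div_lt_iff₀ (by positivity)]
    nlinarith

/-- Abstract local cone with scaling equivalence. -/
lemma cone_exists {G : Set (V d)} (hG : Reg G) {f : V d →ₗ[ℝ] ℝ} (hf : Vtx G f 0) :
    ∃ (C : Set (V d)) (ρ : ℝ), 0 < ρ ∧ IsC C f ∧ ∀ x : V d, ‖x‖ < ρ → (x ∈ G ↔ x ∈ C) := by
  obtain ⟨ρ, hρ, hl⟩ := hG.lc 0
  simp only [zero_add] at hl
  set C : Set (V d) := {x | ∃ a : ℝ, 0 < a ∧ ‖a • x‖ < ρ ∧ a • x ∈ G} with hC
  have hloc : ∀ x : V d, ‖x‖ < ρ → (x ∈ G ↔ x ∈ C) := by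
    intro x hx
    constructor
    · intro h
      exact ⟨1, one_pos, by simpa using hx, by simpa using h⟩
    · rintro ⟨a, ha, h1, h2⟩
      rcases le_or_gt a 1 with h3 | h3
      · exact (hl x hx a ha h3).2 h2
      · have := (hl (a • x) h1 a⁻¹ (by positivity) (inv_le_one_of_one_le₀ h3.le)).1 h2
        rwa [smul_smul, inv_mul_cancel₀ ha.ne', one_smul] at this
  have hsm : ∀ x ∈ C, ∀ b : ℝ, 0 < b → b • x ∈ C := by
    rintro x ⟨a, ha, h1, h2⟩ b hb
    refine ⟨a / b, by positivity, ?_, ?_⟩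
    · rwa [smul_smul, div_mul_cancel₀ _ hb.ne']
    · rwa [smul_smul, div_mul_cancel₀ _ hb.ne']
  have hsi : ∀ (x : V d) (b : ℝ), 0 < b → (b • x ∈ C ↔ x ∈ C) := by
    intro x b hb
    constructor
    · intro hx
      have := hsm _ hx b⁻¹ (by positivity)
      rwa [smul_smul, inv_mul_cancel₀ hb.ne', one_smul] at this
    · intro hx
      exact hsm x hx b hb
  have hclosed : IsClosed C := by
    rw [← isSeqClosed_iff_isClosed]
    intro u x hu hx
    obtain ⟨b, hb, -, hbx⟩ := exists_scale x hρ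
    have h1 : Tendsto (fun n => b • u n) atTop (𝓝 (b • x)) := hx.const_smul b
    have h2 : ∀ᶠ n in atTop, ‖b • u n‖ < ρ := h1.norm.eventually (gt_mem_nhds hbx)
    have h3 : ∀ᶠ n in atTop, b • u n ∈ G := by
      filter_upwards [h2] with n hn
      exact (hloc _ hn).2 ((hsi _ _ hb).2 (hu n))
    have h4 : b • x ∈ G := hG.cpt.isClosed.mem_of_tendsto h1 h3
    exact (hsi _ _ hb).1 ((hloc _ hbx).1 h4)
  refine ⟨C, ρ, hρ, ⟨hclosed, ?_, ?_, hsm, ?_, ?_⟩, hloc⟩
  · apply subset_antisymm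
    · exact closure_minimal interior_subset hclosed
    · intro x hx
      obtain ⟨b, hb, -, hbx⟩ := exists_scale x hρ
      have h1 : b • x ∈ G := (hloc _ hbx).2 ((hsi _ _ hb).2 hx)
      rw [← hG.reg] at h1
      rw [Metric.mem_closure_iff] at h1 ⊢
      intro ε hε
      obtain ⟨y, hy, hyd⟩ := h1 (min (b * ε) (ρ - ‖b • x‖)) (lt_min (by positivity) (by linarith))
      have hyn : ‖y‖ < ρ := by
        have h2 : dist (b • x) y < ρ - ‖b • x‖ := lt_of_lt_of_le hyd (min_le_right _ _)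
        rw [dist_eq_norm] at h2
        have h3 : ‖y‖ ≤ ‖b • x‖ + ‖b • x - y‖ := by
          have := norm_sub_le (b • x) (b • x - y)
          simpa using this
        linarith
      refine ⟨b⁻¹ • y, ?_, ?_⟩
      · rw [mem_interior]
        refine ⟨(fun z => b • z) ⁻¹' (interior G ∩ Metric.ball 0 ρ), ?_, ?_, ?_⟩
        · rintro z ⟨hz1, hz2⟩
          rw [mem_ball_zero_iff] at hz2
          exact (hsi _ _ hb).1 ((hloc _ hz2).1 (interior_subset hz1))
        · exact (isOpen_interior.inter Metric.isOpen_ball).preimage (continuous_const_smul b)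
        · refine ⟨?_, ?_⟩
          · simpa [smul_smul, hb.ne'] using hy
          · simpa [smul_smul, hb.ne'] using hyn
      · have h2 : dist (b • x) y < b * ε := lt_of_lt_of_le hyd (min_le_left _ _)
        have h3 : b • x - y = b • (x - b⁻¹ • y) := by
          rw [smul_sub, smul_smul, mul_inv_cancel₀ hb.ne', one_smul]
        rw [dist_eq_norm, h3, norm_smul, Real.norm_of_nonneg hb.le] at h2
        rw [dist_eq_norm]
        exact lt_of_mul_lt_mul_left h2 hb.le
  · exact (hloc 0 (by simpa using hρ)).1 hf.mem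
  · rintro x ⟨a, ha, -, h2⟩ hx0
    have h3 : a • x ≠ 0 := smul_ne_zero ha.ne' hx0
    have h4 := hf.lt _ h2 h3
    rw [map_smul, map_zero, smul_eq_mul] at h4
    by_contra h5
    push Not at h5
    nlinarith
  · intro w
    obtain ⟨t, ht, ht1, htw⟩ := exists_scale w (half_pos hρ)
    obtain ⟨r, hr, hrl⟩ := hG.lc (t • w)
    refine ⟨min r (ρ / 2) / (2 * t), by positivity, ?_⟩
    intro z e hz he he2
    rw [lt_div_iff₀ (by positivity)] at hz
    have hz1 : ‖z‖ * (2 * t) < r := lt_of_lt_of_le hz (min_le_left _ _)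
    have hz2 : ‖z‖ * (2 * t) < ρ / 2 := lt_of_lt_of_le hz (min_le_right _ _)
    have he1 : 0 < 1 - e := by linarith
    set x : V d := (t / (1 - e)) • z with hx
    have hxn : ‖x‖ ≤ ‖z‖ * (2 * t) := by
      rw [hx, norm_smul, Real.norm_of_nonneg (by positivity)]
      have h1 : t / (1 - e) ≤ 2 * t := by
        rw [div_le_iff₀ he1]
        nlinarith
      nlinarith [norm_nonneg z]
    have htz : ‖t • z‖ ≤ ‖z‖ * (2 * t) := by
      rw [norm_smul, Real.norm_of_nonneg ht.le]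
      nlinarith [norm_nonneg z]
    have k1 : w + z ∈ C ↔ t • w + t • z ∈ G := by
      rw [← hsi _ t ht, smul_add, hloc]
      calc ‖t • w + t • z‖ ≤ ‖t • w‖ + ‖t • z‖ := norm_add_le _ _
        _ < ρ := by linarith
    have k2 : w + z - e • w ∈ C ↔ t • w + x ∈ G := by
      have h1 : w + z - e • w = ((1 - e) / t) • (t • w + x) := by
        rw [hx, smul_add, smul_smul, smul_smul, div_mul_cancel₀ _ ht.ne']
        have : (1 - e) / t * (t / (1 - e)) = 1 := by
          field_simp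
        rw [this, one_smul, sub_smul, one_smul]
        abel
      rw [h1, hsi _ _ (by positivity), hloc]
      calc ‖t • w + x‖ ≤ ‖t • w‖ + ‖x‖ := norm_add_le _ _
        _ < ρ := by linarith
    rw [k1, k2, hrl x (by linarith) (1 - e) he1 (by linarith)]
    have h2 : (1 - e) • x = t • z := by
      rw [hx, smul_smul]
      congr 1
      field_simp
    rw [h2]

/-- Invariance of the local cone and inclusion. -/
lemma cone_inv {G : Set (V d)} (hG : Reg G) {f : V d →ₗ[ℝ] ℝ} (hf : Vtx G f 0)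
    {L : V d ≃ₗ[ℝ] V d} {S : Finset (V d)} (hT : Tile G L S) (h0 : (0 : V d) ∈ S)
    (hL : Contr L) {C : Set (V d)} {ρ : ℝ} (hρ : 0 < ρ) (hC : IsC C f)
    (hloc : ∀ x : V d, ‖x‖ < ρ → (x ∈ G ↔ x ∈ C)) :
    (∀ x, L.symm x ∈ C ↔ x ∈ C) ∧ G ⊆ C := by
  have h00 : L 0 - 0 = (0 : V d) := by simp
  have hf' : Vtx G (f ∘ₗ (L.symm : V d →ₗ[ℝ] V d)) 0 := by
    have := hf.step hT h0 (by rw [h00]; exact hf.mem)
    rwa [h00] at this
  have hneg : ∀ s ∈ S, s ≠ 0 → -s ∉ G := by
    intro s hs hs0 hmem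
    have h1 := hf'.lt (-s) hmem (neg_ne_zero.2 hs0)
    have h2 : L.symm s ∈ G := by
      rw [hT.union]
      exact ⟨s, hs, by rw [sub_self]; exact hf.mem⟩
    have h3 : L.symm s ≠ 0 := by
      intro h
      apply hs0
      simpa using h
    have h4 := hf.lt _ h2 h3
    simp only [LinearMap.comp_apply, LinearEquiv.coe_coe, map_neg, map_zero] at h1 h4
    linarith
  have e1 : ∀ᶠ x in 𝓝 (0 : V d), ∀ s ∈ S, s ≠ 0 → x - s ∉ G := by
    rw [Finset.eventually_all]
    intro s hs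
    by_cases hs0 : s = 0
    · exact Filter.Eventually.of_forall fun x h => absurd hs0 h
    · have h1 : Gᶜ ∈ 𝓝 (0 - s) := by
        rw [zero_sub]
        exact hG.cpt.isClosed.isOpen_compl.mem_nhds (hneg s hs hs0)
      have h2 : Tendsto (fun x : V d => x - s) (𝓝 0) (𝓝 (0 - s)) :=
        (continuous_id.sub continuous_const).tendsto 0
      filter_upwards [h2 h1] with x hx _
      exact hx
  have e2 : ∀ᶠ x in 𝓝 (0 : V d), ‖x‖ < ρ := by
    have := Metric.ball_mem_nhds (0 : V d) hρ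
    filter_upwards [this] with x hx
    simpa using hx
  have e3 : ∀ᶠ x in 𝓝 (0 : V d), ‖L.symm x‖ < ρ := by
    have h1 : Continuous (fun x : V d => L.symm x) :=
      (L.symm : V d →ₗ[ℝ] V d).continuous_of_finiteDimensional
    have h2 : Tendsto (fun x : V d => L.symm x) (𝓝 0) (𝓝 0) := by
      have := h1.tendsto 0
      simpa using this
    exact h2.eventually e2
  have e4 : ∀ᶠ x in 𝓝 (0 : V d), (L.symm x ∈ C ↔ x ∈ C) := by
    filter_upwards [e1, e2, e3] with x h1 h2 h3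
    rw [← hloc _ h2, ← hloc _ h3, hT.union]
    constructor
    · rintro ⟨s, hs, hx⟩
      by_cases hs0 : s = 0
      · simpa [hs0] using hx
      · exact absurd hx (h1 s hs hs0)
    · intro hx
      exact ⟨0, h0, by simpa using hx⟩
  obtain ⟨δ, hδ, hball⟩ := Metric.eventually_nhds_iff.1 e4
  have hinv : ∀ x, L.symm x ∈ C ↔ x ∈ C := by
    intro x
    obtain ⟨a, ha, -, hax⟩ := exists_scale x hδ
    have h1 := hball (y := a • x) (by simpa [dist_eq_norm] using hax)
    rw [map_smul, hC.smul_iff ha, hC.smul_iff ha] at h1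
    exact h1
  refine ⟨hinv, ?_⟩
  intro x hx
  have hk : ∀ k : ℕ, (L ^ k).symm x ∈ G := by
    intro k
    obtain ⟨T, hT', hT0⟩ := hT.pow k
    rw [hT'.union]
    exact ⟨0, hT0 h0, by simpa using hx⟩
  have hkC : ∀ k : ℕ, ((L ^ k).symm x ∈ C ↔ x ∈ C) := by
    intro k
    induction k with
    | zero => simp; rfl
    | succ k ih =>
      have e : (L ^ (k + 1)).symm x = L.symm ((L ^ k).symm x) := by
        rw [pow_succ']
        have : (L * L ^ k).symm x = (L ^ k).symm (L.symm x) := rfl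
        rw [this]
        have h2 : (L ^ k * L).symm x = L.symm ((L ^ k).symm x) := rfl
        rw [← h2, ← pow_succ, pow_succ']
        rfl
      rw [e, hinv, ih]
  obtain ⟨k, hk'⟩ := ((hL x).eventually e2).exists
  rw [← hkC k]
  exact (hloc _ hk').1 (hk k)

/-- Linear bound on the cone. -/
lemma IsC.bound {C : Set (V d)} {f : V d →ₗ[ℝ] ℝ} (h : IsC C f) :
    ∃ c : ℝ, 0 < c ∧ ∀ x ∈ C, f x ≤ -(c * ‖x‖) := by
  have hf : Continuous f := f.continuous_of_finiteDimensional
  have hK : IsCompact (C ∩ Metric.sphere (0 : V d) 1) :=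
    (isCompact_sphere (0 : V d) 1).inter_left h.closed
  rcases (C ∩ Metric.sphere (0 : V d) 1).eq_empty_or_nonempty with he | hne
  · refine ⟨1, one_pos, ?_⟩
    intro x hx
    by_cases hx0 : x = 0
    · simp [hx0]
    · exfalso
      have hn : 0 < ‖x‖ := norm_pos_iff.2 hx0
      have : ‖x‖⁻¹ • x ∈ C ∩ Metric.sphere (0 : V d) 1 := by
        refine ⟨h.smul x hx _ (by positivity), ?_⟩
        simp [norm_smul, hn.ne']
      rw [he] at this
      exact this
  · obtain ⟨x0, hx0, hmax⟩ := hK.exists_isMaxOn hne hf.continuousOn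
    have hx0n : x0 ≠ 0 := by
      intro h0
      have := hx0.2
      rw [h0] at this
      simp at this
    refine ⟨-f x0, by linarith [h.neg x0 hx0.1 hx0n], ?_⟩
    intro x hx
    by_cases hx1 : x = 0
    · simp [hx1]
    · have hn : 0 < ‖x‖ := norm_pos_iff.2 hx1
      have hm : ‖x‖⁻¹ • x ∈ C ∩ Metric.sphere (0 : V d) 1 := by
        refine ⟨h.smul x hx _ (by positivity), ?_⟩
        simp [norm_smul, hn.ne']
      have := hmax hm
      simp only [Set.mem_ofPred_eq, map_smul, smul_eq_mul] at this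
      rw [inv_mul_le_iff₀ hn] at this
      linarith

end Pool.Agent.R896.PA
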