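import Pool.Agent.R896.PA.Geo2

/-!
The finite signed measure `c` with `1_G = c * 1_C`.
-/

open MeasureTheory Filter Topology

namespace Pool.Agent.R896.PA

variable {d : ℕ}

/-- Indicator as a real function. -/
noncomputable def ind (G : Set (V d)) (x : V d) : ℝ := G.indicator (fun _ => (1 : ℝ)) x

lemma ind_mem {G : Set (V d)} {x : V d} (h : x ∈ G) : ind G x = 1 := by
  simp [ind, h]

lemma ind_not {G : Set (V d)} {x : V d} (h : x ∉ G) : ind G x = 0 := by
  simp [ind, h]

/-- Convolution with a finitely supported weight. -/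
noncomputable def op (c : V d →₀ ℝ) (g : V d → ℝ) (x : V d) : ℝ :=
  c.sum fun y a => a * g (x - y)

/-- Almost everywhere near zero. -/
def Near (P : V d → Prop) : Prop := ∃ ρ > 0, ∀ᵐ z ∂(volume : Measure (V d)), ‖z‖ < ρ → P z

lemma ae_translate {P : V d → Prop} (h : ∀ᵐ z ∂(volume : Measure (V d)), P z) (w : V d) :
    ∀ᵐ z ∂(volume : Measure (V d)), P (z - w) := by
  have := (measurePreserving_sub_right (volume : Measure (V d)) w).quasiMeasurePreserving
  exact this.ae h

/-- The elimination lemma. -/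
lemma kill {ι : Type} [DecidableEq ι] (f : V d →ₗ[ℝ] ℝ) (w : ι → V d) (J : Finset ι) :
    ∀ (g : ι → V d → ℝ) (g0 : V d → ℝ),
    (∀ y ∈ J, f (w y) < 0) →
    (∀ y ∈ J, ∃ r > 0, ∀ (z : V d) (e : ℝ), ‖z‖ < r → 0 ≤ e → e < r →
      g y (z - e • w y) = g y z) →
    (∀ z, 0 < f z → g0 z = 0) →
    Near (fun z => g0 z + ∑ y ∈ J, g y z = 0) →
    Near (fun z => g0 z = 0) := by
  have hfc : Continuous f := f.continuous_of_finiteDimensional
  induction J using Finset.induction_on with
  | empty =>
    intro g g0 _ _ _ h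
    simpa using h
  | insert y1 J hy1 ih =>
    intro g g0 hneg hinv hg0 hnear
    obtain ⟨ρ, hρ, hae⟩ := hnear
    -- common radius
    have hrad : ∃ r > 0, ∀ y ∈ insert y1 J, ∀ (z : V d) (e : ℝ), ‖z‖ < r → 0 ≤ e → e < r →
        g y (z - e • w y) = g y z := by
      have : ∀ K : Finset ι, K ⊆ insert y1 J → ∃ r > 0, ∀ y ∈ K, ∀ (z : V d) (e : ℝ),
          ‖z‖ < r → 0 ≤ e → e < r → g y (z - e • w y) = g y z := by
        intro K
        induction K using Finset.induction_on with
        | empty => intro _; exact ⟨1, one_pos, by simp⟩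
        | insert a K _ ihK =>
          intro hsub
          obtain ⟨r1, hr1, h1⟩ := ihK ((Finset.subset_insert _ _).trans hsub)
          obtain ⟨r2, hr2, h2⟩ := hinv a (hsub (Finset.mem_insert_self _ _))
          refine ⟨min r1 r2, lt_min hr1 hr2, ?_⟩
          intro y hy z e hz he0 he
          rcases Finset.mem_insert.1 hy with rfl | hy
          · exact h2 z e (lt_of_lt_of_le hz (min_le_right _ _)) he0
              (lt_of_lt_of_le he (min_le_right _ _))
          · exact h1 y hy z e (lt_of_lt_of_le hz (min_le_left _ _)) he0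
              (lt_of_lt_of_le he (min_le_left _ _))
      exact this _ subset_rfl
    obtain ⟨r, hr, hr'⟩ := hrad
    obtain ⟨t, ht, -, htw⟩ := exists_scale (w y1) (lt_min (half_pos hr) (half_pos hρ))
    set ε : ℝ := min t (r / 2) with hε
    have hε0 : 0 < ε := lt_min ht (by linarith)
    have hεw : ‖ε • w y1‖ < min (r / 2) (ρ / 2) := by
      refine lt_of_le_of_lt ?_ htw
      rw [norm_smul, norm_smul, Real.norm_of_nonneg hε0.le, Real.norm_of_nonneg ht.le]
      exact mul_le_mul_of_nonneg_right (min_le_left _ _) (norm_nonneg _)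
    have hεr : ‖ε • w y1‖ < r / 2 := lt_of_lt_of_le hεw (min_le_left _ _)
    have hερ : ‖ε • w y1‖ < ρ / 2 := lt_of_lt_of_le hεw (min_le_right _ _)
    have hεr2 : ε < r := lt_of_le_of_lt (min_le_right _ _) (by linarith)
    have key : Near (fun z => (g0 z - g0 (z - ε • w y1))
        + ∑ y ∈ J, (g y z - g y (z - ε • w y1)) = 0) := by
      refine ⟨min (ρ / 2) (r / 2), by positivity, ?_⟩
      filter_upwards [hae, ae_translate hae (ε • w y1)] with z h1 h2 hz
      have hz1 : ‖z‖ < ρ / 2 := lt_of_lt_of_le hz (min_le_left _ _)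
      have hz2 : ‖z‖ < r / 2 := lt_of_lt_of_le hz (min_le_right _ _)
      have h1' := h1 (by linarith)
      have h2' := h2 (lt_of_le_of_lt (norm_sub_le _ _) (by linarith))
      rw [Finset.sum_insert hy1] at h1' h2'
      have h3 := hr' y1 (Finset.mem_insert_self _ _) z ε (by linarith) hε0.le hεr2
      rw [Finset.sum_sub_distrib]
      linarith
    obtain ⟨ρ', hρ', hae'⟩ := ih (fun y z => g y z - g y (z - ε • w y1))
      (fun z => g0 z - g0 (z - ε • w y1))
      (fun y hy => hneg y (Finset.mem_insert_of_mem hy))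
      (by
        intro y hy
        refine ⟨r / 2, by linarith, ?_⟩
        intro z e hz he0 he
        have h1 := hr' y (Finset.mem_insert_of_mem hy) z e (by linarith) he0 (by linarith)
        have h2 := hr' y (Finset.mem_insert_of_mem hy) (z - ε • w y1) e
          (lt_of_le_of_lt (norm_sub_le _ _) (by linarith)) he0 (by linarith)
        have h3 : z - e • w y - ε • w y1 = z - ε • w y1 - e • w y := by abel
        show g y (z - e • w y) - g y (z - e • w y - ε • w y1) = g y z - g y (z - ε • w y1)
        rw [h3, h1, h2])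
      (by
        intro z hz
        have h1 : 0 < f (z - ε • w y1) := by
          rw [map_sub, map_smul, smul_eq_mul]
          have := hneg y1 (Finset.mem_insert_self _ _)
          nlinarith
        show g0 z - g0 (z - ε • w y1) = 0
        rw [hg0 z hz, hg0 _ h1, sub_zero])
      key
    have hlim : ∀ᶠ z in 𝓝 (0 : V d), 0 < f (z - ε • w y1) := by
      have h1 : 0 < f (0 - ε • w y1) := by
        rw [zero_sub, map_neg, map_smul, smul_eq_mul]
        have := hneg y1 (Finset.mem_insert_self _ _)
        nlinarith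
      have h2 : Tendsto (fun z : V d => f (z - ε • w y1)) (𝓝 0) (𝓝 (f (0 - ε • w y1))) :=
        (hfc.comp (continuous_id.sub continuous_const)).tendsto 0
      exact h2.eventually (lt_mem_nhds h1)
    obtain ⟨δ, hδ, hball⟩ := Metric.eventually_nhds_iff.1 hlim
    refine ⟨min ρ' δ, lt_min hρ' hδ, ?_⟩
    filter_upwards [hae'] with z h1 hz
    have h2 := h1 (lt_of_lt_of_le hz (min_le_left _ _))
    have h3 := hball (y := z) (by
      rw [dist_eq_norm, sub_zero]; exact lt_of_lt_of_le hz (min_le_right _ _))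
    have h4 : g0 (z - ε • w y1) = 0 := hg0 _ h3
    have h5 : g0 z - g0 (z - ε • w y1) = 0 := h2
    rw [h4, sub_zero] at h5
    exact h5

/-- Points of the interior of a cone near zero. -/
lemma IsC.pos_near {C : Set (V d)} {f : V d →ₗ[ℝ] ℝ} (h : IsC C f) (ρ : ℝ) (hρ : 0 < ρ) :
    0 < volume (interior C ∩ Metric.ball (0 : V d) ρ) := by
  have h0 : (0 : V d) ∈ closure (interior C) := by
    rw [h.reg]; exact h.zero
  obtain ⟨y, hy, hyd⟩ := Metric.mem_closure_iff.1 h0 ρ hρ
  refine (isOpen_interior.inter Metric.isOpen_ball).measure_pos _ ⟨y, hy, ?_⟩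
  rw [Metric.mem_ball, dist_comm]
  exact hyd

/-- Locality: if `c * 1_C` vanishes near `x0` then `c x0 = 0`. -/
lemma loc {C : Set (V d)} {f : V d →ₗ[ℝ] ℝ} (h : IsC C f) (c : V d →₀ ℝ) (x0 : V d)
    (hn : Near (fun z => op c (ind C) (x0 + z) = 0)) : c x0 = 0 := by
  classical
  set J : Finset (V d) := (c.support.erase x0).filter (fun y => x0 - y ∈ C) with hJ
  set K : Finset (V d) := (c.support.erase x0).filter (fun y => ¬ x0 - y ∈ C) with hK
  have hout : ∀ᶠ z in 𝓝 (0 : V d), ∀ y ∈ K, x0 - y + z ∉ C := by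
    rw [Finset.eventually_all]
    intro y hy
    have hy' : x0 - y ∉ C := (Finset.mem_filter.1 hy).2
    have h1 : Cᶜ ∈ 𝓝 (x0 - y + 0) := by
      rw [add_zero]
      exact h.closed.isOpen_compl.mem_nhds hy'
    have h2 : Tendsto (fun z : V d => x0 - y + z) (𝓝 0) (𝓝 (x0 - y + 0)) :=
      (continuous_const.add continuous_id).tendsto 0
    exact h2 h1
  obtain ⟨δ, hδ, hball⟩ := Metric.eventually_nhds_iff.1 hout
  obtain ⟨ρ, hρ, hae⟩ := hn
  have hexp : ∀ z : V d, ‖z‖ < δ → op c (ind C) (x0 + z)
      = c x0 * ind C z + ∑ y ∈ J, c y * ind C (x0 - y + z) := by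
    intro z hz
    have h1 : op c (ind C) (x0 + z) = ∑ y ∈ c.support, c y * ind C (x0 - y + z) := by
      unfold op Finsupp.sum
      refine Finset.sum_congr rfl fun y _ => ?_
      show c y * ind C (x0 + z - y) = c y * ind C (x0 - y + z)
      rw [sub_add_eq_add_sub]
    have h2 : ∑ y ∈ c.support, c y * ind C (x0 - y + z)
        = c x0 * ind C z + ∑ y ∈ c.support.erase x0, c y * ind C (x0 - y + z) := by
      by_cases hx : x0 ∈ c.support
      · rw [← Finset.add_sum_erase _ _ hx, sub_self, zero_add]
      · rw [Finset.erase_eq_of_notMem hx, Finsupp.notMem_support_iff.1 hx]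
        simp
    rw [h1, h2]
    congr 1
    rw [← Finset.sum_filter_add_sum_filter_not (c.support.erase x0) (fun y => x0 - y ∈ C)]
    have h3 : ∑ y ∈ K, c y * ind C (x0 - y + z) = 0 := by
      refine Finset.sum_eq_zero fun y hy => ?_
      have := hball (y := z) (by simpa [dist_eq_norm] using hz) y hy
      rw [ind_not this, mul_zero]
    rw [h3, add_zero]
  have hk := kill f (fun y : V d => x0 - y) J (fun y z => c y * ind C (x0 - y + z))
    (fun z => c x0 * ind C z)
    (by
      intro y hy
      have h1 := Finset.mem_filter.1 hy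
      have h2 := Finset.mem_erase.1 h1.1
      exact h.neg _ h1.2 (sub_ne_zero.2 (Ne.symm h2.1)))
    (by
      intro y hy
      obtain ⟨r, hr, hr2⟩ := h.inv (x0 - y)
      refine ⟨min r (1 / 2), by positivity, ?_⟩
      intro z e hz he0 he
      have h1 := hr2 z e (lt_of_lt_of_le hz (min_le_left _ _)) he0
        (le_of_lt (lt_of_lt_of_le he (min_le_right _ _)))
      have h2 : x0 - y + (z - e • (x0 - y)) = x0 - y + z - e • (x0 - y) := by abel
      show c y * ind C (x0 - y + (z - e • (x0 - y))) = c y * ind C (x0 - y + z)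
      rw [h2]
      by_cases hz1 : x0 - y + z ∈ C
      · rw [ind_mem hz1, ind_mem (h1.1 hz1)]
      · rw [ind_not hz1, ind_not (fun h5 => hz1 (h1.2 h5))])
    (by
      intro z hz
      have : z ∉ C := fun h5 => by
        have := h.nonpos h5
        linarith
      show c x0 * ind C z = 0
      rw [ind_not this, mul_zero])
    (by
      refine ⟨min ρ δ, lt_min hρ hδ, ?_⟩
      filter_upwards [hae] with z h1 hz
      rw [← hexp z (lt_of_lt_of_le hz (min_le_right _ _))]
      exact h1 (lt_of_lt_of_le hz (min_le_left _ _)))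
  obtain ⟨ρ', hρ', hae'⟩ := hk
  by_contra hcx
  have hpos := h.pos_near ρ' hρ'
  have hzero : volume (interior C ∩ Metric.ball (0 : V d) ρ') = 0 := by
    refine measure_mono_null ?_ (ae_iff.1 hae')
    rintro z ⟨hz1, hz2⟩ hcon
    rw [mem_ball_zero_iff] at hz2
    have h1 : c x0 * ind C z = 0 := hcon hz2
    rw [ind_mem (interior_subset hz1), mul_one] at h1
    exact hcx h1
  rw [hzero] at hpos
  exact lt_irrefl _ hpos

lemma op_zero_ae_congr {c : V d →₀ ℝ} {g h : V d → ℝ} {f : V d →ₗ[ℝ] ℝ} {R : ℝ}
    (hc : ∀ y ∈ c.support, f y ≤ 0)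
    (hgh : ∀ᵐ x ∂(volume : Measure (V d)), -R < f x → g x = h x) :
    ∀ᵐ x ∂(volume : Measure (V d)), -R < f x → op c g x = op c h x := by
  have h1 : ∀ᵐ x ∂(volume : Measure (V d)), ∀ y ∈ c.support, -R < f (x - y) →
      g (x - y) = h (x - y) := by
    refine (Finset.eventually_all _).2 ?_
    intro y _
    exact ae_translate hgh y
  filter_upwards [h1] with x hx hR
  unfold op Finsupp.sum
  refine Finset.sum_congr rfl fun y hy => ?_
  show c y * g (x - y) = c y * h (x - y)
  rw [hx y hy]
  rw [map_sub]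
  have := hc y hy
  linarith

/-- The identity on half spaces. -/
lemma q_local {G : Set (V d)} {f : V d →ₗ[ℝ] ℝ} (hf : Vtx G f 0)
    {L : V d ≃ₗ[ℝ] V d} {S : Finset (V d)} (hT : Tile G L S) (h0 : (0 : V d) ∈ S)
    (hL : Contr L) {C : Set (V d)} {ρ : ℝ} (hρ : 0 < ρ) (hC : IsC C f)
    (hloc : ∀ x : V d, ‖x‖ < ρ → (x ∈ G ↔ x ∈ C))
    (hinv : ∀ x, L.symm x ∈ C ↔ x ∈ C) (hsub : G ⊆ C) (R : ℝ) :
    ∃ c : V d →₀ ℝ, (∀ y ∈ c.support, f y ≤ 0) ∧
      ∀ᵐ x ∂(volume : Measure (V d)), -R < f x → ind G x = op c (ind C) x := by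
  classical
  obtain ⟨b, hb, hbound⟩ := hC.bound
  obtain ⟨k, hk⟩ := hL.unif (R / b) ρ hρ
  obtain ⟨T, hT', hT0⟩ := hT.pow k
  have hT0' := hT0 h0
  have hinvk : ∀ x, ((L ^ k).symm x ∈ C ↔ x ∈ C) := by
    have : ∀ (j : ℕ) (x : V d), ((L ^ j).symm x ∈ C ↔ x ∈ C) := by
      intro j
      induction j with
      | zero => intro x; simp; rfl
      | succ j ih =>
        intro x
        have e : (L ^ (j + 1)).symm x = (L ^ j).symm (L.symm x) := by
          rw [pow_succ']
          rfl
        rw [e, ih, hinv]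
    exact this k
  have hTC : ∀ s ∈ T, s ∈ C := by
    intro s hs
    rw [← hinvk s]
    apply hsub
    rw [hT'.union]
    exact ⟨s, hs, by rw [sub_self]; exact hf.mem⟩
  set T' : Finset (V d) := T.erase 0 with hT'def
  have hTneg : ∀ s ∈ T', f s < 0 := by
    intro s hs
    have := Finset.mem_erase.1 hs
    exact hC.neg s (hTC s this.2) this.1
  -- uniform negativity
  have hunif : ∃ δ : ℝ, 0 < δ ∧ ∀ s ∈ T', f s ≤ -δ := by
    rcases T'.eq_empty_or_nonempty with he | hne
    · exact ⟨1, one_pos, by simp [he]⟩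
    · obtain ⟨s0, hs0, hmax⟩ := T'.exists_max_image (fun s => f s) hne
      exact ⟨-f s0, by linarith [hTneg s0 hs0], fun s hs => by linarith [hmax s hs]⟩
  obtain ⟨δ, hδ, hδs⟩ := hunif
  -- the cone is tiled on the half space
  have htile : ∀ᵐ x ∂(volume : Measure (V d)), -R < f x →
      ind C x = ind G x + ∑ s ∈ T', ind G (x - s) := by
    have hd : ∀ᵐ x ∂(volume : Measure (V d)), ∀ s ∈ T, ∀ t ∈ T, s ≠ t →
        ¬ (x - s ∈ G ∧ x - t ∈ G) := by
      refine (Finset.eventually_all _).2 ?_
      intro s hs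
      refine (Finset.eventually_all _).2 ?_
      intro t ht
      by_cases hst : s = t
      · exact Filter.Eventually.of_forall fun x h => absurd hst h
      · have := hT'.disj s hs t ht hst
        rw [ae_iff]
        refine measure_mono_null ?_ this
        intro x hx
        simp only [Set.mem_ofPred_eq] at hx ⊢
        push Not at hx
        exact hx.2
    filter_upwards [hd] with x hx hR
    have e1 : ind G x + ∑ s ∈ T', ind G (x - s) = ∑ s ∈ T, ind G (x - s) := by
      rw [← Finset.add_sum_erase T _ hT0', sub_zero]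
    rw [e1]
    by_cases hxC : x ∈ C
    · have hxn : ‖x‖ ≤ R / b := by
        rw [le_div_iff₀ hb]
        have := hbound x hxC
        linarith
      have h1 : (L ^ k).symm x ∈ G := (hloc _ (hk x hxn)).2 ((hinvk x).2 hxC)
      obtain ⟨s, hs, hxs⟩ := (hT'.union x).1 h1
      rw [ind_mem hxC, Finset.sum_eq_single s, ind_mem hxs]
      · intro t ht hts
        exact ind_not fun h2 => hx s hs t ht (Ne.symm hts) ⟨hxs, h2⟩
      · intro h2
        exact absurd hs h2
    · rw [ind_not hxC, Finset.sum_eq_zero]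
      intro s hs
      refine ind_not fun h2 => hxC ?_
      rw [← hinvk x]
      apply hsub
      rw [hT'.union]
      exact ⟨s, hs, h2⟩
  -- the inverse
  have hm : ∀ m : ℕ, ∃ (c : V d →₀ ℝ) (g : V d → ℝ), (∀ y ∈ c.support, f y ≤ 0) ∧
      (∀ x, -(m * δ) < f x → g x = 0) ∧
      (∀ h : V d → ℝ, (∀ x, h x = ind G x + ∑ s ∈ T', ind G (x - s)) →
        ∀ x, op c h x = ind G x - g x) := by
    intro m
    induction m with
    | zero =>
      refine ⟨0, ind G, by simp, ?_, ?_⟩
      · intro x hx
        refine ind_not fun h1 => ?_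
        have := hC.nonpos (hsub h1)
        simp at hx
        linarith
      · intro h _ x
        simp [op]
    | succ m ih =>
      obtain ⟨c, g, hc, hg, hop⟩ := ih
      refine ⟨Finsupp.single 0 1 - ∑ s ∈ T', c.mapDomain (fun y => s + y),
        fun x => - ∑ s ∈ T', g (x - s), ?_, ?_, ?_⟩
      · intro y hy
        by_contra hpos
        push Not at hpos
        have h1 : (Finsupp.single (0 : V d) (1 : ℝ)) y = 0 := by
          rw [Finsupp.single_apply, if_neg]
          rintro rfl
          simp at hpos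
        have h2 : (∑ s ∈ T', c.mapDomain (fun y => s + y)) y = 0 := by
          rw [Finsupp.finsetSum_apply]
          refine Finset.sum_eq_zero fun s hs => ?_
          by_contra h3
          have h4 := Finsupp.mapDomain_support (Finsupp.mem_support_iff.2 h3)
          obtain ⟨u, hu, rfl⟩ := Finset.mem_image.1 h4
          rw [map_add] at hpos
          linarith [hc u hu, hTneg s hs]
        apply Finsupp.mem_support_iff.1 hy
        rw [Finsupp.sub_apply, h1, h2, sub_zero]
      · intro x hx
        have : ∑ s ∈ T', g (x - s) = 0 := by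
          refine Finset.sum_eq_zero fun s hs => hg _ ?_
          rw [map_sub]
          push_cast at hx
          linarith [hδs s hs]
        show - ∑ s ∈ T', g (x - s) = 0
        rw [this, neg_zero]
      · intro h hh x
        have e1 : op (Finsupp.single 0 1 - ∑ s ∈ T', c.mapDomain (fun y => s + y)) h x
            = h x - ∑ s ∈ T', op c h (x - s) := by
          unfold op
          rw [Finsupp.sum_sub_index (by intros; ring)]
          congr 1
          · simp
          · rw [← Finsupp.sum_finsetSum_index (by intros; simp) (by intros; ring)]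
            refine Finset.sum_congr rfl fun s _ => ?_
            rw [Finsupp.sum_mapDomain_index (by intros; simp) (by intros; ring)]
            refine Finsupp.sum_congr fun y _ => ?_
            rw [sub_sub]
        rw [e1, hh x]
        have e2 : ∑ s ∈ T', op c h (x - s) = ∑ s ∈ T', (ind G (x - s) - g (x - s)) :=
          Finset.sum_congr rfl fun s _ => hop h hh (x - s)
        rw [e2, Finset.sum_sub_distrib]
        ring
  obtain ⟨m, hmR⟩ := exists_nat_gt (R / δ)
  obtain ⟨c, g, hc, hg, hop⟩ := hm m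
  refine ⟨c, hc, ?_⟩
  have h1 := op_zero_ae_congr (c := c) (f := f) (R := R) hc htile
  filter_upwards [h1] with x hx hR
  rw [hx hR, hop (fun x => ind G x + ∑ s ∈ T', ind G (x - s)) (fun x => rfl) x, hg x, sub_zero]
  rw [div_lt_iff₀ hδ] at hmR
  linarith

end Pool.Agent.R896.PA
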