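import Pool.Agent.R896.PA.Geo3

/-!
The finite signed measure `c`, final form.
-/

open MeasureTheory Filter Topology

namespace Pool.Agent.R896.PA

variable {d : ℕ}

lemma op_sub (c c' : V d →₀ ℝ) (g : V d → ℝ) (x : V d) :
    op (c - c') g x = op c g x - op c' g x := by
  unfold op
  rw [Finsupp.sum_sub_index (by intros; ring)]

lemma op_add (c c' : V d →₀ ℝ) (g : V d → ℝ) (x : V d) :
    op (c + c') g x = op c g x + op c' g x := by
  unfold op
  rw [Finsupp.sum_add_index' (by intros; simp) (by intros; ring)]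

lemma op_single (y : V d) (a : ℝ) (g : V d → ℝ) (x : V d) :
    op (Finsupp.single y a) g x = a * g (x - y) := by
  unfold op
  rw [Finsupp.sum_single_index (by simp)]

lemma near_of_ae {P : V d → Prop} (x0 : V d) {U : Set (V d)} (hU : IsOpen U) (hx : x0 ∈ U)
    (h : ∀ᵐ x ∂(volume : Measure (V d)), x ∈ U → P x) : Near (fun z => P (x0 + z)) := by
  obtain ⟨ρ, hρ, hb⟩ := Metric.isOpen_iff.1 hU x0 hx
  refine ⟨ρ, hρ, ?_⟩
  have h1 := ae_translate h (-x0)
  filter_upwards [h1] with z hz hzn
  have e : z - -x0 = x0 + z := by rw [sub_neg_eq_add, add_comm]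
  rw [e] at hz
  apply hz
  apply hb
  rw [Metric.mem_ball, dist_eq_norm]
  simpa using hzn

lemma q_exists {G : Set (V d)} (hG : Reg G) {f : V d →ₗ[ℝ] ℝ} (hf : Vtx G f 0)
    {L : V d ≃ₗ[ℝ] V d} {S : Finset (V d)} (hT : Tile G L S) (h0 : (0 : V d) ∈ S)
    (hL : Contr L) {C : Set (V d)} {ρ : ℝ} (hρ : 0 < ρ) (hC : IsC C f)
    (hloc : ∀ x : V d, ‖x‖ < ρ → (x ∈ G ↔ x ∈ C))
    (hinv : ∀ x, L.symm x ∈ C ↔ x ∈ C) (hsub : G ⊆ C) :
    ∃ c : V d →₀ ℝ, (∀ y ∈ c.support, y ∈ G) ∧ c 0 = 1 ∧
      ∀ᵐ x ∂(volume : Measure (V d)), ind G x = op c (ind C) x := by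
  classical
  have hfc : Continuous f := f.continuous_of_finiteDimensional
  obtain ⟨R0, hR0, hR0'⟩ : ∃ R0 : ℝ, 0 < R0 ∧ ∀ x ∈ G, -R0 < f x := by
    obtain ⟨m, hm⟩ := (hG.cpt.image hfc).bddBelow
    refine ⟨|m| + 1, by positivity, fun x hx => ?_⟩
    have h1 := hm (Set.mem_image_of_mem f hx)
    have h2 := neg_abs_le m
    linarith
  have hA : ∀ R : ℝ, ∃ c : V d →₀ ℝ, (∀ y ∈ c.support, y ∈ G) ∧
      ∀ᵐ x ∂(volume : Measure (V d)), -R < f x → ind G x = op c (ind C) x := by
    intro R
    obtain ⟨c, hc, hae⟩ := q_local hf hT h0 hL hρ hC hloc hinv hsub R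
    refine ⟨c.filter (fun y => y ∈ G), ?_, ?_⟩
    · intro y hy
      rw [Finsupp.support_filter, Finset.mem_filter] at hy
      exact hy.2
    · have hfar : ∀ y ∈ c.support, y ∉ G → f y ≤ -R := by
        intro y hy hyG
        by_contra hcon
        push Not at hcon
        have hU : IsOpen (Gᶜ ∩ {x | -R < f x}) :=
          hG.cpt.isClosed.isOpen_compl.inter (isOpen_lt continuous_const hfc)
        have hn := near_of_ae (P := fun x => op c (ind C) x = 0) y hU ⟨hyG, hcon⟩
          (by
            filter_upwards [hae] with x hx hxU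
            rw [← hx hxU.2, ind_not hxU.1])
        exact (Finsupp.mem_support_iff.1 hy) (loc hC c y hn)
      filter_upwards [hae] with x hx hR
      rw [hx hR]
      have h1 : op c (ind C) x = op (c.filter (fun y => y ∈ G)) (ind C) x
          + op (c.filter (fun y => ¬ y ∈ G)) (ind C) x := by
        rw [← op_add, Finsupp.filter_add_filter_not]
      rw [h1]
      have h2 : op (c.filter (fun y => ¬ y ∈ G)) (ind C) x = 0 := by
        unfold op Finsupp.sum
        refine Finset.sum_eq_zero fun y hy => ?_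
        rw [Finsupp.support_filter, Finset.mem_filter] at hy
        have h3 := hfar y hy.1 hy.2
        have h4 : x - y ∉ C := by
          intro h5
          have := hC.nonpos h5
          rw [map_sub] at this
          linarith
        show _ * ind C (x - y) = 0
        rw [ind_not h4, mul_zero]
      rw [h2, add_zero]
  obtain ⟨c, hcG, hc⟩ := hA (R0 + 1)
  have hall : ∀ n : ℕ, ∀ᵐ x ∂(volume : Measure (V d)), -(R0 + 1 + n) < f x →
      ind G x = op c (ind C) x := by
    intro n
    obtain ⟨c', hc'G, hc'⟩ := hA (R0 + 1 + n)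
    have hz : c' - c = 0 := by
      ext y
      rw [Finsupp.coe_zero, Pi.zero_apply]
      by_cases hy : y ∈ G
      · have hU : IsOpen {x | -(R0 + 1) < f x} := isOpen_lt continuous_const hfc
        refine loc hC _ y (near_of_ae (P := fun x => op (c' - c) (ind C) x = 0) y hU ?_ ?_)
        · show -(R0 + 1) < f y
          linarith [hR0' y hy]
        · filter_upwards [hc, hc'] with x h1 h2 hx
          have hx' : -(R0 + 1) < f x := hx
          have hn : (0 : ℝ) ≤ n := Nat.cast_nonneg n
          rw [op_sub, ← h1 hx', ← h2 (by linarith), sub_self]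
      · rw [Finsupp.sub_apply]
        have h1 : c' y = 0 := by
          by_contra h
          exact hy (hc'G y (Finsupp.mem_support_iff.2 h))
        have h2 : c y = 0 := by
          by_contra h
          exact hy (hcG y (Finsupp.mem_support_iff.2 h))
        rw [h1, h2, sub_zero]
    have : c' = c := sub_eq_zero.1 hz
    rw [this] at hc'
    exact hc'
  have hfin : ∀ᵐ x ∂(volume : Measure (V d)), ind G x = op c (ind C) x := by
    have := ae_all_iff.2 hall
    filter_upwards [this] with x hx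
    obtain ⟨n, hn⟩ := exists_nat_gt (-(f x))
    exact hx n (by linarith)
  refine ⟨c, hcG, ?_, hfin⟩
  obtain ⟨Z, hZ⟩ : ∃ Z : V d →₀ ℝ, Z = c - Finsupp.single (0 : V d) (1 : ℝ) := ⟨_, rfl⟩
  have h1 : Z 0 = 0 := by
    refine loc hC Z 0 (near_of_ae (P := fun x => op Z (ind C) x = 0) 0
      (U := Metric.ball 0 ρ) Metric.isOpen_ball (Metric.mem_ball_self hρ) ?_)
    filter_upwards [hfin] with x hx hxb
    rw [mem_ball_zero_iff] at hxb
    rw [hZ, op_sub, op_single, ← hx, sub_zero, one_mul]
    by_cases hxG : x ∈ G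
    · rw [ind_mem hxG, ind_mem ((hloc x hxb).1 hxG), sub_self]
    · rw [ind_not hxG, ind_not (fun h => hxG ((hloc x hxb).2 h)), sub_self]
  rw [hZ, Finsupp.sub_apply, Finsupp.single_eq_same] at h1
  linarith

end Pool.Agent.R896.PA
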