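import Pool.Agent.R896.PA.Main

/-!
From the matrix formulation to the internal one.
-/

open MeasureTheory Filter Topology

namespace Pool.Agent.R896.PA

variable {d : ℕ}

/-- Locally conical, filter form. -/
def LC' (G : Set (V d)) : Prop :=
  ∀ v : V d, ∀ᶠ x in 𝓝 (0 : V d), ∀ a : ℝ, 0 < a → a ≤ 1 → (v + x ∈ G ↔ v + a • x ∈ G)

lemma LC'.lc {G : Set (V d)} (h : LC' G) : LC G := by
  intro v
  obtain ⟨r, hr, hb⟩ := Metric.eventually_nhds_iff.1 (h v)
  exact ⟨r, hr, fun x hx => hb (by simpa [dist_eq_norm] using hx)⟩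

lemma halfspace_lc (n : V d) (b : ℝ) : LC' {x : V d | n ⬝ᵥ x ≤ b} := by
  intro v
  have hc : Continuous (dotL n) := (dotL n).continuous_of_finiteDimensional
  have ht : Tendsto (fun x : V d => |dotL n x|) (𝓝 0) (𝓝 0) := by
    have := (hc.tendsto 0).abs
    simpa using this
  have hexp : ∀ (x : V d) (a : ℝ), n ⬝ᵥ (v + a • x) = n ⬝ᵥ v + a * (n ⬝ᵥ x) := by
    intro x a
    rw [dotProduct_add, dotProduct_smul, smul_eq_mul]
  have hexp1 : ∀ x : V d, n ⬝ᵥ (v + x) = n ⬝ᵥ v + n ⬝ᵥ x := fun x => dotProduct_add _ _ _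
  rcases lt_trichotomy (n ⬝ᵥ v) b with h | h | h
  · have h1 : 0 < b - n ⬝ᵥ v := by linarith
    filter_upwards [ht.eventually (gt_mem_nhds h1)] with x hx a ha ha1
    have hx' : |n ⬝ᵥ x| < b - n ⬝ᵥ v := hx
    obtain ⟨h2, h3⟩ := abs_lt.1 hx'
    show n ⬝ᵥ (v + x) ≤ b ↔ n ⬝ᵥ (v + a • x) ≤ b
    rw [hexp, hexp1]
    constructor
    · intro _
      nlinarith
    · intro _
      linarith
  · refine Eventually.of_forall fun x a ha ha1 => ?_
    show n ⬝ᵥ (v + x) ≤ b ↔ n ⬝ᵥ (v + a • x) ≤ b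
    rw [hexp, hexp1, h]
    constructor
    · intro h2
      nlinarith
    · intro h2
      by_contra h3
      push Not at h3
      nlinarith
  · have h1 : 0 < n ⬝ᵥ v - b := by linarith
    filter_upwards [ht.eventually (gt_mem_nhds h1)] with x hx a ha ha1
    have hx' : |n ⬝ᵥ x| < n ⬝ᵥ v - b := hx
    obtain ⟨h2, h3⟩ := abs_lt.1 hx'
    show n ⬝ᵥ (v + x) ≤ b ↔ n ⬝ᵥ (v + a • x) ≤ b
    rw [hexp, hexp1]
    constructor
    · intro _
      linarith
    · intro _
      nlinarith

lemma LC'.iInter {m : ℕ} {G : Fin m → Set (V d)} (h : ∀ j, LC' (G j)) :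
    LC' {x | ∀ j, x ∈ G j} := by
  intro v
  filter_upwards [eventually_all.2 fun j => h j v] with x hx a ha ha1
  exact forall_congr' fun j => hx j a ha ha1

lemma LC'.iUnion {m : ℕ} {G : Fin m → Set (V d)} (h : ∀ j, LC' (G j)) :
    LC' (⋃ j, G j) := by
  intro v
  filter_upwards [eventually_all.2 fun j => h j v] with x hx a ha ha1
  rw [Set.mem_iUnion, Set.mem_iUnion]
  exact exists_congr fun j => hx j a ha ha1

/-- The linear automorphism attached to an invertible matrix. -/
noncomputable def matL (M : Matrix (Fin d) (Fin d) ℝ) (h : IsUnit M.det) : V d ≃ₗ[ℝ] V d :=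
  M.toLinearEquiv' (M.invertibleOfIsUnitDet h)

lemma matL_symm_apply (M : Matrix (Fin d) (Fin d) ℝ) (h : IsUnit M.det) (x : V d) :
    (matL M h).symm x = M⁻¹.mulVec x := by
  letI := M.invertibleOfIsUnitDet h
  have h1 : (matL M h).symm x = (⅟M).mulVec x := rfl
  rw [h1, Matrix.invOf_eq_nonsing_inv]

lemma matL_contr (M : Matrix (Fin d) (Fin d) ℝ) (h : IsUnit M.det)
    (hM : ∀ x : V d, Tendsto (fun k : ℕ => (M⁻¹ ^ k).mulVec x) atTop (𝓝 0)) :
    Contr (matL M h) := by
  intro x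
  refine (hM x).congr fun k => ?_
  have : ∀ (k : ℕ) (x : V d), ((matL M h) ^ k).symm x = (M⁻¹ ^ k).mulVec x := by
    intro k
    induction k with
    | zero => intro x; simp; rfl
    | succ k ih =>
      intro x
      have e : ((matL M h) ^ (k + 1)).symm x = ((matL M h) ^ k).symm ((matL M h).symm x) := by
        rw [pow_succ']
        rfl
      rw [e, ih, matL_symm_apply, Matrix.mulVec_mulVec, pow_succ]
  exact (this k x).symm

theorem attractor_box (hE : StmtEXP) (hPhi : StmtPHI) (hProd : StmtPROD) (hP : StmtPOWER)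
    (hM : StmtMOM) (hF : StmtFACTOR) (hI : StmtIDENT) (hD : StmtDIAG)
    {G : Set (V d)} (hcpt : IsCompact G) (hne : G.Nonempty) (hreg : closure (interior G) = G)
    (hconn : IsPreconnected (interior G)) (hlc : LC' G)
    (M : Matrix (Fin d) (Fin d) ℝ) (S : Finset (V d)) (hexp : Expanding M)
    (hG : G = ⋃ s ∈ S, (fun x => M⁻¹.mulVec (x + s)) '' G)
    (hdisj : ∀ s ∈ S, ∀ t ∈ S, s ≠ t → volume (((fun x => M⁻¹.mulVec (x + s)) '' G)
      ∩ ((fun x => M⁻¹.mulVec (x + t)) '' G)) = 0) :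
    ∃ (B : V d ≃ₗ[ℝ] V d) (v : V d), G = (fun x => B x + v) '' Set.Icc 0 1 := by
  obtain ⟨hdet, hcon⟩ := hE d M hexp
  have hreg' : Reg G := ⟨hcpt, hne, hreg, hlc.lc⟩
  have hpiece : ∀ (s x : V d), (matL M hdet).symm x ∈ ((fun x => M⁻¹.mulVec (x + s)) '' G)
      ↔ x - s ∈ G := by
    intro s x
    constructor
    · rintro ⟨y, hy, hyx⟩
      have h1 : (matL M hdet).symm (y + s) = (matL M hdet).symm x := by
        rw [matL_symm_apply]
        exact hyx
      have h2 := (matL M hdet).symm.injective h1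
      rw [← h2]
      simpa using hy
    · intro h
      refine ⟨x - s, h, ?_⟩
      show M⁻¹.mulVec (x - s + s) = _
      rw [matL_symm_apply, sub_add_cancel]
  have hT : Tile G (matL M hdet) S := by
    constructor
    · intro x
      constructor
      · intro h
        rw [hG] at h
        obtain ⟨s, hs, hx⟩ := Set.mem_iUnion₂.1 h
        exact ⟨s, hs, (hpiece s x).1 hx⟩
      · rintro ⟨s, hs, hx⟩
        rw [hG]
        exact Set.mem_iUnion₂.2 ⟨s, hs, (hpiece s x).2 hx⟩
    · intro s hs t ht hst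
      have h0 := null_preimage (matL M hdet).symm (hdisj s hs t ht hst)
      refine measure_mono_null ?_ h0
      intro x hx
      exact ⟨(hpiece s x).2 hx.1, (hpiece t x).2 hx.2⟩
  obtain ⟨A, v, a, ha, hbox⟩ := main hPhi hProd hP hM hF hI hD hreg' hconn hT
    (matL_contr M hdet hcon)
  set Dg : V d ≃ₗ[ℝ] V d := LinearEquiv.piCongrRight
    (fun i => LinearEquiv.smulOfNeZero ℝ ℝ (a i) (ha i).ne') with hDg
  have hDga : ∀ (u : V d) (i : Fin d), Dg u i = a i * u i := fun u i => rfl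
  refine ⟨Dg.trans A, v, ?_⟩
  ext x
  rw [hbox]
  constructor
  · intro h
    refine ⟨fun i => A.symm (x - v) i / a i, ⟨?_, ?_⟩, ?_⟩
    · intro i
      exact div_nonneg (h i).1 (ha i).le
    · intro i
      exact (div_le_one (ha i)).2 (h i).2
    · show A (Dg _) + v = x
      have : Dg (fun i => A.symm (x - v) i / a i) = A.symm (x - v) := by
        funext i
        rw [hDga]
        exact mul_div_cancel₀ _ (ha i).ne'
      rw [this, LinearEquiv.apply_symm_apply]
      simp
  · rintro ⟨u, ⟨hu0, hu1⟩, rfl⟩ i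
    have : A.symm ((fun x => (Dg.trans A) x + v) u - v) = Dg u := by
      show A.symm (A (Dg u) + v - v) = Dg u
      rw [add_sub_cancel_right, LinearEquiv.symm_apply_apply]
    rw [this, hDga]
    have h0 : 0 ≤ u i := hu0 i
    have h1 : u i ≤ 1 := hu1 i
    have h2 := ha i
    constructor
    · positivity
    · nlinarith

end Pool.Agent.R896.PA
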