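import Pool.Agent.R896.PA.Defs

set_option autoImplicit false
open MeasureTheory Filter Topology Set

namespace Pool.Agent.R896.PA

namespace Ident

open ProbabilityTheory

theorem mem_int {Ω₀ : Type*} {m₀ : MeasurableSpace Ω₀} {ν : Measure Ω₀} {Z : Ω₀ → ℝ} {ε : ℝ}
    (hZ : ∀ s : ℝ, |s| < ε → Integrable (fun ω => Real.exp (s * Z ω)) ν) (s : ℝ) (hs : |s| < ε) :
    s ∈ interior (integrableExpSet Z ν) := by
  rw [mem_interior]
  refine ⟨Ioo (-ε) ε, ?_, isOpen_Ioo, abs_lt.1 hs⟩
  intro t ht
  exact hZ t (abs_lt.2 ht)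

theorem cmgf_eq {Ω Ω' : Type*} {mΩ : MeasurableSpace Ω} {mΩ' : MeasurableSpace Ω'}
    {μ : Measure Ω} {μ' : Measure Ω'} {X : Ω → ℝ} {Y : Ω' → ℝ} {ε : ℝ} (hε : 0 < ε)
    (hX : ∀ s : ℝ, |s| < ε → Integrable (fun ω => Real.exp (s * X ω)) μ)
    (hY : ∀ s : ℝ, |s| < ε → Integrable (fun ω => Real.exp (s * Y ω)) μ')
    (h : ∀ s : ℝ, |s| < ε → ∫ ω, Real.exp (s * X ω) ∂μ = ∫ ω, Real.exp (s * Y ω) ∂μ') :
    complexMGF X μ Complex.I = complexMGF Y μ' Complex.I := by
  set U : Set ℂ := {z | |z.re| < ε} with hU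
  have hUc : Convex ℝ U := by
    have : U = Complex.reLm ⁻¹' (Ioo (-ε) ε) := by
      ext z
      simp [hU, abs_lt]
    rw [this]
    exact (convex_Ioo _ _).linear_preimage _
  have hXa : AnalyticOnNhd ℂ (complexMGF X μ) U :=
    analyticOnNhd_complexMGF.mono fun z hz => mem_int hX _ hz
  have hYa : AnalyticOnNhd ℂ (complexMGF Y μ') U :=
    analyticOnNhd_complexMGF.mono fun z hz => mem_int hY _ hz
  have h0 : (0 : ℂ) ∈ U := by simp [hU, hε]
  have hfreq : ∃ᶠ z : ℂ in 𝓝[≠] 0, complexMGF X μ z = complexMGF Y μ' z := by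
    have h_real : ∃ᶠ x : ℝ in 𝓝[≠] 0, complexMGF X μ x = complexMGF Y μ' x := by
      refine Eventually.frequently ?_
      have : ∀ᶠ x : ℝ in 𝓝 0, |x| < ε := by
        have h1 : Ioo (-ε) ε ∈ 𝓝 (0 : ℝ) := Ioo_mem_nhds (by linarith) hε
        filter_upwards [h1] with x hx
        exact abs_lt.2 hx
      filter_upwards [nhdsWithin_le_nhds this] with x hx
      rw [complexMGF_ofReal, complexMGF_ofReal]
      have := h x hx
      simp only [mgf]
      exact_mod_cast this
    rw [frequently_iff_seq_forall] at h_real ⊢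
    obtain ⟨xs, hx_tendsto, hx_eq⟩ := h_real
    refine ⟨fun n => xs n, ?_, fun n => ?_⟩
    · rw [tendsto_nhdsWithin_iff] at hx_tendsto ⊢
      constructor
      · have := (Complex.continuous_ofReal.tendsto 0).comp hx_tendsto.1
        rw [Complex.ofReal_zero] at this
        exact this
      · simpa using hx_tendsto.2
    · simp [hx_eq]
  have hI : Complex.I ∈ U := by simp [hU, hε]
  exact hXa.eqOn_of_preconnected_of_frequently_eq hYa hUc.isPreconnected h0 hfreq hI

/-- weighted measures -/
noncomputable def wd {α : Type*} [MeasurableSpace α] (ν : Measure α) (h : α → ℝ) : Measure α :=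
  ν.withDensity (fun x => ((h x).toNNReal : ENNReal))

theorem wd_integrable {α : Type*} [MeasurableSpace α] {ν : Measure α} {h : α → ℝ}
    (hm : Measurable h) (hp : ∀ x, 0 < h x) {g : α → ℝ} :
    Integrable g (wd ν h) ↔ Integrable (fun x => h x * g x) ν := by
  unfold wd
  rw [integrable_withDensity_iff_integrable_smul hm.real_toNNReal]
  refine integrable_congr (Eventually.of_forall fun x => ?_)
  simp [NNReal.smul_def, Real.coe_toNNReal _ (hp x).le]

theorem wd_integral {α : Type*} [MeasurableSpace α] {ν : Measure α} {h : α → ℝ}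
    (hm : Measurable h) (hp : ∀ x, 0 < h x) (g : α → ℝ) :
    ∫ x, g x ∂(wd ν h) = ∫ x, h x * g x ∂ν := by
  unfold wd
  rw [integral_withDensity_eq_integral_smul hm.real_toNNReal]
  refine integral_congr_ae (Eventually.of_forall fun x => ?_)
  simp [NNReal.smul_def, Real.coe_toNNReal _ (hp x).le]

theorem wd_zero {α : Type*} [MeasurableSpace α] {ν : Measure α} {h : α → ℝ}
    (hm : Measurable h) (hp : ∀ x, 0 < h x) (s : Set α) : wd ν h s = 0 ↔ ν s = 0 := by
  unfold wd
  rw [withDensity_apply_eq_zero (by fun_prop)]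
  have : {x : α | ((h x).toNNReal : ENNReal) ≠ 0} = univ := by
    ext x
    simp [hp x]
  rw [this, univ_inter]

theorem wd_finite {α : Type*} [MeasurableSpace α] {ν : Measure α} {h : α → ℝ}
    (hi : Integrable h ν) : IsFiniteMeasure (wd ν h) :=
  isFiniteMeasure_withDensity_ofReal hi.2

/-- the orthant -/
def Orth (d : ℕ) : Set (V d) := {t | ∀ i, 0 ≤ t i}

theorem orth_closed (d : ℕ) : IsClosed (Orth d) := by
  have : Orth d = ⋂ i, {t : V d | 0 ≤ t i} := by
    ext t; simp [Orth]
  rw [this]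
  exact isClosed_iInter fun i => isClosed_le continuous_const (continuous_apply i)

theorem orth_fun {d : ℕ} (b : Fin d → ℝ) (t : V d) :
    (∏ i, (Ici (0 : ℝ)).indicator (fun s => Real.exp (-(b i) * s)) (t i)) =
      (Orth d).indicator (fun t => Real.exp (-∑ i, b i * t i)) t := by
  classical
  by_cases ht : t ∈ Orth d
  · rw [indicator_of_mem ht, ← Finset.sum_neg_distrib, Real.exp_sum]
    refine Finset.prod_congr rfl fun i _ => ?_
    rw [indicator_of_mem (show t i ∈ Ici (0 : ℝ) from ht i), neg_mul]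
  · rw [indicator_of_notMem ht]
    have : ∃ i, ¬ 0 ≤ t i := by
      by_contra hcon
      push Not at hcon
      exact ht hcon
    obtain ⟨i, hi⟩ := this
    exact Finset.prod_eq_zero (Finset.mem_univ i) (indicator_of_notMem hi _)

theorem one_int {b : ℝ} (hb : 0 < b) :
    Integrable ((Ici (0 : ℝ)).indicator (fun s => Real.exp (-b * s))) := by
  rw [integrable_indicator_iff measurableSet_Ici, integrableOn_Ici_iff_integrableOn_Ioi]
  exact integrableOn_exp_mul_Ioi (by linarith) 0

theorem one_val {b : ℝ} (hb : 0 < b) :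
    ∫ s, (Ici (0 : ℝ)).indicator (fun s => Real.exp (-b * s)) s = b⁻¹ := by
  rw [integral_indicator measurableSet_Ici, integral_Ici_eq_integral_Ioi,
    integral_exp_mul_Ioi (by linarith) 0]
  simp only [mul_zero, Real.exp_zero]
  rw [neg_div_neg_eq, one_div]

theorem orth_integrable {d : ℕ} {b : Fin d → ℝ} (hb : ∀ i, 0 < b i) :
    IntegrableOn (fun t : V d => Real.exp (-∑ i, b i * t i)) (Orth d) := by
  rw [← integrable_indicator_iff (orth_closed d).measurableSet]
  have h1 : Integrable (fun t : V d => ∏ i, (Ici (0 : ℝ)).indicator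
      (fun s => Real.exp (-(b i) * s)) (t i)) :=
    Integrable.fintype_prod (f := fun i => (Ici (0 : ℝ)).indicator
      (fun s => Real.exp (-(b i) * s))) (μ := fun _ => volume) fun i => one_int (hb i)
  exact h1.congr (Eventually.of_forall fun t => orth_fun b t)

theorem orth_integral {d : ℕ} {b : Fin d → ℝ} (hb : ∀ i, 0 < b i) :
    ∫ t in Orth d, Real.exp (-∑ i, b i * t i) = ∏ i, (b i)⁻¹ := by
  rw [← integral_indicator (orth_closed d).measurableSet]
  have h1 : (∫ t : V d, (Orth d).indicator (fun t => Real.exp (-∑ i, b i * t i)) t) =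
      ∫ t : V d, ∏ i, (Ici (0 : ℝ)).indicator (fun s => Real.exp (-(b i) * s)) (t i) :=
    integral_congr_ae (Eventually.of_forall fun t => (orth_fun b t).symm)
  rw [h1, integral_fintype_prod_volume_eq_prod
    (fun i => (Ici (0 : ℝ)).indicator (fun s => Real.exp (-(b i) * s)))]
  exact Finset.prod_congr rfl fun i _ => one_val (hb i)

end Ident

open Ident ProbabilityTheory in
theorem stmtIDENT : StmtIDENT := by
  intro d C Ω κ y hΩ hΩn hCc hint hκ hI hprod
  obtain ⟨ξ, hξ⟩ := hΩn
  have hCcl : IsClosed C := by rw [← hCc]; exact isClosed_closure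
  have hCm : MeasurableSet C := hCcl.measurableSet
  have hdot : ∀ η : V d, Continuous (fun x : V d => η ⬝ᵥ x) := fun η => by
    unfold dotProduct; fun_prop
  have hdot' : ∀ z : V d, Continuous (fun η : V d => η ⬝ᵥ z) := fun z => by
    unfold dotProduct; fun_prop
  have hpos : ∀ η ∈ Ω, 0 < ∫ x in C, Real.exp (η ⬝ᵥ x) := by
    intro η hη
    have : NeZero ((volume : Measure (V d)).restrict C) := by
      refine ⟨fun h => ?_⟩
      have h1 : (volume : Measure (V d)) C = 0 := by
        rw [← Measure.restrict_apply_univ, h]; rfl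
      have h2 : 0 < (volume : Measure (V d)) C :=
        lt_of_lt_of_le (isOpen_interior.measure_pos _ hint) (measure_mono interior_subset)
      exact h2.ne' h1
    exact integral_exp_pos (hI η hη)
  -- signs
  have hyne : ∀ i, ξ ⬝ᵥ y i ≠ 0 := by
    intro i h0
    apply hκ
    rw [← hprod ξ hξ, Finset.prod_eq_zero (Finset.mem_univ i) h0, mul_zero]
  set σ : Fin d → ℝ := fun i => if 0 < ξ ⬝ᵥ y i then 1 else -1 with hσ
  have hσ2 : ∀ i, σ i * σ i = 1 := by
    intro i
    rw [hσ]
    by_cases h : 0 < ξ ⬝ᵥ y i <;> simp [h]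
  set v : Fin d → V d := fun i => σ i • y i with hv
  have hv1 : ∀ (η : V d) (i : Fin d), η ⬝ᵥ v i = σ i * (η ⬝ᵥ y i) := by
    intro η i
    rw [hv]
    simp only [dotProduct_smul, smul_eq_mul]
  have hvpos : ∀ i, 0 < ξ ⬝ᵥ v i := by
    intro i
    rw [hv1, hσ]
    by_cases h : 0 < ξ ⬝ᵥ y i
    · simp [h]
    · simp only [h, if_false]
      have := lt_of_le_of_ne (not_lt.1 h) (hyne i)
      linarith
  set κ' : ℝ := (∏ i, σ i) * κ with hκ'
  have hprod' : ∀ η ∈ Ω, (∫ x in C, Real.exp (η ⬝ᵥ x)) * ∏ i, (η ⬝ᵥ v i) = κ' := by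
    intro η hη
    rw [hκ', ← hprod η hη]
    have : ∏ i, (η ⬝ᵥ v i) = (∏ i, σ i) * ∏ i, (η ⬝ᵥ y i) := by
      rw [← Finset.prod_mul_distrib]
      exact Finset.prod_congr rfl fun i _ => hv1 η i
    rw [this]; ring
  have hκ'pos : 0 < κ' := by
    rw [← hprod' ξ hξ]
    exact mul_pos (hpos ξ hξ) (Finset.prod_pos fun i _ => hvpos i)
  -- the linear map
  set A0 : V d →ₗ[ℝ] V d := -(Fintype.linearCombination ℝ v) with hA0
  have hA0a : ∀ t : V d, A0 t = -∑ i, t i • v i := by
    intro t
    rw [hA0, LinearMap.neg_apply, Fintype.linearCombination_apply]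
  have hA0d : ∀ η t : V d, η ⬝ᵥ A0 t = -∑ i, (η ⬝ᵥ v i) * t i := by
    intro η t
    rw [hA0a, dotProduct_neg, dotProduct_sum]
    congr 1
    refine Finset.sum_congr rfl fun i _ => ?_
    rw [dotProduct_smul, smul_eq_mul, mul_comm]
  have hA0c : Continuous A0 := A0.continuous_of_finiteDimensional
  -- the two measures
  set μ : Measure (V d) := wd (volume.restrict C) (fun x => Real.exp (ξ ⬝ᵥ x)) with hμ
  set μ' : Measure (V d) := wd (volume.restrict (Orth d))
    (fun t => κ' * Real.exp (ξ ⬝ᵥ A0 t)) with hμ'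
  have hm1 : Measurable (fun x : V d => Real.exp (ξ ⬝ᵥ x)) := (hdot ξ).rexp.measurable
  have hm2 : Measurable (fun t : V d => κ' * Real.exp (ξ ⬝ᵥ A0 t)) :=
    (continuous_const.mul ((hdot ξ).comp hA0c).rexp).measurable
  have hp1 : ∀ x : V d, 0 < Real.exp (ξ ⬝ᵥ x) := fun x => Real.exp_pos _
  have hp2 : ∀ t : V d, 0 < κ' * Real.exp (ξ ⬝ᵥ A0 t) := fun t => mul_pos hκ'pos (Real.exp_pos _)
  have hexpA : ∀ η : V d, (fun t : V d => Real.exp (η ⬝ᵥ A0 t)) =
      fun t => Real.exp (-∑ i, (η ⬝ᵥ v i) * t i) := by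
    intro η
    funext t
    rw [hA0d]
  have hf1 : IsFiniteMeasure μ := wd_finite (hI ξ hξ)
  have hf2 : IsFiniteMeasure μ' := by
    refine wd_finite (Integrable.const_mul ?_ κ')
    have := orth_integrable hvpos
    rw [← hexpA ξ] at this
    exact this
  -- equality
  have hkey : μ = μ'.map A0 := by
    have : IsFiniteMeasure (μ'.map A0) := Measure.isFiniteMeasure_map μ' A0
    refine Measure.ext_of_charFunDual ?_
    funext L
    set η : V d := fun i => L (fun j => if i = j then 1 else 0) with hη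
    have hL : ∀ x : V d, L x = η ⬝ᵥ x := by
      intro x
      have := LinearMap.pi_apply_eq_sum_univ (L : V d →ₗ[ℝ] ℝ) x
      have h2 : L x = ∑ i, x i • L (fun j => if i = j then 1 else 0) := this
      rw [h2, dotProduct]
      refine Finset.sum_congr rfl fun i _ => ?_
      rw [hη, smul_eq_mul, mul_comm]
    -- a neighbourhood
    obtain ⟨ε, hε, hεs⟩ : ∃ ε : ℝ, 0 < ε ∧ ∀ s : ℝ, |s| < ε →
        (ξ + s • η) ∈ Ω ∧ ∀ i, 0 < (ξ + s • η) ⬝ᵥ v i := by
      have hc : Continuous (fun s : ℝ => ξ + s • η) := by fun_prop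
      have h1 : ∀ᶠ s : ℝ in 𝓝 0, (ξ + s • η) ∈ Ω := by
        refine hc.continuousAt.eventually_mem ?_
        simpa using hΩ.mem_nhds hξ
      have h2 : ∀ᶠ s : ℝ in 𝓝 0, ∀ i, 0 < (ξ + s • η) ⬝ᵥ v i := by
        rw [eventually_all]
        intro i
        have hc2 : Continuous (fun s : ℝ => (ξ + s • η) ⬝ᵥ v i) := (hdot' (v i)).comp hc
        refine hc2.continuousAt.eventually_const_lt ?_
        simpa using hvpos i
      obtain ⟨ε, hε, h3⟩ := Metric.eventually_nhds_iff.1 (h1.and h2)
      refine ⟨ε, hε, fun s hs => h3 ?_⟩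
      simpa [Real.dist_eq] using hs
    have hadd : ∀ (s : ℝ) (x : V d), Real.exp (ξ ⬝ᵥ x) * Real.exp (s * (η ⬝ᵥ x)) =
        Real.exp ((ξ + s • η) ⬝ᵥ x) := by
      intro s x
      rw [← Real.exp_add, add_dotProduct, smul_dotProduct, smul_eq_mul]
    have hcm := cmgf_eq (μ := μ) (μ' := μ') (X := fun x => η ⬝ᵥ x) (Y := fun t => η ⬝ᵥ A0 t) hε
      (fun s hs => by
        rw [hμ, wd_integrable hm1 hp1]
        have := hI _ (hεs s hs).1
        refine this.congr (Eventually.of_forall fun x => ?_)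
        exact (hadd s x).symm)
      (fun s hs => by
        rw [hμ', wd_integrable hm2 hp2]
        have h1 := (orth_integrable (hεs s hs).2).const_mul κ'
        refine h1.congr (Eventually.of_forall fun t => ?_)
        change κ' * Real.exp (-∑ i, ((ξ + s • η) ⬝ᵥ v i) * t i) = _
        rw [← hA0d, ← hadd]
        ring)
      (fun s hs => by
        rw [hμ, hμ', wd_integral hm1 hp1, wd_integral hm2 hp2]
        have h1 : (∫ x in C, Real.exp (ξ ⬝ᵥ x) * Real.exp (s * (η ⬝ᵥ x))) =
            ∫ x in C, Real.exp ((ξ + s • η) ⬝ᵥ x) :=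
          integral_congr_ae (Eventually.of_forall fun x => hadd s x)
        have h2 : (∫ t in Orth d, κ' * Real.exp (ξ ⬝ᵥ A0 t) * Real.exp (s * (η ⬝ᵥ A0 t))) =
            κ' * ∫ t in Orth d, Real.exp (-∑ i, ((ξ + s • η) ⬝ᵥ v i) * t i) := by
          rw [← integral_const_mul]
          refine integral_congr_ae (Eventually.of_forall fun t => ?_)
          simp only
          rw [← hA0d, ← hadd]
          ring
        rw [h1, h2, orth_integral (hεs s hs).2, ← hprod' _ (hεs s hs).1, mul_assoc,
          ← Finset.prod_mul_distrib]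
        rw [Finset.prod_eq_one fun i _ => mul_inv_cancel₀ ((hεs s hs).2 i).ne', mul_one])
    rw [charFunDual_apply, charFunDual_apply]
    have e1 : (∫ x, Complex.exp (L x * Complex.I) ∂μ) =
        complexMGF (fun x : V d => η ⬝ᵥ x) μ Complex.I := by
      unfold complexMGF
      refine integral_congr_ae (Eventually.of_forall fun x => ?_)
      simp only
      rw [hL, mul_comm]
    have e2 : (∫ x, Complex.exp (L x * Complex.I) ∂(μ'.map A0)) =
        complexMGF (fun t : V d => η ⬝ᵥ A0 t) μ' Complex.I := by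
      rw [integral_map hA0c.measurable.aemeasurable (by fun_prop)]
      unfold complexMGF
      refine integral_congr_ae (Eventually.of_forall fun x => ?_)
      simp only
      rw [hL, mul_comm]
    rw [e1, e2, hcm]
  -- A0 is surjective
  have hsurj : LinearMap.range A0 = ⊤ := by
    by_contra hne
    have h1 : (volume : Measure (V d)) (LinearMap.range A0 : Set (V d)) = 0 :=
      Measure.addHaar_submodule _ _ hne
    have hcl : IsClosed (LinearMap.range A0 : Set (V d)) :=
      (LinearMap.range A0).closed_of_finiteDimensional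
    have h2 : μ (LinearMap.range A0 : Set (V d)) = 0 := by
      rw [hμ, wd_zero hm1 hp1]
      exact le_antisymm ((Measure.restrict_apply_le _ _).trans h1.le) bot_le
    have h3 : μ (LinearMap.range A0 : Set (V d))ᶜ = 0 := by
      rw [hkey, Measure.map_apply hA0c.measurable hcl.measurableSet.compl]
      have : A0 ⁻¹' (LinearMap.range A0 : Set (V d))ᶜ = ∅ := by
        ext t
        simp
      rw [this, measure_empty]
    have h4 : μ univ = 0 := by
      rw [← union_compl_self (LinearMap.range A0 : Set (V d))]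
      exact le_antisymm ((measure_union_le _ _).trans (by rw [h2, h3, add_zero])) bot_le
    rw [hμ, wd_zero hm1 hp1, Measure.restrict_apply_univ] at h4
    have h5 : 0 < (volume : Measure (V d)) C :=
      lt_of_lt_of_le (isOpen_interior.measure_pos _ hint) (measure_mono interior_subset)
    exact h5.ne' h4
  have hbij : Function.Bijective A0 := by
    have hs : Function.Surjective A0 := LinearMap.range_eq_top.1 hsurj
    exact ⟨LinearMap.injective_iff_surjective.2 hs, hs⟩
  set A : V d ≃ₗ[ℝ] V d := LinearEquiv.ofBijective A0 hbij with hA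
  have hAa : ∀ t, A t = A0 t := fun t => rfl
  have hAsc : Continuous A.symm := (A.symm : V d →ₗ[ℝ] V d).continuous_of_finiteDimensional
  refine ⟨A, ?_⟩
  -- null sets
  have hS : IsClosed {x : V d | A.symm x ∈ Orth d} := (orth_closed d).preimage hAsc
  have n1 : (volume : Measure (V d)) ({x : V d | A.symm x ∈ Orth d}ᶜ ∩ C) = 0 := by
    have h1 : μ {x : V d | A.symm x ∈ Orth d}ᶜ = 0 := by
      rw [hkey, Measure.map_apply hA0c.measurable hS.measurableSet.compl]
      have : A0 ⁻¹' {x : V d | A.symm x ∈ Orth d}ᶜ = (Orth d)ᶜ := by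
        ext t
        simp only [mem_preimage, mem_compl_iff, mem_ofPred_eq]
        rw [← hAa, LinearEquiv.symm_apply_apply]
      rw [this, hμ', wd_zero hm2 hp2, Measure.restrict_apply (orth_closed d).measurableSet.compl,
        compl_inter_self, measure_empty]
    rw [hμ, wd_zero hm1 hp1, Measure.restrict_apply hS.measurableSet.compl] at h1
    exact h1
  have n2 : (volume : Measure (V d)) (Cᶜ ∩ {x : V d | A.symm x ∈ Orth d}) = 0 := by
    have h1 : μ Cᶜ = 0 := by
      rw [hμ, wd_zero hm1 hp1, Measure.restrict_apply hCm.compl, compl_inter_self, measure_empty]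
    rw [hkey, Measure.map_apply hA0c.measurable hCm.compl, hμ', wd_zero hm2 hp2,
      Measure.restrict_apply (hA0c.measurable hCm.compl)] at h1
    have h2 : Cᶜ ∩ {x : V d | A.symm x ∈ Orth d} = A.symm ⁻¹' (A0 ⁻¹' Cᶜ ∩ Orth d) := by
      ext x
      simp only [mem_inter_iff, mem_compl_iff, mem_ofPred_eq, mem_preimage]
      rw [← hAa, LinearEquiv.apply_symm_apply]
    rw [h2, Measure.addHaar_preimage_linearEquiv, h1, mul_zero]
  -- inclusions
  have i1 : C ⊆ {x : V d | A.symm x ∈ Orth d} := by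
    have h1 : interior C ⊆ {x : V d | A.symm x ∈ Orth d} := by
      intro x hx
      by_contra hx'
      have ho : IsOpen (interior C ∩ {x : V d | A.symm x ∈ Orth d}ᶜ) :=
        isOpen_interior.inter hS.isOpen_compl
      have h2 : 0 < (volume : Measure (V d)) (interior C ∩ {x : V d | A.symm x ∈ Orth d}ᶜ) :=
        ho.measure_pos _ ⟨x, hx, hx'⟩
      have h3 : (volume : Measure (V d)) (interior C ∩ {x : V d | A.symm x ∈ Orth d}ᶜ) ≤ 0 := by
        rw [← n1]
        exact measure_mono fun z hz => ⟨hz.2, interior_subset hz.1⟩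
      exact absurd h3 (not_le.2 h2)
    rw [← hCc]
    exact closure_minimal h1 hS
  have i2 : {x : V d | A.symm x ∈ Orth d} ⊆ C := by
    have hpo : IsOpen {t : V d | ∀ i, 0 < t i} := by
      have : {t : V d | ∀ i, 0 < t i} = ⋂ i, {t : V d | 0 < t i} := by
        ext t; simp
      rw [this]
      exact isOpen_iInter_of_finite fun i => isOpen_lt continuous_const (continuous_apply i)
    have hpo' : IsOpen (A.symm ⁻¹' {t : V d | ∀ i, 0 < t i}) := hpo.preimage hAsc
    have h1 : A.symm ⁻¹' {t : V d | ∀ i, 0 < t i} ⊆ C := by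
      intro x hx
      by_contra hx'
      have ho : IsOpen (A.symm ⁻¹' {t : V d | ∀ i, 0 < t i} ∩ Cᶜ) :=
        hpo'.inter hCcl.isOpen_compl
      have h2 : 0 < (volume : Measure (V d)) (A.symm ⁻¹' {t : V d | ∀ i, 0 < t i} ∩ Cᶜ) :=
        ho.measure_pos _ ⟨x, hx, hx'⟩
      have h3 : (volume : Measure (V d)) (A.symm ⁻¹' {t : V d | ∀ i, 0 < t i} ∩ Cᶜ) ≤ 0 := by
        rw [← n2]
        exact measure_mono fun z hz => ⟨hz.2, fun i => (hz.1 i).le⟩
      exact absurd h3 (not_le.2 h2)
    intro x hx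
    have hlim : Tendsto (fun n : ℕ => A (A.symm x + fun _ => 1 / ((n : ℝ) + 1))) atTop (𝓝 x) := by
      have hAc : Continuous A := (A : V d →ₗ[ℝ] V d).continuous_of_finiteDimensional
      have h2 : Tendsto (fun n : ℕ => (A.symm x + fun _ => 1 / ((n : ℝ) + 1) : V d)) atTop
          (𝓝 (A.symm x)) := by
        rw [tendsto_pi_nhds]
        intro i
        have h3 := (tendsto_one_div_add_atTop_nhds_zero_nat (𝕜 := ℝ)).const_add (A.symm x i)
        simpa using h3
      have h4 := (hAc.tendsto (A.symm x)).comp h2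
      rw [LinearEquiv.apply_symm_apply] at h4
      exact h4
    refine hCcl.mem_of_tendsto hlim (Eventually.of_forall fun n => h1 ?_)
    rw [mem_preimage, LinearEquiv.symm_apply_apply]
    intro i
    have h5 : 0 ≤ A.symm x i := hx i
    have h6 : (0 : ℝ) < 1 / ((n : ℝ) + 1) := by positivity
    simp only [Pi.add_apply]
    linarith
  intro x
  exact ⟨fun hx => i1 hx, fun hx => i2 hx⟩

end Pool.Agent.R896.PA
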