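import Pool.Agent.R896.PA.Defs

open MeasureTheory Filter Topology

namespace Pool.Agent.R896.PA

theorem stmtMOM : StmtMOM := by
  classical
  intro d G hG n
  have hpow : ∀ ξ x : V d, (ξ ⬝ᵥ x) ^ n
      = ∑ p ∈ Fintype.piFinset (fun _ : Fin n => (Finset.univ : Finset (Fin d))),
        (∏ j, ξ (p j)) * ∏ j, x (p j) := by
    intro ξ x
    have h1 : (ξ ⬝ᵥ x) ^ n = ∏ _j : Fin n, ∑ i ∈ (Finset.univ : Finset (Fin d)), ξ i * x i := by
      rw [Finset.prod_const, Finset.card_univ, Fintype.card_fin]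
      rfl
    rw [h1, Finset.prod_univ_sum]
    refine Finset.sum_congr rfl fun p _ => ?_
    rw [Finset.prod_mul_distrib]
  refine ⟨∑ p ∈ Fintype.piFinset (fun _ : Fin n => (Finset.univ : Finset (Fin d))),
    MvPolynomial.C (∫ x in G, ∏ j, x (p j)) * ∏ j, MvPolynomial.X (p j), fun ξ => ?_⟩
  rw [map_sum]
  simp only [hpow]
  rw [integral_finsetSum]
  · refine Finset.sum_congr rfl fun p _ => ?_
    rw [integral_const_mul, map_mul, MvPolynomial.eval_C, map_prod]
    simp only [MvPolynomial.eval_X]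
    ring
  · intro p _
    apply ContinuousOn.integrableOn_compact hG
    apply Continuous.continuousOn
    fun_prop

end Pool.Agent.R896.PA
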