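import Pool.Agent.R896.PA.Box3

/-!
Assembly: a regular attractor with connected interior is a parallelepiped.
-/

open MeasureTheory Filter Topology

namespace Pool.Agent.R896.PA

variable {d : ℕ}

lemma exists_scale2 (x y : V d) {ρ ρ' : ℝ} (hρ : 0 < ρ) (hρ' : 0 < ρ') :
    ∃ a : ℝ, 0 < a ∧ ‖a • x‖ < ρ ∧ ‖a • y‖ < ρ' := by
  obtain ⟨a, ha, -, h1⟩ := exists_scale x hρ
  obtain ⟨b, hb, -, h2⟩ := exists_scale y hρ'
  refine ⟨min a b, lt_min ha hb, ?_, ?_⟩
  · refine lt_of_le_of_lt ?_ h1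
    rw [norm_smul, norm_smul, Real.norm_of_nonneg (lt_min ha hb).le, Real.norm_of_nonneg ha.le]
    exact mul_le_mul_of_nonneg_right (min_le_left _ _) (norm_nonneg _)
  · refine lt_of_le_of_lt ?_ h2
    rw [norm_smul, norm_smul, Real.norm_of_nonneg (lt_min ha hb).le, Real.norm_of_nonneg hb.le]
    exact mul_le_mul_of_nonneg_right (min_le_right _ _) (norm_nonneg _)

theorem orth_box (hPhi : StmtPHI) (hProd : StmtPROD) {G : Set (V d)} (hG : Reg G)
    (hconn : IsPreconnected (interior G)) {f : V d →ₗ[ℝ] ℝ} (hv : Vtx G f 0)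
    (hC : IsC (Orth d) f) {ρ : ℝ} (hρ : 0 < ρ)
    (hloc : ∀ x : V d, ‖x‖ < ρ → (x ∈ G ↔ x ∈ Orth d))
    {L : V d ≃ₗ[ℝ] V d} {T : Finset (V d)} (hT : Tile G L T) (h0 : (0 : V d) ∈ T)
    (hL : Contr L) {lam : Fin d → ℝ} (hlam : ∀ i, 0 < lam i)
    (hdiag : ∀ x i, L x i = lam i * x i) :
    ∃ a : V d, (∀ i, 0 < a i) ∧ ∀ x, x ∈ G ↔ ∀ i, 0 ≤ x i ∧ x i ≤ a i := by
  classical
  obtain ⟨hinv, hsub⟩ := cone_inv hG hv hT h0 hL hρ hC hloc
  obtain ⟨c, hcG, hc0, hc⟩ := q_exists hG hv hT h0 hL hρ hC hloc hinv hsub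
  have hTO : ∀ s ∈ T, s ∈ Orth d := by
    intro s hs
    rw [← hinv s]
    apply hsub
    rw [hT.union]
    exact ⟨s, hs, by rw [sub_self]; exact hv.mem⟩
  choose n hn using fun i => axis_int hG hC hρ hloc hsub hcG hc hT hTO hlam hdiag i
  have hn2 : ∀ i, 2 ≤ n i := by
    intro i
    by_contra hcon
    push Not at hcon
    have h1 : lam i ≤ 1 := by
      rw [hn i]
      have : n i ≤ 1 := by omega
      exact_mod_cast this
    have h2 := hL (Pi.single i 1)
    have h3 : Tendsto (fun k : ℕ => (L ^ k).symm (Pi.single i 1) i) atTop (𝓝 0) := by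
      have h6 := ((continuous_apply i).tendsto (0 : V d)).comp h2
      rw [Pi.zero_apply] at h6
      exact h6
    have h4 : ∀ k : ℕ, (1 : ℝ) ≤ (L ^ k).symm (Pi.single i 1) i := by
      intro k
      rw [diag_pow_symm hlam hdiag]
      rw [Pi.single_eq_same, mul_one]
      exact (one_le_inv₀ (pow_pos (hlam i) k)).2 (pow_le_one₀ (hlam i).le h1)
    have h5 := ge_of_tendsto' h3 h4
    linarith
  have hfe := fe_finsupp hC hc hT hlam hdiag
  obtain ⟨a, haG, -, ha⟩ := corner hG hc hT hL hlam hdiag (fun _ => 1) (fun _ => Or.inl rfl)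
  have ha' : ∀ x ∈ G, ∀ i, x i ≤ a i := by
    intro x hx i
    have := ha x hx i
    simpa using this
  have hcor : ∀ w : V d, (∀ i, w i = 0 ∨ w i = a i) → c w ≠ 0 := by
    intro w hw
    obtain ⟨u, huG, hu, hu2⟩ := corner hG hc hT hL hlam hdiag
      (fun i => if w i = 0 then -1 else 1) (fun i => by
        by_cases h : w i = 0
        · right; simp [h]
        · left; simp [h])
    have : u = w := by
      funext i
      by_cases h : w i = 0
      · have h1 := hu2 0 hv.mem i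
        simp only [h, if_true, Pi.zero_apply, mul_zero] at h1
        have h2 : 0 ≤ u i := hsub huG i
        rw [h]
        linarith
      · have h1 := hu2 a haG i
        simp only [h, if_false, one_mul] at h1
        have h2 := ha' u huG i
        rcases hw i with h3 | h3
        · exact absurd h3 h
        · rw [h3]; linarith
    rw [← this]
    exact hu
  have hpf := product_formula hPhi hProd hfe hn2 (fun x i => by rw [hdiag, hn i])
    (fun y hy i => hsub (hcG y hy) i) (fun s hs i => hTO s hs i)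
    (fun y hy i => ha' y (hcG y hy) i) hcor hc0
  obtain ⟨h1, h2⟩ := box_final hG hconn hρ hloc hsub hc haG ha' hpf
  exact ⟨a, h1, h2⟩

theorem main (hPhi : StmtPHI) (hProd : StmtPROD) (hP : StmtPOWER) (hM : StmtMOM)
    (hF : StmtFACTOR) (hI : StmtIDENT) (hD : StmtDIAG)
    {G : Set (V d)} (hG : Reg G) (hconn : IsPreconnected (interior G))
    {L : V d ≃ₗ[ℝ] V d} {S : Finset (V d)} (hT : Tile G L S) (hL : Contr L) :
    ∃ (A : V d ≃ₗ[ℝ] V d) (v a : V d), (∀ i, 0 < a i) ∧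
      ∀ x, x ∈ G ↔ ∀ i, 0 ≤ A.symm (x - v) i ∧ A.symm (x - v) i ≤ a i := by
  classical
  obtain ⟨η, v0, -, hv0⟩ := exists_vtx hG.cpt hG.ne (fun _ => 1) (fun _ => Or.inl rfl)
  obtain ⟨k, p, v, s, T, hp, hTp, hs, hLv, hv⟩ := periodic hG.cpt hG.lc hT hv0
  have hG1 := hG.shift v
  obtain ⟨T1, hT1, hT10⟩ := hTp.shift hs hLv
  have hv1 := hv.shift
  have hL1 := hL.pow hp
  obtain ⟨C, ρ, hρ, hC, hloc⟩ := cone_exists hG1 hv1
  obtain ⟨hinv, hsub⟩ := cone_inv hG1 hv1 hT1 hT10 hL1 hρ hC hloc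
  obtain ⟨c, hcG, hc0, hc⟩ := q_exists hG1 hv1 hT1 hT10 hL1 hρ hC hloc hinv hsub
  obtain ⟨A, hA⟩ := cone_simplicial hP hM hF hI hG1 hC hsub hc0 hc
  have hG2 := hG1.pull A
  obtain ⟨T2, hT2, hT20⟩ := hT1.pull A
  have hL2 := hL1.pull A
  have hv2 := hv1.pull A
  obtain ⟨C2, ρ2, hρ2, hC2, hloc2⟩ := cone_exists hG2 hv2
  have hC2O : C2 = Orth d := by
    ext x
    obtain ⟨b, hb, hb1, hb2⟩ := exists_scale2 x (A x) hρ2 hρ
    rw [← hC2.smul_iff hb, ← hloc2 _ hb1]
    have h1 : b • x ∈ pullSet A (shiftSet v G) ↔ b • A x ∈ shiftSet v G := by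
      show A (b • x) ∈ shiftSet v G ↔ _
      rw [map_smul]
    rw [h1, hloc _ hb2, hA]
    have h2 : ∀ i, A.symm (b • A x) i = b * x i := by
      intro i
      rw [map_smul, LinearEquiv.symm_apply_apply]
      rfl
    constructor
    · intro h i
      have := h i
      rw [h2] at this
      exact nonneg_of_mul_nonneg_right this hb
    · intro h i
      rw [h2]
      exact mul_nonneg hb.le (h i)
  rw [hC2O] at hC2 hloc2
  obtain ⟨hinv2, -⟩ := cone_inv hG2 hv2 hT2 (hT20 hT10) hL2 hρ2 hC2 hloc2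
  obtain ⟨q, lam, hq, hlam, hdiag⟩ := hD d (A⁻¹ * L ^ p * A) (by
    intro x
    have := hinv2 ((A⁻¹ * L ^ p * A) x)
    rw [LinearEquiv.symm_apply_apply] at this
    exact this.symm)
  obtain ⟨T3, hT3, hT30⟩ := hT2.pow q
  have hL3 := hL2.pow hq
  have hconn2 : IsPreconnected (interior (pullSet A (shiftSet v G))) := by
    have he : pullSet A (shiftSet v G)
        = (A.toContinuousLinearEquiv.toHomeomorph.trans (Homeomorph.addLeft v)) ⁻¹' G := rfl
    rw [he, ← Homeomorph.preimage_interior]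
    rw [Homeomorph.isPreconnected_preimage]
    exact hconn
  obtain ⟨a, ha, hbox⟩ := orth_box hPhi hProd hG2 hconn2 hv2 hC2 hρ2 hloc2 hT3
    (hT30 (hT20 hT10)) hL3 hlam hdiag
  refine ⟨A, v, a, ha, fun x => ?_⟩
  rw [← hbox]
  show x ∈ G ↔ v + A (A.symm (x - v)) ∈ G
  rw [LinearEquiv.apply_symm_apply]
  simp

end Pool.Agent.R896.PA
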