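import Pool.Agent.R896.PA.Defs

open MeasureTheory Filter Topology

namespace Pool.Agent.R896.PA

theorem stmtPHI : StmtPHI := by
  classical
  intro F
  set W : Submodule ℚ ℝ := Submodule.span ℚ (F : Set ℝ) with hW
  have : FiniteDimensional ℚ W := FiniteDimensional.span_finset ℚ F
  set b := Module.finBasis ℚ W with hb
  have hmem : ∀ x ∈ F, x ∈ W := fun x hx => Submodule.subset_span hx
  -- coordinates
  set R : ℝ → Fin (Module.finrank ℚ W) → ℚ := fun x j =>
    if h : x ∈ W then b.repr ⟨x, h⟩ j else 0 with hR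
  have hRx : ∀ x (h : x ∈ W) j, R x j = b.repr ⟨x, h⟩ j := by
    intro x h j
    rw [hR]
    simp only [dif_pos h]
  have hx : ∀ x ∈ F, x = ∑ j, (R x j : ℝ) * (b j : ℝ) := by
    intro x hxF
    have h := hmem x hxF
    have h1 := b.sum_repr ⟨x, h⟩
    have h2 := congrArg (fun w : W => (w : ℝ)) h1
    simp only [Submodule.coe_sum, Submodule.coe_smul] at h2
    rw [← h2]
    refine Finset.sum_congr rfl fun j _ => ?_
    rw [Rat.smul_def, h2, hRx x h]
  set U : Set (Fin (Module.finrank ℚ W) → ℝ) :=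
    {β | ∀ x ∈ F, ∀ y ∈ F, x < y → ∑ j, (R x j : ℝ) * β j < ∑ j, (R y j : ℝ) * β j} with hU
  have hUo : U ∈ 𝓝 (fun j => (b j : ℝ)) := by
    have : ∀ᶠ β in 𝓝 (fun j => (b j : ℝ)), ∀ x ∈ F, ∀ y ∈ F, x < y →
        ∑ j, (R x j : ℝ) * β j < ∑ j, (R y j : ℝ) * β j := by
      refine (Finset.eventually_all _).2 fun x hxF => ?_
      refine (Finset.eventually_all _).2 fun y hyF => ?_
      by_cases hxy : x < y
      · have h1 : Continuous (fun β : Fin (Module.finrank ℚ W) → ℝ =>
            ∑ j, (R x j : ℝ) * β j) := by fun_prop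
        have h2 : Continuous (fun β : Fin (Module.finrank ℚ W) → ℝ =>
            ∑ j, (R y j : ℝ) * β j) := by fun_prop
        have h3 : IsOpen {β : Fin (Module.finrank ℚ W) → ℝ |
            ∑ j, (R x j : ℝ) * β j < ∑ j, (R y j : ℝ) * β j} := isOpen_lt h1 h2
        have h4 : (fun j => (b j : ℝ)) ∈ {β : Fin (Module.finrank ℚ W) → ℝ |
            ∑ j, (R x j : ℝ) * β j < ∑ j, (R y j : ℝ) * β j} := by
          show ∑ j, (R x j : ℝ) * (b j : ℝ) < ∑ j, (R y j : ℝ) * (b j : ℝ)
          rw [← hx x hxF, ← hx y hyF]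
          exact hxy
        filter_upwards [h3.mem_nhds h4] with β hβ _
        exact hβ
      · exact Eventually.of_forall fun β h => absurd h hxy
    exact this
  have hdense : Dense (Set.pi Set.univ
      (fun _ : Fin (Module.finrank ℚ W) => Set.range ((↑) : ℚ → ℝ))) :=
    dense_pi Set.univ (fun i _ => Rat.denseRange_cast)
  obtain ⟨β, hβU, hβ⟩ := hdense.inter_nhds_nonempty hUo
  have : ∀ j, ∃ q : ℚ, (q : ℝ) = β j := by
    intro j
    rcases (by assumption : β ∈ Set.pi Set.univ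
      (fun _ : Fin (Module.finrank ℚ W) => Set.range ((↑) : ℚ → ℝ))) j (Set.mem_univ j)
      with ⟨q, hq⟩
    exact ⟨q, hq⟩
  choose q hq using this
  have hβU' : ∀ x ∈ F, ∀ y ∈ F, x < y → ∑ j, (R x j : ℝ) * β j < ∑ j, (R y j : ℝ) * β j := by
    assumption
  obtain ⟨g, hg⟩ := (b.constr ℚ q).exists_extend
  have hgx : ∀ x ∈ F, ((g x : ℚ) : ℝ) = ∑ j, (R x j : ℝ) * β j := by
    intro x hxF
    have h := hmem x hxF
    have h1 : g x = b.constr ℚ q ⟨x, h⟩ := by
      rw [← hg]
      rfl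
    rw [h1, Module.Basis.constr_apply_fintype]
    push_cast
    refine Finset.sum_congr rfl fun j _ => ?_
    rw [hRx x h, Module.Basis.equivFun_apply, smul_eq_mul]
    push_cast
    rw [hq j]
  set D : ℕ := ∏ x ∈ F, (g x).den with hD
  have hDpos : 0 < D := Finset.prod_pos fun x _ => (g x).den_pos
  refine ⟨(D : ℚ) • g, ?_, ?_⟩
  · intro x hxF
    obtain ⟨k, hk⟩ : (g x).den ∣ D := Finset.dvd_prod_of_mem (fun x => (g x).den) hxF
    refine ⟨k * (g x).num, ?_⟩
    rw [LinearMap.smul_apply, smul_eq_mul, hk]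
    push_cast
    have := Rat.mul_den_eq_num (g x)
    calc ((g x).den : ℚ) * k * g x = k * (g x * (g x).den) := by ring
      _ = k * (g x).num := by rw [this]
  · intro x hxF y hyF hxy
    have h1 := hβU' x hxF y hyF hxy
    rw [← hgx x hxF, ← hgx y hyF] at h1
    have h2 : g x < g y := by exact_mod_cast h1
    rw [LinearMap.smul_apply, LinearMap.smul_apply, smul_eq_mul, smul_eq_mul]
    have h3 : (0 : ℚ) < D := by exact_mod_cast hDpos
    exact mul_lt_mul_of_pos_left h2 h3

end Pool.Agent.R896.PA
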