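import Pool.Agent.R896.PA.Defs

set_option autoImplicit false
open MeasureTheory Filter Topology Set

namespace Pool.Agent.R896.PA

namespace PowerPiece
open scoped Pointwise

theorem coef_zero (b : ℕ → ℝ) (h1 : Summable b)
    (h : ∀ a : ℝ, 0 < a → a < 1 → HasSum (fun j => b j * a ^ j) 0) : ∀ k, b k = 0 := by
  have hS : Summable (fun j => |b j|) := h1.abs
  intro k
  induction k using Nat.strong_induction_on with
  | _ k ih =>
    set S := ∑' j, |b j| with hSdef
    have hS0 : 0 ≤ S := tsum_nonneg fun j => abs_nonneg _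
    have key : ∀ a : ℝ, 0 < a → a < 1 → |b k| ≤ a * S := by
      intro a ha ha1
      have hs := h a ha ha1
      have hsum : Summable (fun j => b j * a ^ j) := hs.summable
      have e1 := hsum.sum_add_tsum_nat_add (k + 1)
      rw [hs.tsum_eq, Finset.sum_range_succ, Finset.sum_eq_zero (fun i hi => by
        rw [ih i (Finset.mem_range.1 hi), zero_mul]), zero_add] at e1
      have hpt : ∀ i, ‖b (i + (k + 1)) * a ^ (i + (k + 1))‖ ≤ a ^ (k + 1) * |b (i + (k + 1))| := by
        intro i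
        rw [norm_mul, Real.norm_eq_abs, Real.norm_eq_abs, abs_of_pos (pow_pos ha _), pow_add,
          mul_comm]
        have h2 : a ^ i ≤ 1 := pow_le_one₀ ha.le ha1.le
        have h3 : 0 ≤ a ^ (k + 1) * |b (i + (k + 1))| := by positivity
        calc a ^ i * a ^ (k + 1) * |b (i + (k + 1))| = a ^ i * (a ^ (k + 1) * |b (i + (k + 1))|) := by
              ring
          _ ≤ 1 * (a ^ (k + 1) * |b (i + (k + 1))|) := mul_le_mul_of_nonneg_right h2 h3
          _ = _ := one_mul _
      have hS' : Summable (fun i => |b (i + (k + 1))|) :=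
        (summable_nat_add_iff (f := fun j => |b j|) (k + 1)).2 hS
      have hS'' : Summable (fun i => a ^ (k + 1) * |b (i + (k + 1))|) := hS'.mul_left _
      have hn : Summable (fun i => ‖b (i + (k + 1)) * a ^ (i + (k + 1))‖) :=
        Summable.of_nonneg_of_le (fun i => norm_nonneg _) hpt hS''
      have e2 : |∑' i, b (i + (k + 1)) * a ^ (i + (k + 1))| ≤ a ^ (k + 1) * S := by
        calc |∑' i, b (i + (k + 1)) * a ^ (i + (k + 1))|
            ≤ ∑' i, ‖b (i + (k + 1)) * a ^ (i + (k + 1))‖ := norm_tsum_le_tsum_norm hn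
          _ ≤ ∑' i, a ^ (k + 1) * |b (i + (k + 1))| := hn.tsum_le_tsum hpt hS''
          _ = a ^ (k + 1) * ∑' i, |b (i + (k + 1))| := tsum_mul_left
          _ ≤ a ^ (k + 1) * S := by
              refine mul_le_mul_of_nonneg_left ?_ (by positivity)
              have := hS.sum_add_tsum_nat_add (k + 1)
              have h5 : 0 ≤ ∑ i ∈ Finset.range (k + 1), |b i| :=
                Finset.sum_nonneg fun i _ => abs_nonneg _
              linarith
      have e3 : b k * a ^ k = -∑' i, b (i + (k + 1)) * a ^ (i + (k + 1)) := by linarith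
      have e4 : |b k| * a ^ k ≤ a ^ (k + 1) * S := by
        calc |b k| * a ^ k = |b k * a ^ k| := by
              rw [abs_mul, abs_of_pos (pow_pos ha k)]
          _ ≤ _ := by rw [e3, abs_neg]; exact e2
      have e5 : |b k| * a ^ k ≤ (a * S) * a ^ k := by
        calc |b k| * a ^ k ≤ a ^ (k + 1) * S := e4
          _ = (a * S) * a ^ k := by ring
      exact le_of_mul_le_mul_right e5 (pow_pos ha k)
    by_contra hne
    have hpos : 0 < |b k| := abs_pos.2 hne
    have h6 := key (min (1 / 2) (|b k| / (2 * (S + 1)))) (lt_min (by norm_num) (by positivity))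
      (lt_of_le_of_lt (min_le_left _ _) (by norm_num))
    have h7 : min (1 / 2) (|b k| / (2 * (S + 1))) * S ≤ |b k| / (2 * (S + 1)) * S :=
      mul_le_mul_of_nonneg_right (min_le_right _ _) hS0
    have h8 : |b k| / (2 * (S + 1)) * S < |b k| := by
      rw [div_mul_eq_mul_div, div_lt_iff₀ (by positivity)]
      nlinarith
    linarith

theorem integrable_exp_neg_norm {d : ℕ} {δ : ℝ} (hδ : 0 < δ) :
    Integrable (fun x : V d => Real.exp (-(δ * ‖x‖))) := by
  have hfin : ((Module.finrank ℝ (V d) : ℕ) : ℝ) < ((d + 1 : ℕ) : ℝ) := by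
    rw [Module.finrank_fin_fun]
    exact_mod_cast Nat.lt_succ_self d
  have h1 := integrable_one_add_norm (μ := (volume : Measure (V d))) hfin
  set m : ℝ := ((d + 1 : ℕ) : ℝ) with hm
  have hm0 : 0 < m := by rw [hm]; positivity
  refine Integrable.mono' (h1.const_mul ((1 + m / δ) ^ (d + 1))) (by fun_prop) ?_
  refine Eventually.of_forall fun x => ?_
  rw [Real.norm_eq_abs, abs_of_pos (Real.exp_pos _)]
  have hr : 0 ≤ ‖x‖ := norm_nonneg x
  have h2 : (1 + ‖x‖) ≤ (1 + m / δ) * Real.exp (δ * ‖x‖ / m) := by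
    have h3 : δ * ‖x‖ / m + 1 ≤ Real.exp (δ * ‖x‖ / m) := Real.add_one_le_exp _
    have h4 : (1 + ‖x‖) ≤ (1 + m / δ) * (δ * ‖x‖ / m + 1) := by
      have h5 : (1 + m / δ) * (δ * ‖x‖ / m + 1) = δ * ‖x‖ / m + 1 + ‖x‖ + m / δ := by
        field_simp
        ring
      rw [h5]
      have : 0 ≤ δ * ‖x‖ / m := by positivity
      have : 0 ≤ m / δ := by positivity
      linarith
    refine h4.trans (mul_le_mul_of_nonneg_left h3 (by positivity))
  have h6 : (1 + ‖x‖) ^ (d + 1) ≤ (1 + m / δ) ^ (d + 1) * Real.exp (δ * ‖x‖) := by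
    calc (1 + ‖x‖) ^ (d + 1) ≤ ((1 + m / δ) * Real.exp (δ * ‖x‖ / m)) ^ (d + 1) :=
          pow_le_pow_left₀ (by positivity) h2 _
      _ = (1 + m / δ) ^ (d + 1) * Real.exp (δ * ‖x‖) := by
          rw [mul_pow, ← Real.exp_nat_mul]
          congr 2
          rw [← hm]
          field_simp
  have h7 : (1 + ‖x‖) ^ (-m) = ((1 + ‖x‖) ^ (d + 1))⁻¹ := by
    rw [Real.rpow_neg (by positivity), hm, Real.rpow_natCast]
  rw [h7, Real.exp_neg]
  have h8 : 0 < (1 + ‖x‖) ^ (d + 1) := by positivity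
  rw [inv_eq_one_div, inv_eq_one_div, mul_one_div, div_le_div_iff₀ (Real.exp_pos _) h8, one_mul]
  exact h6

theorem continuous_dot {d : ℕ} (ξ : V d) : Continuous (fun x : V d => ξ ⬝ᵥ x) := by
  unfold dotProduct
  fun_prop

theorem exists_delta {d : ℕ} {C : Set (V d)} {ξ : V d} (hC : IsClosed C)
    (hs : ∀ x ∈ C, ∀ a : ℝ, 0 < a → a • x ∈ C) (hneg : ∀ x ∈ C, x ≠ 0 → ξ ⬝ᵥ x < 0) :
    ∃ δ : ℝ, 0 < δ ∧ ∀ x ∈ C, ξ ⬝ᵥ x ≤ -(δ * ‖x‖) := by
  have hK : IsCompact (C ∩ Metric.sphere (0 : V d) 1) := (isCompact_sphere _ _).inter_left hC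
  rcases (C ∩ Metric.sphere (0 : V d) 1).eq_empty_or_nonempty with he | hne
  · refine ⟨1, one_pos, fun x hx => ?_⟩
    have hx0 : x = 0 := by
      by_contra hx0
      have hn : 0 < ‖x‖ := norm_pos_iff.2 hx0
      have h1 : ‖x‖⁻¹ • x ∈ C ∩ Metric.sphere (0 : V d) 1 := by
        refine ⟨hs x hx _ (inv_pos.2 hn), ?_⟩
        rw [mem_sphere_zero_iff_norm, norm_smul, norm_inv, norm_norm, inv_mul_cancel₀ hn.ne']
      rw [he] at h1
      exact h1
    rw [hx0]; simp
  · obtain ⟨x0, hx0, hmax⟩ := hK.exists_isMaxOn hne (continuous_dot ξ).continuousOn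
    have hx0n : x0 ≠ 0 := by
      rintro rfl
      have := hx0.2
      simp at this
    refine ⟨-(ξ ⬝ᵥ x0), by linarith [hneg x0 hx0.1 hx0n], fun x hx => ?_⟩
    by_cases hx1 : x = 0
    · rw [hx1]; simp
    · have hn : 0 < ‖x‖ := norm_pos_iff.2 hx1
      have h1 : ‖x‖⁻¹ • x ∈ C ∩ Metric.sphere (0 : V d) 1 := by
        refine ⟨hs x hx _ (inv_pos.2 hn), ?_⟩
        rw [mem_sphere_zero_iff_norm, norm_smul, norm_inv, norm_norm, inv_mul_cancel₀ hn.ne']
      have h2 : ξ ⬝ᵥ (‖x‖⁻¹ • x) ≤ ξ ⬝ᵥ x0 := hmax h1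
      rw [dotProduct_smul, smul_eq_mul, inv_mul_le_iff₀ hn] at h2
      linarith

theorem smul_cone {d : ℕ} {C : Set (V d)} (hs : ∀ x ∈ C, ∀ a : ℝ, 0 < a → a • x ∈ C) {a : ℝ}
    (ha : 0 < a) : a • C = C := by
  ext x
  rw [mem_smul_set_iff_inv_smul_mem₀ ha.ne']
  constructor
  · intro h
    have := hs _ h a ha
    rwa [smul_inv_smul₀ ha.ne'] at this
  · intro h
    exact hs _ h _ (inv_pos.2 ha)

end PowerPiece

open PowerPiece in
open scoped Pointwise in
theorem stmtPOWER : StmtPOWER := by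
  intro d C G c ξ hC hint hs hneg hG hae
  obtain ⟨δ, hδ, hle⟩ := exists_delta hC hs hneg
  have hCm : MeasurableSet C := hC.measurableSet
  have hGm : MeasurableSet G := hG.measurableSet
  have hcd : Continuous (fun x : V d => ξ ⬝ᵥ x) := continuous_dot ξ
  -- integrability
  have hI : ∀ a : ℝ, 0 < a → IntegrableOn (fun x => Real.exp (a * (ξ ⬝ᵥ x))) C := by
    intro a ha
    refine Integrable.mono' (integrable_exp_neg_norm (d := d) (mul_pos ha hδ)).integrableOn
      (by fun_prop) ?_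
    refine (ae_restrict_iff' hCm).2 (Eventually.of_forall fun x hx => ?_)
    rw [Real.norm_eq_abs, abs_of_pos (Real.exp_pos _), Real.exp_le_exp]
    have := mul_le_mul_of_nonneg_left (hle x hx) ha.le
    linarith
  have hI1 : IntegrableOn (fun x => Real.exp (ξ ⬝ᵥ x)) C := by
    have := hI 1 one_pos
    simpa using this
  have hpos : 0 < ∫ x in C, Real.exp (ξ ⬝ᵥ x) := by
    have : NeZero ((volume : Measure (V d)).restrict C) := by
      refine ⟨fun h => ?_⟩
      have h1 : (volume : Measure (V d)) C = 0 := by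
        rw [← Measure.restrict_apply_univ, h]; rfl
      have h2 : 0 < (volume : Measure (V d)) C :=
        lt_of_lt_of_le (isOpen_interior.measure_pos _ hint) (measure_mono interior_subset)
      exact h2.ne' h1
    exact integral_exp_pos hI1
  set I : ℝ := ∫ x in C, Real.exp (ξ ⬝ᵥ x) with hIdef
  -- scaling
  have hscale : ∀ a : ℝ, 0 < a → a ^ d * ∫ x in C, Real.exp (a * (ξ ⬝ᵥ x)) = I := by
    intro a ha
    have h1 := Measure.setIntegral_comp_smul_of_pos (volume : Measure (V d))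
      (fun x => Real.exp (ξ ⬝ᵥ x)) C ha
    rw [smul_cone hs ha, Module.finrank_fin_fun] at h1
    have h2 : (∫ x in C, Real.exp (a * (ξ ⬝ᵥ x))) = ∫ x in C, Real.exp (ξ ⬝ᵥ (a • x)) := by
      refine integral_congr_ae (Eventually.of_forall fun x => ?_)
      simp only [dotProduct_smul, smul_eq_mul]
    rw [h2, h1, smul_eq_mul, ← mul_assoc, mul_inv_cancel₀ (pow_pos ha d).ne', one_mul]
  -- the identity for G
  have hGid : ∀ a : ℝ, 0 < a → ∫ x in G, Real.exp (a * (ξ ⬝ᵥ x)) =
      (c.sum fun y b => b * Real.exp (a * (ξ ⬝ᵥ y))) * ∫ x in C, Real.exp (a * (ξ ⬝ᵥ x)) := by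
    intro a ha
    have hbase : Integrable (fun x : V d => C.indicator (fun _ => (1 : ℝ)) x *
        Real.exp (a * (ξ ⬝ᵥ x))) := by
      have := (hI a ha).integrable_indicator hCm
      refine this.congr (Eventually.of_forall fun x => ?_)
      by_cases hx : x ∈ C <;> simp [hx]
    have hbv : (∫ x : V d, C.indicator (fun _ => (1 : ℝ)) x * Real.exp (a * (ξ ⬝ᵥ x))) =
        ∫ x in C, Real.exp (a * (ξ ⬝ᵥ x)) := by
      rw [← integral_indicator hCm]
      refine integral_congr_ae (Eventually.of_forall fun x => ?_)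
      by_cases hx : x ∈ C <;> simp [hx]
    have hshift : ∀ y : V d, (fun x : V d => C.indicator (fun _ => (1 : ℝ)) (x - y) *
        Real.exp (a * (ξ ⬝ᵥ x))) = fun x => Real.exp (a * (ξ ⬝ᵥ y)) *
          (C.indicator (fun _ => (1 : ℝ)) (x - y) * Real.exp (a * (ξ ⬝ᵥ (x - y)))) := by
      intro y
      funext x
      rw [dotProduct_sub]
      rw [show Real.exp (a * (ξ ⬝ᵥ x)) = Real.exp (a * (ξ ⬝ᵥ y)) *
        Real.exp (a * (ξ ⬝ᵥ x - ξ ⬝ᵥ y)) by rw [← Real.exp_add]; congr 1; ring]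
      ring
    have hty : ∀ y : V d, Integrable (fun x : V d => C.indicator (fun _ => (1 : ℝ)) (x - y) *
        Real.exp (a * (ξ ⬝ᵥ x))) := by
      intro y
      rw [hshift y]
      exact (hbase.comp_sub_right y).const_mul _
    have hvy : ∀ y : V d, (∫ x : V d, C.indicator (fun _ => (1 : ℝ)) (x - y) *
        Real.exp (a * (ξ ⬝ᵥ x))) = Real.exp (a * (ξ ⬝ᵥ y)) * ∫ x in C, Real.exp (a * (ξ ⬝ᵥ x)) := by
      intro y
      rw [hshift y, integral_const_mul,
        integral_sub_right_eq_self (fun x : V d => C.indicator (fun _ => (1 : ℝ)) x *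
          Real.exp (a * (ξ ⬝ᵥ x))) y, hbv]
    have hl : ∫ x in G, Real.exp (a * (ξ ⬝ᵥ x)) =
        ∫ x : V d, G.indicator (fun _ => (1 : ℝ)) x * Real.exp (a * (ξ ⬝ᵥ x)) := by
      rw [← integral_indicator hGm]
      refine integral_congr_ae (Eventually.of_forall fun x => ?_)
      by_cases hx : x ∈ G <;> simp [hx]
    rw [hl]
    have h2 : (∫ x : V d, G.indicator (fun _ => (1 : ℝ)) x * Real.exp (a * (ξ ⬝ᵥ x))) =
        ∫ x : V d, ∑ y ∈ c.support, c y * (C.indicator (fun _ => (1 : ℝ)) (x - y) *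
          Real.exp (a * (ξ ⬝ᵥ x))) := by
      refine integral_congr_ae ?_
      filter_upwards [hae] with x hx
      rw [hx, Finsupp.sum, Finset.sum_mul]
      refine Finset.sum_congr rfl fun y _ => ?_
      ring
    rw [h2, integral_finsetSum _ (fun y _ => (hty y).const_mul _), Finsupp.sum, Finset.sum_mul]
    refine Finset.sum_congr rfl fun y _ => ?_
    rw [integral_const_mul, hvy y]
    ring
  -- combined identity
  have hcomb : ∀ a : ℝ, 0 < a → a ^ d * ∫ x in G, Real.exp (a * (ξ ⬝ᵥ x)) =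
      I * c.sum fun y b => b * Real.exp (a * (ξ ⬝ᵥ y)) := by
    intro a ha
    rw [hGid a ha, ← hscale a ha]
    ring
  -- expansions
  set m : ℕ → ℝ := fun n => ∫ x in G, (ξ ⬝ᵥ x) ^ n with hm
  set p : ℕ → ℝ := fun j => c.sum fun y b => b * (ξ ⬝ᵥ y) ^ j with hp
  have hexp : ∀ t : ℝ, HasSum (fun n : ℕ => t ^ n / (n.factorial : ℝ)) (Real.exp t) := by
    intro t
    have := NormedSpace.expSeries_div_hasSum_exp t
    rwa [← Real.exp_eq_exp_ℝ] at this
  have hR : ∀ a : ℝ, HasSum (fun j : ℕ => I * p j / (j.factorial : ℝ) * a ^ j)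
      (I * c.sum fun y b => b * Real.exp (a * (ξ ⬝ᵥ y))) := by
    intro a
    have h1 : HasSum (fun j : ℕ => ∑ y ∈ c.support, c y * ((a * (ξ ⬝ᵥ y)) ^ j / (j.factorial : ℝ)))
        (∑ y ∈ c.support, c y * Real.exp (a * (ξ ⬝ᵥ y))) :=
      hasSum_sum fun y _ => (hexp _).mul_left _
    have h2 := h1.mul_left I
    rw [Finsupp.sum]
    refine h2.congr_fun ?_ |> id
    intro j
    rw [hp]
    simp only [Finsupp.sum]
    rw [Finset.mul_sum, Finset.mul_sum, Finset.sum_div, Finset.sum_mul]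
    refine Finset.sum_congr rfl fun y _ => ?_
    rw [mul_pow]
    ring
  obtain ⟨B, hB⟩ : ∃ B : ℝ, ∀ x ∈ G, |ξ ⬝ᵥ x| ≤ B := by
    obtain ⟨B, hB⟩ := hG.exists_bound_of_continuousOn hcd.continuousOn
    exact ⟨B, fun x hx => by simpa using hB x hx⟩
  have hfinG : (volume : Measure (V d)) G ≠ ⊤ := hG.measure_lt_top.ne
  have hcontG : ∀ (a : ℝ) (n : ℕ), IntegrableOn (fun x : V d => (a * (ξ ⬝ᵥ x)) ^ n / (n.factorial : ℝ)) G :=
    fun a n => (by fun_prop : Continuous fun x : V d =>
      (a * (ξ ⬝ᵥ x)) ^ n / (n.factorial : ℝ)).continuousOn.integrableOn_compact hG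
  have hL : ∀ a : ℝ, HasSum (fun n : ℕ => m n / (n.factorial : ℝ) * a ^ n)
      (∫ x in G, Real.exp (a * (ξ ⬝ᵥ x))) := by
    intro a
    have hB' : ∀ x ∈ G, |a * (ξ ⬝ᵥ x)| ≤ |a| * |B| := by
      intro x hx
      rw [abs_mul]
      exact mul_le_mul_of_nonneg_left ((hB x hx).trans (le_abs_self B)) (abs_nonneg a)
    have h1 : Summable fun n : ℕ => ∫ x in G, ‖(a * (ξ ⬝ᵥ x)) ^ n / (n.factorial : ℝ)‖ := by
      refine Summable.of_nonneg_of_le (fun n => integral_nonneg fun x => norm_nonneg _)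
        (fun n => ?_) ((Real.summable_pow_div_factorial (|a| * |B|)).mul_left
          ((volume : Measure (V d)).real G))
      have h2 : ∫ x in G, ‖(a * (ξ ⬝ᵥ x)) ^ n / (n.factorial : ℝ)‖ ≤
          ∫ x in G, (|a| * |B|) ^ n / (n.factorial : ℝ) := by
        refine setIntegral_mono_on (hcontG a n).norm (integrableOn_const hfinG) hGm
          fun x hx => ?_
        rw [norm_div, norm_pow, Real.norm_eq_abs, Real.norm_natCast]
        have := pow_le_pow_left₀ (abs_nonneg _) (hB' x hx) n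
        gcongr
      rw [setIntegral_const, smul_eq_mul] at h2
      exact h2
    have h3 := hasSum_integral_of_summable_integral_norm
      (μ := (volume : Measure (V d)).restrict G)
      (F := fun (n : ℕ) (x : V d) => (a * (ξ ⬝ᵥ x)) ^ n / (n.factorial : ℝ)) (hcontG a) h1
    have h4 : (∫ x in G, ∑' n : ℕ, (a * (ξ ⬝ᵥ x)) ^ n / (n.factorial : ℝ)) =
        ∫ x in G, Real.exp (a * (ξ ⬝ᵥ x)) := by
      refine integral_congr_ae (Eventually.of_forall fun x => ?_)
      exact (hexp _).tsum_eq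
    rw [h4] at h3
    refine h3.congr_fun ?_ |> id
    intro n
    rw [hm]
    simp only
    rw [show (fun x : V d => (a * (ξ ⬝ᵥ x)) ^ n / (n.factorial : ℝ)) =
      fun x => (a ^ n / (n.factorial : ℝ)) * (ξ ⬝ᵥ x) ^ n by funext x; rw [mul_pow]; ring,
      integral_const_mul]
    ring
  set u : ℕ → ℝ := fun j => if j < d then 0 else m (j - d) / ((j - d).factorial : ℝ) with hu
  have hLu : ∀ a : ℝ, HasSum (fun j : ℕ => u j * a ^ j)
      (a ^ d * ∫ x in G, Real.exp (a * (ξ ⬝ᵥ x))) := by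
    intro a
    have h1 := (hL a).mul_left (a ^ d)
    have h2 : HasSum (fun n : ℕ => u (n + d) * a ^ (n + d))
        (a ^ d * ∫ x in G, Real.exp (a * (ξ ⬝ᵥ x))) := by
      refine h1.congr_fun ?_ |> id
      intro n
      rw [hu]
      simp only [Nat.add_sub_cancel, not_lt.2 (Nat.le_add_left d n), if_false]
      rw [pow_add]
      ring
    have h3 := (hasSum_nat_add_iff (f := fun j : ℕ => u j * a ^ j) d).1 h2
    rw [Finset.sum_eq_zero (fun i hi => by
      rw [hu]; simp [Finset.mem_range.1 hi]), add_zero] at h3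
    exact h3
  have hb : ∀ j, I * p j / (j.factorial : ℝ) - u j = 0 := by
    refine coef_zero (fun j => I * p j / (j.factorial : ℝ) - u j) ?_ ?_
    · have h1 := ((hR 1).sub (hLu 1)).summable
      refine h1.congr fun j => ?_
      simp
    · intro a ha _
      have h1 := (hR a).sub (hLu a)
      rw [hcomb a ha, sub_self] at h1
      refine h1.congr_fun ?_ |> id
      intro j
      ring
  refine ⟨hI1, hpos, fun j hj => ?_, fun n => ?_⟩
  · have h1 := hb j
    rw [hu] at h1
    simp only [hj, if_true, sub_zero] at h1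
    have hf : ((j.factorial : ℕ) : ℝ) ≠ 0 := by positivity
    have h2 : I * p j = 0 := by
      rcases div_eq_zero_iff.1 h1 with h | h
      · exact h
      · exact absurd h hf
    rcases mul_eq_zero.1 h2 with h | h
    · exact absurd h hpos.ne'
    · exact h
  · have h1 := hb (n + d)
    rw [hu] at h1
    simp only [Nat.add_sub_cancel, not_lt.2 (Nat.le_add_left d n), if_false] at h1
    have h2 : p (n + d) / ((n + d).factorial : ℝ) * I = m n / (n.factorial : ℝ) := by
      have h3 : I * p (n + d) / ((n + d).factorial : ℝ) = m n / (n.factorial : ℝ) := by linarith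
      rw [← h3]; ring
    exact h2

end Pool.Agent.R896.PA
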