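import Pool.Agent.R896.PA.Defs

set_option autoImplicit false

/-! Piece PROD (by helper706, after helper896). -/

open Filter Topology Function

namespace Pool.Agent.R896.PA

namespace PROD

variable {d : ℕ}

theorem evalQ_zero (c : (Fin d → ℕ) →₀ ℂ) : evalQ c 0 = c 0 := by
  classical
  unfold evalQ
  rw [Finsupp.sum, Finset.sum_eq_single (0 : Fin d → ℕ)]
  · simp
  · intro y _ hy
    obtain ⟨i, hi⟩ := Function.ne_iff.1 hy
    rw [Finset.prod_eq_zero (Finset.mem_univ i), mul_zero]
    simpa using hi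
  · intro h
    rw [Finsupp.notMem_support_iff.1 h, zero_mul]

theorem evalQ_cont (c : (Fin d → ℕ) →₀ ℂ) : Continuous (evalQ c) := by
  unfold evalQ Finsupp.sum
  fun_prop

theorem evalQ_line (c : (Fin d → ℕ) →₀ ℂ) (z : Fin d → ℂ) :
    ∃ g : Polynomial ℂ, ∀ s : ℂ, g.eval s = evalQ c (s • z) := by
  refine ⟨∑ y ∈ c.support, Polynomial.C (c y * ∏ i, z i ^ y i) * Polynomial.X ^ (∑ i, y i),
    fun s => ?_⟩
  rw [Polynomial.eval_finsetSum]
  unfold evalQ Finsupp.sum
  refine Finset.sum_congr rfl fun y _ => ?_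
  simp only [Polynomial.eval_mul, Polynomial.eval_C, Polynomial.eval_pow, Polynomial.eval_X,
    Pi.smul_apply, smul_eq_mul, mul_pow, Finset.prod_mul_distrib, Finset.prod_pow_eq_pow_sum]
  ring

/-- uniqueness of coefficients -/
theorem evalQ_inj (c c' : (Fin d → ℕ) →₀ ℂ) (h : ∀ z, evalQ c z = evalQ c' z) : c = c' := by
  classical
  have key : ∀ e : (Fin d → ℕ) →₀ ℂ, ∃ p : MvPolynomial (Fin d) ℂ,
      (∀ z, MvPolynomial.eval z p = evalQ e z) ∧
      ∀ y, MvPolynomial.coeff (Finsupp.equivFunOnFinite.symm y) p = e y := by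
    intro e
    refine ⟨∑ y ∈ e.support, MvPolynomial.monomial (Finsupp.equivFunOnFinite.symm y) (e y),
      fun z => ?_, fun y => ?_⟩
    · rw [map_sum]
      unfold evalQ Finsupp.sum
      refine Finset.sum_congr rfl fun y _ => ?_
      rw [MvPolynomial.eval_monomial, Finsupp.prod_fintype _ _ (fun i => pow_zero _)]
      rfl
    · rw [MvPolynomial.coeff_sum]
      have : ∀ x ∈ e.support, MvPolynomial.coeff (Finsupp.equivFunOnFinite.symm y)
          (MvPolynomial.monomial (Finsupp.equivFunOnFinite.symm x) (e x))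
          = if x = y then e x else 0 := by
        intro x _
        rw [MvPolynomial.coeff_monomial]
        simp only [EmbeddingLike.apply_eq_iff_eq]
      rw [Finset.sum_congr rfl this, Finset.sum_ite_eq']
      split_ifs with hy
      · rfl
      · exact (Finsupp.notMem_support_iff.1 hy).symm
  obtain ⟨p, hp1, hp2⟩ := key c
  obtain ⟨p', hp1', hp2'⟩ := key c'
  have : p = p' := MvPolynomial.funext fun z => by rw [hp1, hp1', h]
  ext y
  rw [← hp2, ← hp2', this]

/-- the coefficient of `z_i ^ m` -/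
noncomputable def cm (c : (Fin d → ℕ) →₀ ℂ) (i : Fin d) (m : ℕ) : (Fin d → ℕ) →₀ ℂ :=
  Finsupp.onFinset (c.support.image fun y => update y i 0)
    (fun y => if y i = 0 then c (update y i m) else 0) (by
      intro y hy
      rw [Finset.mem_image]
      by_cases h : y i = 0
      · refine ⟨update y i m, ?_, ?_⟩
        · rw [if_pos h] at hy
          exact Finsupp.mem_support_iff.2 hy
        · rw [update_idem, ← h, update_eq_self]
      · exact absurd (if_neg h) hy)

theorem cm_apply (c : (Fin d → ℕ) →₀ ℂ) (i : Fin d) (m : ℕ) (y : Fin d → ℕ) :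
    cm c i m y = if y i = 0 then c (update y i m) else 0 := rfl

theorem prod_split (z : Fin d → ℂ) (y : Fin d → ℕ) (i : Fin d) :
    ∏ j, z j ^ y j = (∏ j, z j ^ (update y i 0) j) * z i ^ y i := by
  classical
  rw [← Finset.mul_prod_erase Finset.univ (fun j => z j ^ y j) (Finset.mem_univ i),
    ← Finset.mul_prod_erase Finset.univ (fun j => z j ^ (update y i 0) j) (Finset.mem_univ i),
    update_self, pow_zero, one_mul, mul_comm]
  congr 1
  refine Finset.prod_congr rfl fun j hj => ?_
  rw [update_of_ne (Finset.ne_of_mem_erase hj)]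

theorem split (c : (Fin d → ℕ) →₀ ℂ) (i : Fin d) (A : ℕ) (hA : ∀ y ∈ c.support, y i ≤ A)
    (z : Fin d → ℂ) : evalQ c z = ∑ m ∈ Finset.range (A + 1), evalQ (cm c i m) z * z i ^ m := by
  classical
  unfold evalQ Finsupp.sum
  rw [← Finset.sum_fiberwise_of_maps_to (t := Finset.range (A + 1)) (g := fun y => y i)
    (fun y hy => Finset.mem_range.2 (Nat.lt_succ_of_le (hA y hy)))]
  refine Finset.sum_congr rfl fun m _ => ?_
  rw [Finset.sum_mul]
  refine Finset.sum_nbij' (fun y => update y i 0) (fun y => update y i m) ?_ ?_ ?_ ?_ ?_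
  · intro y hy
    rw [Finset.mem_filter] at hy
    rw [Finsupp.mem_support_iff, cm_apply, if_pos (update_self _ _ _), update_idem, ← hy.2,
      update_eq_self]
    exact Finsupp.mem_support_iff.1 hy.1
  · intro y hy
    rw [Finsupp.mem_support_iff, cm_apply] at hy
    rw [Finset.mem_filter]
    refine ⟨?_, update_self _ _ _⟩
    rw [Finsupp.mem_support_iff]
    intro h
    rw [h, ite_self] at hy
    exact hy rfl
  · intro y hy
    rw [Finset.mem_filter] at hy
    rw [update_idem, ← hy.2, update_eq_self]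
  · intro y hy
    rw [Finsupp.mem_support_iff, cm_apply] at hy
    have h : y i = 0 := by
      by_contra h
      rw [if_neg h] at hy
      exact hy rfl
    rw [update_idem, ← h, update_eq_self]
  · intro y hy
    rw [Finset.mem_filter] at hy
    rw [cm_apply, if_pos (update_self _ _ _), update_idem, ← hy.2, update_eq_self]
    change c y * (∏ j, z j ^ y j) = (c y * ∏ j, z j ^ (update y i 0) j) * z i ^ y i
    rw [prod_split z y i]
    ring

theorem cm_indep (c : (Fin d → ℕ) →₀ ℂ) (i : Fin d) (m : ℕ) (z : Fin d → ℂ) (w : ℂ) :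
    evalQ (cm c i m) (update z i w) = evalQ (cm c i m) z := by
  unfold evalQ Finsupp.sum
  refine Finset.sum_congr rfl fun y hy => ?_
  rw [Finsupp.mem_support_iff, cm_apply] at hy
  have h : y i = 0 := by
    by_contra h
    rw [if_neg h] at hy
    exact hy rfl
  change cm c i m y * (∏ j, (update z i w) j ^ y j) = cm c i m y * (∏ j, z j ^ y j)
  congr 1
  refine Finset.prod_congr rfl fun j _ => ?_
  by_cases hj : j = i
  · subst hj
    rw [h, pow_zero, pow_zero]
  · rw [update_of_ne hj]

theorem split_update (c : (Fin d → ℕ) →₀ ℂ) (i : Fin d) (A : ℕ)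
    (hA : ∀ y ∈ c.support, y i ≤ A) (z : Fin d → ℂ) (t : ℂ) :
    evalQ c (update z i t) = ∑ m ∈ Finset.range (A + 1), evalQ (cm c i m) z * t ^ m := by
  rw [split c i A hA]
  refine Finset.sum_congr rfl fun m _ => ?_
  rw [cm_indep, update_self]

theorem split_update_zero (c : (Fin d → ℕ) →₀ ℂ) (i : Fin d) (A : ℕ)
    (hA : ∀ y ∈ c.support, y i ≤ A) (z : Fin d → ℂ) :
    evalQ c (update z i 0) = evalQ (cm c i 0) z := by
  rw [split_update c i A hA, Finset.sum_eq_single 0]
  · rw [pow_zero, mul_one]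
  · intro m _ hm
    rw [zero_pow hm, mul_zero]
  · intro h
    exact absurd (Finset.mem_range.2 (Nat.succ_pos A)) h

/-- iterating the functional equation -/
theorem iter_zero (c : (Fin d → ℕ) →₀ ℂ) (lam : Fin d → ℕ) (P : (Fin d → ℂ) → ℂ)
    (hP : ∀ z, evalQ c (fun i => z i ^ lam i) = P z * evalQ c z) (z : Fin d → ℂ)
    (hz : evalQ c z = 0) (k : ℕ) : evalQ c (fun i => z i ^ (lam i ^ k)) = 0 := by
  induction k with
  | zero => simpa using hz
  | succ k ih =>
    have h := hP (fun i => z i ^ (lam i ^ k))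
    rw [ih, mul_zero] at h
    rw [← h]
    congr 1
    funext i
    rw [← pow_mul, pow_succ]

theorem pow_tend {w : ℂ} (hw : ‖w‖ < 1) {l : ℕ} (hl : 2 ≤ l) (n : ℕ) :
    Tendsto (fun k : ℕ => w ^ (l ^ k * n)) atTop (𝓝 (if n = 0 then 1 else 0)) := by
  by_cases hn : n = 0
  · rw [if_pos hn]
    simp [hn]
  · rw [if_neg hn]
    have h1 : Tendsto (fun k : ℕ => l ^ k * n) atTop atTop := by
      refine tendsto_atTop_mono (fun k => ?_) tendsto_id
      have h2 : k < l ^ k := Nat.lt_pow_self (by omega)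
      have h3 : 1 ≤ n := Nat.one_le_iff_ne_zero.2 hn
      calc id k = k * 1 := (mul_one k).symm
        _ ≤ l ^ k * n := Nat.mul_le_mul h2.le h3
    exact (tendsto_pow_atTop_nhds_zero_of_norm_lt_one hw).comp h1

theorem nonvanish (c : (Fin d → ℕ) →₀ ℂ) (a lam : Fin d → ℕ) (P : (Fin d → ℂ) → ℂ)
    (hl : ∀ i, 2 ≤ lam i) (ha : ∀ y ∈ c.support, ∀ i, y i ≤ a i)
    (hc : ∀ w : Fin d → ℕ, (∀ i, w i = 0 ∨ w i = a i) → c w ≠ 0)
    (hP : ∀ z, evalQ c (fun i => z i ^ lam i) = P z * evalQ c z)
    (z : Fin d → ℂ) (hz : ∀ i, ‖z i‖ ≠ 1) : evalQ c z ≠ 0 := by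
  classical
  intro h0
  set w : Fin d → ℕ := fun i => if 1 < ‖z i‖ then a i else 0 with hw
  apply hc w
  · intro i
    by_cases h : 1 < ‖z i‖
    · right; simp only [hw, if_pos h]
    · left; simp only [hw, if_neg h]
  set g : (Fin d → ℕ) → ℕ → Fin d → ℂ := fun y k i =>
    if 1 < ‖z i‖ then (z i)⁻¹ ^ (lam i ^ k * (a i - y i)) else z i ^ (lam i ^ k * y i) with hg
  have hfac : ∀ y ∈ c.support, ∀ i, Tendsto (fun k => g y k i) atTop
      (𝓝 (if y i = w i then 1 else 0)) := by
    intro y hy i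
    by_cases h : 1 < ‖z i‖
    · simp only [hg, hw, if_pos h]
      have h1 : ‖(z i)⁻¹‖ < 1 := by
        rw [norm_inv]; exact inv_lt_one_of_one_lt₀ h
      have h2 := pow_tend h1 (hl i) (a i - y i)
      have h3 : (a i - y i = 0) ↔ (y i = a i) := by
        have := ha y hy i
        omega
      simpa only [h3] using h2
    · simp only [hg, hw, if_neg h]
      have h1 : ‖z i‖ < 1 := lt_of_le_of_ne (not_lt.1 h) (hz i)
      exact pow_tend h1 (hl i) (y i)
  have hsum : Tendsto (fun k => ∑ y ∈ c.support, c y * ∏ i, g y k i) atTop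
      (𝓝 (∑ y ∈ c.support, c y * ∏ i, (if y i = w i then (1 : ℂ) else 0))) := by
    refine tendsto_finsetSum _ fun y hy => Tendsto.mul tendsto_const_nhds ?_
    exact tendsto_finsetProd _ fun i _ => hfac y hy i
  have hlim : (∑ y ∈ c.support, c y * ∏ i, (if y i = w i then (1 : ℂ) else 0)) = c w := by
    rw [Finset.sum_eq_single w]
    · simp
    · intro y _ hy
      obtain ⟨i, hi⟩ := Function.ne_iff.1 hy
      rw [Finset.prod_eq_zero (Finset.mem_univ i) (if_neg hi), mul_zero]
    · intro h
      rw [Finsupp.notMem_support_iff.1 h, zero_mul]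
  have hzero : ∀ k, ∑ y ∈ c.support, c y * ∏ i, g y k i = 0 := by
    intro k
    have h1 := iter_zero c lam P hP z h0 k
    have h2 : evalQ c (fun i => z i ^ (lam i ^ k)) =
        (∏ i, (if 1 < ‖z i‖ then z i ^ (lam i ^ k * a i) else 1)) *
          ∑ y ∈ c.support, c y * ∏ i, g y k i := by
      unfold evalQ Finsupp.sum
      rw [Finset.mul_sum]
      refine Finset.sum_congr rfl fun y hy => ?_
      change c y * ∏ i, (z i ^ (lam i ^ k)) ^ y i =
        (∏ i, (if 1 < ‖z i‖ then z i ^ (lam i ^ k * a i) else 1)) * (c y * ∏ i, g y k i)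
      rw [mul_left_comm, ← Finset.prod_mul_distrib]
      congr 1
      refine Finset.prod_congr rfl fun i _ => ?_
      by_cases h : 1 < ‖z i‖
      · simp only [hg, if_pos h]
        have hne : z i ≠ 0 := by
          intro h'
          rw [h', norm_zero] at h
          linarith
        have h3 : lam i ^ k * a i = lam i ^ k * y i + lam i ^ k * (a i - y i) := by
          rw [← mul_add, Nat.add_sub_cancel' (ha y hy i)]
        rw [h3, pow_add, mul_assoc, ← mul_pow, mul_inv_cancel₀ hne, one_pow, mul_one, pow_mul]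
      · simp only [hg, if_neg h]
        rw [one_mul, pow_mul]
    rw [h2] at h1
    rcases mul_eq_zero.1 h1 with h3 | h3
    · exfalso
      rw [Finset.prod_eq_zero_iff] at h3
      obtain ⟨i, _, hi⟩ := h3
      by_cases h : 1 < ‖z i‖
      · rw [if_pos h] at hi
        have : z i = 0 := by
          by_contra h'
          exact pow_ne_zero _ h' hi
        rw [this, norm_zero] at h
        linarith
      · rw [if_neg h] at hi
        exact one_ne_zero hi
    · exact h3
  rw [← hlim]
  exact tendsto_nhds_unique hsum (by simp only [hzero]; exact tendsto_const_nhds)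

theorem bound (c : (Fin d → ℕ) →₀ ℂ) (a : Fin d → ℕ) (ha : ∀ y ∈ c.support, ∀ i, y i ≤ a i)
    (hnv : ∀ z : Fin d → ℂ, (∀ i, ‖z i‖ ≠ 1) → evalQ c z ≠ 0) (i : Fin d) (m : ℕ)
    (hm : m ≤ a i) (z : Fin d → ℂ) (hz : ∀ j, ‖z j‖ ≠ 1) :
    ‖evalQ (cm c i m) z‖ ≤ (a i).choose (a i / 2) * ‖evalQ (cm c i 0) z‖ := by
  classical
  have hA : ∀ y ∈ c.support, y i ≤ a i := fun y hy => ha y hy i
  have hq0 : evalQ (cm c i 0) z ≠ 0 := by
    rw [← split_update_zero c i (a i) hA]
    refine hnv _ fun j => ?_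
    by_cases hj : j = i
    · subst hj; simp
    · rw [update_of_ne hj]; exact hz j
  set q0 := evalQ (cm c i 0) z with hq0d
  set A := a i with hAd
  set f : Polynomial ℂ := ∑ n ∈ Finset.range (A + 1),
    Polynomial.C (q0⁻¹ * evalQ (cm c i n) z) * Polynomial.X ^ (A - n) with hf
  have hcoeff : ∀ n ≤ A, f.coeff (A - n) = q0⁻¹ * evalQ (cm c i n) z := by
    intro n hn
    rw [hf, Polynomial.finsetSum_coeff, Finset.sum_eq_single n]
    · rw [Polynomial.coeff_C_mul_X_pow, if_pos rfl]
    · intro b hb hbn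
      rw [Polynomial.coeff_C_mul_X_pow, if_neg]
      have := Finset.mem_range.1 hb
      omega
    · intro h
      exact absurd (Finset.mem_range.2 (Nat.lt_succ_of_le hn)) h
  have hdeg : f.natDegree ≤ A := by
    refine Polynomial.natDegree_sum_le_of_forall_le _ _ fun n _ => ?_
    exact (Polynomial.natDegree_C_mul_X_pow_le _ _).trans (Nat.sub_le _ _)
  have hmonic : f.Monic := by
    refine Polynomial.monic_of_natDegree_le_of_coeff_eq_one A hdeg ?_
    have := hcoeff 0 (Nat.zero_le _)
    rw [Nat.sub_zero] at this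
    rw [this, inv_mul_cancel₀ hq0]
  have hroots : ∀ w ∈ (Polynomial.map (RingHom.id ℂ) f).roots, ‖w‖ ≤ 1 := by
    intro w hw
    rw [Polynomial.map_id] at hw
    by_contra hlt
    rw [not_le] at hlt
    have hw0 : w ≠ 0 := by
      intro h'
      rw [h', norm_zero] at hlt
      linarith
    have h1 : f.eval w = 0 := (Polynomial.mem_roots'.1 hw).2
    have h2 : f.eval w = q0⁻¹ * w ^ A * evalQ c (update z i w⁻¹) := by
      rw [split_update c i A hA, Finset.mul_sum, hf, Polynomial.eval_finsetSum]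
      refine Finset.sum_congr rfl fun n hn => ?_
      have hn' : n ≤ A := Nat.lt_succ_iff.1 (Finset.mem_range.1 hn)
      rw [Polynomial.eval_mul, Polynomial.eval_C, Polynomial.eval_pow, Polynomial.eval_X]
      have h3 : w ^ A = w ^ (A - n) * w ^ n := by rw [← pow_add, Nat.sub_add_cancel hn']
      rw [h3, inv_pow]
      field_simp
    rw [h2] at h1
    have h3 : evalQ c (update z i w⁻¹) ≠ 0 := by
      refine hnv _ fun j => ?_
      by_cases hj : j = i
      · subst hj
        rw [update_self, norm_inv]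
        exact (inv_lt_one_of_one_lt₀ hlt).ne
      · rw [update_of_ne hj]; exact hz j
    exact mul_ne_zero (mul_ne_zero (inv_ne_zero hq0) (pow_ne_zero _ hw0)) h3 h1
  have hb := Polynomial.coeff_bdd_of_roots_le (B := 1) (d := A) (RingHom.id ℂ) hmonic
    (IsAlgClosed.splits _) hdeg hroots (A - m)
  rw [Polynomial.map_id, hcoeff m hm, max_self, one_pow, one_mul, norm_mul, norm_inv] at hb
  have hpos : 0 < ‖q0‖ := norm_pos_iff.2 hq0
  rw [inv_mul_le_iff₀ hpos] at hb
  linarith

theorem dense_ne : Dense {z : Fin d → ℂ | ∀ j, ‖z j‖ ≠ 1} := by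
  have h1 : Dense {w : ℂ | ‖w‖ ≠ 1} := by
    have h2 := interior_eq_empty_iff_dense_compl.1 (interior_sphere (0 : ℂ) one_ne_zero)
    have h3 : (Metric.sphere (0 : ℂ) 1)ᶜ = {w : ℂ | ‖w‖ ≠ 1} := by
      ext w
      simp
    rwa [h3] at h2
  have h4 := dense_pi (Set.univ : Set (Fin d)) (s := fun _ => {w : ℂ | ‖w‖ ≠ 1}) fun _ _ => h1
  have h5 : Set.pi (Set.univ : Set (Fin d)) (fun _ => {w : ℂ | ‖w‖ ≠ 1})
      = {z : Fin d → ℂ | ∀ j, ‖z j‖ ≠ 1} := by
    ext z
    simp
  rwa [h5] at h4

theorem bound_all (c : (Fin d → ℕ) →₀ ℂ) (a : Fin d → ℕ)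
    (ha : ∀ y ∈ c.support, ∀ i, y i ≤ a i)
    (hnv : ∀ z : Fin d → ℂ, (∀ i, ‖z i‖ ≠ 1) → evalQ c z ≠ 0) (i : Fin d) (m : ℕ)
    (hm : m ≤ a i) (z : Fin d → ℂ) :
    ‖evalQ (cm c i m) z‖ ≤ (a i).choose (a i / 2) * ‖evalQ (cm c i 0) z‖ := by
  have hcl : IsClosed {z : Fin d → ℂ |
      ‖evalQ (cm c i m) z‖ ≤ (a i).choose (a i / 2) * ‖evalQ (cm c i 0) z‖} :=
    isClosed_le (evalQ_cont _).norm (continuous_const.mul (evalQ_cont _).norm)
  have hsub : {z : Fin d → ℂ | ∀ j, ‖z j‖ ≠ 1} ⊆ {z : Fin d → ℂ |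
      ‖evalQ (cm c i m) z‖ ≤ (a i).choose (a i / 2) * ‖evalQ (cm c i 0) z‖} :=
    fun z hz => bound c a ha hnv i m hm z hz
  have := hcl.closure_subset_iff.2 hsub
  rw [dense_ne.closure_eq] at this
  exact this (Set.mem_univ z)

/-- a polynomial dominated by another one is a multiple of it -/
theorem dominated (n : ℕ) : ∀ (g h : Polynomial ℂ) (K : ℝ), h.natDegree = n → h ≠ 0 →
    (∀ s : ℂ, ‖g.eval s‖ ≤ K * ‖h.eval s‖) → ∃ κ : ℂ, g = Polynomial.C κ * h := by
  induction n with
  | zero =>
    intro g h K hn h0 hK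
    obtain ⟨b, hb⟩ : ∃ b, h = Polynomial.C b := ⟨_, Polynomial.eq_C_of_natDegree_eq_zero hn⟩
    have hb0 : b ≠ 0 := by
      rintro rfl
      rw [map_zero] at hb
      exact h0 hb
    have hbdd : Bornology.IsBounded (Set.range fun s : ℂ => g.eval s) := by
      rw [isBounded_iff_forall_norm_le]
      refine ⟨K * ‖b‖, ?_⟩
      rintro _ ⟨s, rfl⟩
      have := hK s
      rw [hb, Polynomial.eval_C] at this
      exact this
    have hconst : ∀ s, g.eval s = g.eval 0 := fun s =>
      Differentiable.apply_eq_apply_of_bounded g.differentiable hbdd s 0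
    refine ⟨g.eval 0 / b, ?_⟩
    refine Polynomial.funext fun s => ?_
    rw [hconst s, hb, Polynomial.eval_mul, Polynomial.eval_C, Polynomial.eval_C]
    field_simp
  | succ n ih =>
    intro g h K hn h0 hK
    obtain ⟨α, hα⟩ := Complex.exists_root (f := h) (by
      rw [← Polynomial.natDegree_pos_iff_degree_pos, hn]
      exact Nat.succ_pos n)
    have hgα : g.IsRoot α := by
      have := hK α
      rw [Polynomial.IsRoot.def.1 hα, norm_zero, mul_zero] at this
      exact norm_le_zero_iff.1 this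
    obtain ⟨h1, hh1⟩ := Polynomial.dvd_iff_isRoot.2 hα
    obtain ⟨g1, hg1⟩ := Polynomial.dvd_iff_isRoot.2 hgα
    have hh10 : h1 ≠ 0 := by
      rintro rfl
      rw [mul_zero] at hh1
      exact h0 hh1
    have hdeg : h1.natDegree = n := by
      rw [hh1, Polynomial.natDegree_mul (Polynomial.X_sub_C_ne_zero α) hh10,
        Polynomial.natDegree_X_sub_C] at hn
      omega
    have hcl : IsClosed {s : ℂ | ‖g1.eval s‖ ≤ K * ‖h1.eval s‖} :=
      isClosed_le g1.continuous.norm (continuous_const.mul h1.continuous.norm)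
    have hsub : ({α}ᶜ : Set ℂ) ⊆ {s : ℂ | ‖g1.eval s‖ ≤ K * ‖h1.eval s‖} := by
      intro s hs
      have hs' : s - α ≠ 0 := sub_ne_zero.2 hs
      have h2 := hK s
      rw [hg1, hh1, Polynomial.eval_mul, Polynomial.eval_mul, Polynomial.eval_sub,
        Polynomial.eval_X, Polynomial.eval_C, norm_mul, norm_mul] at h2
      have hpos : 0 < ‖s - α‖ := norm_pos_iff.2 hs'
      have h3 : ‖s - α‖ * ‖g1.eval s‖ ≤ ‖s - α‖ * (K * ‖h1.eval s‖) := by
        calc _ ≤ _ := h2
          _ = _ := by ring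
      exact le_of_mul_le_mul_left h3 hpos
    have h4 := hcl.closure_subset_iff.2 hsub
    rw [(dense_compl_singleton α).closure_eq] at h4
    obtain ⟨κ, hκ⟩ := ih g1 h1 K hdeg hh10 fun s => h4 (Set.mem_univ s)
    refine ⟨κ, ?_⟩
    rw [hg1, hh1, hκ]
    ring

theorem cm_zero (c : (Fin d → ℕ) →₀ ℂ) (i : Fin d) (m : ℕ) :
    cm c i m 0 = c (Pi.single i m) := by
  rw [cm_apply, if_pos (Pi.zero_apply i)]
  rfl

theorem factor_one (c : (Fin d → ℕ) →₀ ℂ) (a : Fin d → ℕ)
    (ha : ∀ y ∈ c.support, ∀ i, y i ≤ a i)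
    (hnv : ∀ z : Fin d → ℂ, (∀ i, ‖z i‖ ≠ 1) → evalQ c z ≠ 0) (h0 : c 0 = 1) (i : Fin d)
    (y : Fin d → ℕ) : c y = c (Pi.single i (y i)) * c (update y i 0) := by
  classical
  have key : ∀ m ≤ a i, cm c i m = c (Pi.single i m) • cm c i 0 := by
    intro m hm
    refine evalQ_inj _ _ fun z => ?_
    obtain ⟨g, hg⟩ := evalQ_line (cm c i m) z
    obtain ⟨h, hh⟩ := evalQ_line (cm c i 0) z
    have e0 : h.eval 0 = 1 := by
      rw [hh, zero_smul, evalQ_zero, cm_zero, Pi.single_zero, h0]
    have e1 : g.eval 0 = c (Pi.single i m) := by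
      rw [hg, zero_smul, evalQ_zero, cm_zero]
    have hne : h ≠ 0 := by
      rintro rfl
      rw [Polynomial.eval_zero] at e0
      exact zero_ne_one e0
    obtain ⟨κ, hκ⟩ := dominated _ g h _ rfl hne fun s => by
      rw [hg, hh]
      exact bound_all c a ha hnv i m hm _
    have hκ' : κ = c (Pi.single i m) := by
      rw [← e1, hκ, Polynomial.eval_mul, Polynomial.eval_C, e0, mul_one]
    have e2 : evalQ (c (Pi.single i m) • cm c i 0) z
        = c (Pi.single i m) * evalQ (cm c i 0) z := by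
      unfold evalQ
      rw [Finsupp.sum_smul_index (fun y => by ring), Finsupp.mul_sum]
      refine Finset.sum_congr rfl fun y _ => ?_
      ring
    rw [e2]
    have e3 := hg 1
    have e4 := hh 1
    rw [one_smul] at e3 e4
    rw [← e3, ← e4, hκ, Polynomial.eval_mul, Polynomial.eval_C, hκ']
  by_cases hy : y i ≤ a i
  · have h1 := DFunLike.congr_fun (key (y i) hy) (update y i 0)
    rw [Finsupp.smul_apply, cm_apply, cm_apply, if_pos (update_self _ _ _),
      if_pos (update_self _ _ _), update_idem, update_idem, update_eq_self, smul_eq_mul] at h1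
    exact h1
  · have h1 : c y = 0 := by
      by_contra h
      exact hy (ha y (Finsupp.mem_support_iff.2 h) i)
    have h2 : c (Pi.single i (y i)) = 0 := by
      by_contra h
      have := ha _ (Finsupp.mem_support_iff.2 h) i
      rw [Pi.single_eq_same] at this
      exact hy this
    rw [h1, h2, zero_mul]

end PROD

theorem stmtPROD : StmtPROD := by
  classical
  intro d c a lam P hl ha hc hP h0 y
  have hnv := PROD.nonvanish c a lam P hl ha hc hP
  have key : ∀ s : Finset (Fin d), c y = (∏ i ∈ s, c (Pi.single i (y i))) *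
      c (fun j => if j ∈ s then 0 else y j) := by
    intro s
    induction s using Finset.induction_on with
    | empty => simp
    | insert i s hi ih =>
      rw [Finset.prod_insert hi, ih,
        PROD.factor_one c a ha hnv h0 i (fun j => if j ∈ s then 0 else y j)]
      have e1 : (if i ∈ s then 0 else y i) = y i := if_neg hi
      have e2 : update (fun j => if j ∈ s then 0 else y j) i 0
          = fun j => if j ∈ insert i s then 0 else y j := by
        funext j
        by_cases hj : j = i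
        · subst hj
          rw [update_self, if_pos (Finset.mem_insert_self _ _)]
        · rw [update_of_ne hj]
          by_cases hjs : j ∈ s
          · rw [if_pos hjs, if_pos (Finset.mem_insert_of_mem hjs)]
          · rw [if_neg hjs, if_neg]
            intro h
            rcases Finset.mem_insert.1 h with h | h
            · exact hj h
            · exact hjs h
      simp only [e1]
      rw [e2]
      ring
  have h := key Finset.univ
  have e : (fun j : Fin d => if j ∈ (Finset.univ : Finset (Fin d)) then 0 else y j)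
      = (0 : Fin d → ℕ) := by
    funext j
    rw [if_pos (Finset.mem_univ j)]
    rfl
  rw [e, h0, mul_one] at h
  exact h

end Pool.Agent.R896.PA
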