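import Pool.Agent.R896.PA.Geo4

/-!
The local cone is simplicial.
-/

open MeasureTheory Filter Topology

namespace Pool.Agent.R896.PA

variable {d : ℕ}

/-- The functional `x ↦ ξ ⬝ᵥ x`. -/
noncomputable def dotL (ξ : V d) : V d →ₗ[ℝ] ℝ where
  toFun x := ξ ⬝ᵥ x
  map_add' x y := by rw [dotProduct_add]
  map_smul' a x := by rw [dotProduct_smul]; rfl

lemma dotL_apply (ξ x : V d) : dotL ξ x = ξ ⬝ᵥ x := rfl

lemma exists_dot (f : V d →ₗ[ℝ] ℝ) : ∃ ξ : V d, f = dotL ξ := by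
  refine ⟨fun i => f (Pi.single i 1), ?_⟩
  apply LinearMap.pi_ext'
  intro i
  ext
  simp [dotL_apply, dotProduct]
  simp [Pi.single_apply]

lemma poly_ext_open {p q : MvPolynomial (Fin d) ℝ} {Ω : Set (V d)} (hΩ : IsOpen Ω)
    (hne : Ω.Nonempty) (h : ∀ ξ ∈ Ω, MvPolynomial.eval ξ p = MvPolynomial.eval ξ q) : p = q := by
  obtain ⟨ξ0, h0⟩ := hne
  obtain ⟨r, hr, hb⟩ := Metric.isOpen_iff.1 hΩ ξ0 h0
  refine MvPolynomial.funext_set (fun i => Metric.ball (ξ0 i) r) (fun i => ?_) ?_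
  · exact infinite_of_mem_nhds (ξ0 i) (Metric.ball_mem_nhds _ hr)
  · intro x hx
    apply h
    apply hb
    rw [Metric.mem_ball, dist_pi_lt_iff hr]
    intro i
    exact hx i (Set.mem_univ i)

lemma eval_lin (ξ y : V d) : MvPolynomial.eval ξ (lin y) = ξ ⬝ᵥ y := by
  unfold lin
  rw [map_sum]
  unfold dotProduct
  refine Finset.sum_congr rfl fun i _ => ?_
  simp [mul_comm]

lemma eval_psum (c : V d →₀ ℝ) (j : ℕ) (ξ : V d) :
    MvPolynomial.eval ξ (psum c j) = c.sum fun y a => a * (ξ ⬝ᵥ y) ^ j := by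
  unfold psum Finsupp.sum
  rw [map_sum]
  refine Finset.sum_congr rfl fun y _ => ?_
  simp [eval_lin]

lemma dot_bound (ξ x : V d) : |ξ ⬝ᵥ x| ≤ d * ‖ξ‖ * ‖x‖ := by
  unfold dotProduct
  refine (Finset.abs_sum_le_sum_abs _ _).trans ?_
  have h : ∀ i ∈ (Finset.univ : Finset (Fin d)), |ξ i * x i| ≤ ‖ξ‖ * ‖x‖ := by
    intro i _
    rw [abs_mul]
    exact mul_le_mul (norm_le_pi_norm ξ i) (norm_le_pi_norm x i) (abs_nonneg _) (norm_nonneg _)
  refine (Finset.sum_le_card_nsmul _ _ _ h).trans ?_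
  simp [mul_assoc]

theorem cone_simplicial (hP : StmtPOWER) (hM : StmtMOM) (hF : StmtFACTOR) (hI : StmtIDENT)
    {G C : Set (V d)} (hG : Reg G) {f : V d →ₗ[ℝ] ℝ} (hC : IsC C f) (hsub : G ⊆ C)
    {c : V d →₀ ℝ} (hc0 : c 0 = 1)
    (hc : ∀ᵐ x ∂(volume : Measure (V d)), ind G x = op c (ind C) x) :
    ∃ A : V d ≃ₗ[ℝ] V d, ∀ x, x ∈ C ↔ ∀ i, 0 ≤ A.symm x i := by
  set Ω : Set (V d) := {ξ | ∀ x ∈ C, x ≠ 0 → ξ ⬝ᵥ x < 0} with hΩdef
  have hGint : (interior G).Nonempty := by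
    by_contra h
    rw [Set.not_nonempty_iff_eq_empty] at h
    have := hG.reg
    rw [h, closure_empty] at this
    exact hG.ne.ne_empty this.symm
  have hCint : (interior C).Nonempty := hGint.mono (interior_mono hsub)
  have hΩne : Ω.Nonempty := by
    obtain ⟨ξ, hξ⟩ := exists_dot f
    refine ⟨ξ, fun x hx hx0 => ?_⟩
    have := hC.neg x hx hx0
    rwa [hξ, dotL_apply] at this
  have hΩo : IsOpen Ω := by
    rw [Metric.isOpen_iff]
    intro ξ hξ
    have hC' : IsC C (dotL ξ) := ⟨hC.closed, hC.reg, hC.zero, hC.smul, fun x hx hx0 => hξ x hx hx0,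
      hC.inv⟩
    obtain ⟨b, hb, hbd⟩ := hC'.bound
    refine ⟨b / (d + 1), by positivity, ?_⟩
    intro η hη x hx hx0
    rw [Metric.mem_ball, dist_eq_norm, lt_div_iff₀ (by positivity)] at hη
    have h1 : η ⬝ᵥ x = ξ ⬝ᵥ x + (η - ξ) ⬝ᵥ x := by rw [sub_dotProduct]; ring
    have h2 := (abs_le.1 (dot_bound (η - ξ) x)).2
    have h3 := hbd x hx
    rw [dotL_apply] at h3
    have hxn : 0 < ‖x‖ := norm_pos_iff.2 hx0
    have h4 : (d : ℝ) * ‖η - ξ‖ < b := by nlinarith [norm_nonneg (η - ξ)]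
    have h5 : (d : ℝ) * ‖η - ξ‖ * ‖x‖ < b * ‖x‖ := mul_lt_mul_of_pos_right h4 hxn
    rw [h1]
    linarith
  have hpow : ∀ ξ ∈ Ω, IntegrableOn (fun x => Real.exp (ξ ⬝ᵥ x)) C ∧
      0 < ∫ x in C, Real.exp (ξ ⬝ᵥ x) ∧
      (∀ j < d, (c.sum fun y a => a * (ξ ⬝ᵥ y) ^ j) = 0) ∧
      (∀ n : ℕ, (c.sum fun y a => a * (ξ ⬝ᵥ y) ^ (n + d)) / ((n + d).factorial : ℝ)
        * (∫ x in C, Real.exp (ξ ⬝ᵥ x)) = (∫ x in G, (ξ ⬝ᵥ x) ^ n) / (n.factorial : ℝ)) := by
    intro ξ hξ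
    exact hP d C G c ξ hC.closed hCint hC.smul hξ hG.cpt hc
  choose m hm using hM d G hG.cpt
  set v0 : ℝ := ∫ x in G, (1 : ℝ) with hv0
  have hv0pos : 0 < v0 := by
    rw [hv0]
    simp only [integral_const, smul_eq_mul, mul_one]
    rw [measureReal_restrict_apply_univ]
    have h1 : 0 < volume G := lt_of_lt_of_le (isOpen_interior.measure_pos _ hGint)
      (measure_mono interior_subset)
    exact ENNReal.toReal_pos h1.ne' hG.cpt.measure_lt_top.ne
  have hd0 : (0 : ℝ) < (d.factorial : ℝ) := by exact_mod_cast d.factorial_pos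
  have hpd : ∀ ξ ∈ Ω, MvPolynomial.eval ξ (psum c d) * (∫ x in C, Real.exp (ξ ⬝ᵥ x))
      = v0 * d.factorial := by
    intro ξ hξ
    have h := (hpow ξ hξ).2.2.2 0
    simp only [zero_add, pow_zero, Nat.factorial_zero, Nat.cast_one, div_one] at h
    rw [eval_psum]
    rw [div_mul_eq_mul_div, div_eq_iff hd0.ne'] at h
    exact h
  have hdvd : ∀ j, psum c d ∣ psum c j := by
    intro j
    rcases lt_or_ge j d with hj | hj
    · have : psum c j = 0 := by
        refine poly_ext_open hΩo hΩne fun ξ hξ => ?_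
        rw [eval_psum, (hpow ξ hξ).2.2.1 j hj, map_zero]
      rw [this]
      exact dvd_zero _
    · obtain ⟨n, rfl⟩ := Nat.exists_eq_add_of_le' hj
      have hid : psum c (n + d) * MvPolynomial.C (v0 * d.factorial * n.factorial)
          = MvPolynomial.C ((n + d).factorial : ℝ) * m n * psum c d := by
        refine poly_ext_open hΩo hΩne fun ξ hξ => ?_
        have h1 := (hpow ξ hξ).2.2.2 n
        have h2 := hpd ξ hξ
        have h3 := (hpow ξ hξ).2.1
        rw [← eval_psum, ← hm] at h1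
        have hn0 : (0 : ℝ) < (n.factorial : ℝ) := by exact_mod_cast n.factorial_pos
        have hnd0 : (0 : ℝ) < ((n + d).factorial : ℝ) := by exact_mod_cast (n + d).factorial_pos
        simp only [map_mul, MvPolynomial.eval_C]
        rw [← h2]
        rw [div_mul_eq_mul_div, div_eq_div_iff hnd0.ne' hn0.ne'] at h1
        linear_combination (MvPolynomial.eval ξ (psum c d)) * h1
      have hk : v0 * d.factorial * n.factorial ≠ 0 := by positivity
      refine ⟨MvPolynomial.C (v0 * d.factorial * n.factorial)⁻¹ *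
        (MvPolynomial.C ((n + d).factorial : ℝ) * m n), ?_⟩
      have : psum c (n + d) = psum c (n + d) * MvPolynomial.C (v0 * d.factorial * n.factorial)
          * MvPolynomial.C (v0 * d.factorial * n.factorial)⁻¹ := by
        rw [mul_assoc, ← MvPolynomial.C_mul, mul_inv_cancel₀ hk, MvPolynomial.C_1, mul_one]
      rw [this, hid]
      ring
  have hpne : psum c d ≠ 0 := by
    intro h
    obtain ⟨ξ, hξ⟩ := hΩne
    have := hpd ξ hξ
    rw [h, map_zero, zero_mul] at this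
    have h2 : 0 < v0 * d.factorial := by positivity
    linarith
  obtain ⟨κ, y, hκ, hfac⟩ := hF d c (by rw [hc0]; exact one_ne_zero) hpne hdvd
  refine hI d C Ω (v0 * d.factorial / κ) y hΩo hΩne hC.reg hCint (by positivity)
    (fun ξ hξ => (hpow ξ hξ).1) ?_
  intro ξ hξ
  have h := hpd ξ hξ
  rw [hfac, map_mul, MvPolynomial.eval_C, map_prod] at h
  simp only [eval_lin] at h
  rw [eq_div_iff hκ, ← h]
  ring

end Pool.Agent.R896.PA
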