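import Pool.Agent.R896.PA.Simp

/-!
Exposed vertices with a prescribed sign pattern; translation and conjugation.
-/

open MeasureTheory Filter Topology

namespace Pool.Agent.R896.PA

variable {d : ℕ}

lemma exists_vtx {G : Set (V d)} (hc : IsCompact G) (hne : G.Nonempty) (σ : Fin d → ℝ)
    (hσ : ∀ i, σ i = 1 ∨ σ i = -1) :
    ∃ (η v : V d), (∀ i, 0 < σ i * η i) ∧ Vtx G (dotL η) v := by
  obtain ⟨R, hR⟩ : ∃ R : ℝ, ∀ x ∈ G, ‖x‖ ≤ R := hc.isBounded.exists_norm_le
  set z : V d := fun i => -((R + 1) * σ i) with hz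
  have hcont : ContinuousOn (fun x : V d => ∑ i, (x i - z i) ^ 2) G := by
    apply Continuous.continuousOn
    fun_prop
  obtain ⟨v, hv, hmax⟩ := hc.exists_isMaxOn hne hcont
  refine ⟨fun i => v i - z i, v, ?_, hv, ?_⟩
  · intro i
    have h1 : |v i| ≤ R := (norm_le_pi_norm v i).trans (hR v hv)
    obtain ⟨h2, h3⟩ := abs_le.1 h1
    show 0 < σ i * (v i - z i)
    rw [hz]
    rcases hσ i with h | h <;> simp only [h] <;> nlinarith
  · intro x hx hne'
    have h1 : ∑ i, (x i - z i) ^ 2 ≤ ∑ i, (v i - z i) ^ 2 := hmax hx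
    have h2 : 0 < ∑ i, (x i - v i) ^ 2 := by
      obtain ⟨i, hi⟩ : ∃ i, x i ≠ v i := by
        by_contra h
        push Not at h
        exact hne' (funext h)
      refine Finset.sum_pos' (fun j _ => sq_nonneg _) ⟨i, Finset.mem_univ i, ?_⟩
      have : x i - v i ≠ 0 := sub_ne_zero.2 hi
      positivity
    have h3 : ∑ i, (x i - z i) ^ 2 = ∑ i, (v i - z i) ^ 2 + ∑ i, (x i - v i) ^ 2
        + 2 * ∑ i, (v i - z i) * (x i - v i) := by
      rw [Finset.mul_sum, ← Finset.sum_add_distrib, ← Finset.sum_add_distrib]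
      refine Finset.sum_congr rfl fun i _ => ?_
      ring
    have h4 : dotL (fun i => v i - z i) x - dotL (fun i => v i - z i) v
        = ∑ i, (v i - z i) * (x i - v i) := by
      rw [dotL_apply, dotL_apply]
      unfold dotProduct
      rw [← Finset.sum_sub_distrib]
      refine Finset.sum_congr rfl fun i _ => ?_
      ring
    linarith

/-- Translate a set. -/
def shiftSet (v : V d) (G : Set (V d)) : Set (V d) := {x | v + x ∈ G}

lemma Reg.shift {G : Set (V d)} (hG : Reg G) (v : V d) : Reg (shiftSet v G) := by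
  have he : shiftSet v G = (Homeomorph.addLeft v) ⁻¹' G := rfl
  refine ⟨?_, ?_, ?_, ?_⟩
  · rw [he, Homeomorph.isCompact_preimage]
    exact hG.cpt
  · obtain ⟨x, hx⟩ := hG.ne
    exact ⟨-v + x, by show v + (-v + x) ∈ G; simpa using hx⟩
  · rw [he, ← Homeomorph.preimage_interior, ← Homeomorph.preimage_closure, hG.reg]
  · intro w
    obtain ⟨r, hr, h⟩ := hG.lc (v + w)
    refine ⟨r, hr, ?_⟩
    intro x hx a ha ha1
    have := h x hx a ha ha1
    show v + (w + x) ∈ G ↔ v + (w + a • x) ∈ G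
    rw [← add_assoc, ← add_assoc]
    exact this

lemma Tile.shift {G : Set (V d)} {L : V d ≃ₗ[ℝ] V d} {S : Finset (V d)} (hT : Tile G L S)
    {v s : V d} (hs : s ∈ S) (hv : L v = v + s) :
    ∃ T : Finset (V d), Tile (shiftSet v G) L T ∧ (0 : V d) ∈ T := by
  classical
  refine ⟨S.image (fun t => t - s), ⟨?_, ?_⟩, ?_⟩
  · intro x
    have h1 : L.symm x ∈ shiftSet v G ↔ L.symm (x + (v + s)) ∈ G := by
      show v + L.symm x ∈ G ↔ _
      rw [map_add, ← hv, LinearEquiv.symm_apply_apply, add_comm]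
    rw [h1, hT.union]
    constructor
    · rintro ⟨t, ht, h⟩
      refine ⟨t - s, Finset.mem_image_of_mem _ ht, ?_⟩
      show v + (x - (t - s)) ∈ G
      have e : v + (x - (t - s)) = x + (v + s) - t := by
        ext i; simp; ring
      rwa [e]
    · rintro ⟨u, hu, h⟩
      obtain ⟨t, ht, rfl⟩ := Finset.mem_image.1 hu
      refine ⟨t, ht, ?_⟩
      have h' : v + (x - (t - s)) ∈ G := h
      have e : v + (x - (t - s)) = x + (v + s) - t := by
        ext i; simp; ring
      rwa [e] at h'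
  · intro u hu w hw huw
    obtain ⟨t1, ht1, rfl⟩ := Finset.mem_image.1 hu
    obtain ⟨t2, ht2, rfl⟩ := Finset.mem_image.1 hw
    have hne : t1 ≠ t2 := by
      rintro rfl
      exact huw rfl
    have h0 := null_translate (-(v + s)) (hT.disj t1 ht1 t2 ht2 hne)
    refine measure_mono_null ?_ h0
    intro x hx
    have h1 : v + (x - (t1 - s)) ∈ G := hx.1
    have h2 : v + (x - (t2 - s)) ∈ G := hx.2
    refine ⟨?_, ?_⟩
    · have e : v + (x - (t1 - s)) = x - -(v + s) - t1 := by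
        ext i; simp; ring
      rwa [e] at h1
    · have e : v + (x - (t2 - s)) = x - -(v + s) - t2 := by
        ext i; simp; ring
      rwa [e] at h2
  · rw [Finset.mem_image]
    exact ⟨s, hs, sub_self s⟩

lemma Vtx.shift {G : Set (V d)} {f : V d →ₗ[ℝ] ℝ} {v : V d} (hv : Vtx G f v) :
    Vtx (shiftSet v G) f 0 := by
  refine ⟨?_, ?_⟩
  · show v + 0 ∈ G
    rw [add_zero]
    exact hv.mem
  · intro x hx hx0
    have h1 : v + x ∈ G := hx
    have h2 := hv.lt _ h1 (by simpa using hx0)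
    rw [map_add] at h2
    rw [map_zero]
    linarith

/-- Pull back under a linear automorphism. -/
def pullSet (A : V d ≃ₗ[ℝ] V d) (G : Set (V d)) : Set (V d) := {x | A x ∈ G}

lemma Reg.pull {G : Set (V d)} (hG : Reg G) (A : V d ≃ₗ[ℝ] V d) : Reg (pullSet A G) := by
  have hA : Continuous (fun x : V d => A x) :=
    (A : V d →ₗ[ℝ] V d).continuous_of_finiteDimensional
  have he : pullSet A G = (A.toContinuousLinearEquiv.toHomeomorph) ⁻¹' G := rfl
  refine ⟨?_, ?_, ?_, ?_⟩
  · rw [he, Homeomorph.isCompact_preimage]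
    exact hG.cpt
  · obtain ⟨x, hx⟩ := hG.ne
    exact ⟨A.symm x, by show A (A.symm x) ∈ G; simpa using hx⟩
  · rw [he, ← Homeomorph.preimage_interior, ← Homeomorph.preimage_closure, hG.reg]
  · intro w
    obtain ⟨r, hr, h⟩ := hG.lc (A w)
    have h1 : Tendsto (fun x : V d => A x) (𝓝 0) (𝓝 0) := by
      have := hA.tendsto 0
      simpa using this
    have h2 : ∀ᶠ x in 𝓝 (0 : V d), ‖A x‖ < r := by
      have := h1.norm
      rw [norm_zero] at this
      exact this.eventually (gt_mem_nhds hr)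
    obtain ⟨δ, hδ, hb⟩ := Metric.eventually_nhds_iff.1 h2
    refine ⟨δ, hδ, ?_⟩
    intro x hx a ha ha1
    have := h (A x) (hb (by simpa [dist_eq_norm] using hx)) a ha ha1
    show A (w + x) ∈ G ↔ A (w + a • x) ∈ G
    rw [map_add, map_add, map_smul]
    exact this

/-- Conjugation. -/
lemma conj_pow (A L : V d ≃ₗ[ℝ] V d) (k : ℕ) (x : V d) :
    ((A⁻¹ * L * A) ^ k).symm x = A.symm ((L ^ k).symm (A x)) := by
  have h : (A⁻¹ * L * A) ^ k = A⁻¹ * L ^ k * A := by
    induction k with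
    | zero => simp
    | succ k ih => rw [pow_succ, ih, pow_succ]; group
  rw [h]
  rfl

lemma Tile.pull {G : Set (V d)} {L : V d ≃ₗ[ℝ] V d} {S : Finset (V d)} (hT : Tile G L S)
    (A : V d ≃ₗ[ℝ] V d) :
    ∃ T : Finset (V d), Tile (pullSet A G) (A⁻¹ * L * A) T ∧
      ((0 : V d) ∈ S → (0 : V d) ∈ T) := by
  classical
  refine ⟨S.image (fun t => A.symm t), ⟨?_, ?_⟩, ?_⟩
  · intro x
    have h1 : (A⁻¹ * L * A).symm x = A.symm (L.symm (A x)) := rfl
    rw [h1]
    have h2 : A.symm (L.symm (A x)) ∈ pullSet A G ↔ L.symm (A x) ∈ G := by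
      show A (A.symm _) ∈ G ↔ _
      rw [LinearEquiv.apply_symm_apply]
    rw [h2, hT.union]
    constructor
    · rintro ⟨t, ht, h⟩
      refine ⟨A.symm t, Finset.mem_image_of_mem _ ht, ?_⟩
      show A (x - A.symm t) ∈ G
      rwa [map_sub, LinearEquiv.apply_symm_apply]
    · rintro ⟨u, hu, h⟩
      obtain ⟨t, ht, rfl⟩ := Finset.mem_image.1 hu
      refine ⟨t, ht, ?_⟩
      have h' : A (x - A.symm t) ∈ G := h
      rwa [map_sub, LinearEquiv.apply_symm_apply] at h'
  · intro u hu w hw huw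
    obtain ⟨t1, ht1, rfl⟩ := Finset.mem_image.1 hu
    obtain ⟨t2, ht2, rfl⟩ := Finset.mem_image.1 hw
    have hne : t1 ≠ t2 := by
      rintro rfl
      exact huw rfl
    have h0 := null_preimage A (hT.disj t1 ht1 t2 ht2 hne)
    refine measure_mono_null ?_ h0
    intro x hx
    have h1 : A (x - A.symm t1) ∈ G := hx.1
    have h2 : A (x - A.symm t2) ∈ G := hx.2
    rw [map_sub, LinearEquiv.apply_symm_apply] at h1 h2
    exact ⟨h1, h2⟩
  · intro h0
    rw [Finset.mem_image]
    exact ⟨0, h0, by simp⟩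

lemma Contr.pull {L : V d ≃ₗ[ℝ] V d} (h : Contr L) (A : V d ≃ₗ[ℝ] V d) :
    Contr (A⁻¹ * L * A) := by
  intro x
  have hA : Continuous (fun x : V d => A.symm x) :=
    (A.symm : V d →ₗ[ℝ] V d).continuous_of_finiteDimensional
  have h1 := (hA.tendsto 0).comp (h (A x))
  simp only [map_zero] at h1
  refine h1.congr fun k => ?_
  rw [conj_pow]
  rfl

lemma Vtx.pull {G : Set (V d)} {f : V d →ₗ[ℝ] ℝ} (hv : Vtx G f 0) (A : V d ≃ₗ[ℝ] V d) :
    Vtx (pullSet A G) (f ∘ₗ (A : V d →ₗ[ℝ] V d)) 0 := by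
  refine ⟨?_, ?_⟩
  · show A 0 ∈ G
    rw [map_zero]
    exact hv.mem
  · intro x hx hx0
    have h1 : A x ∈ G := hx
    have h2 := hv.lt _ h1 (by simpa using hx0)
    simpa using h2

end Pool.Agent.R896.PA
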